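import Mathlib

/-!
# MP_93d592_an, finite part : definitions

Digit space `I → Bool`, `I = C × Fin L`; a level is `l : C → ℤ`; the digit `(c,k)` is revealed at
level `l` iff `k < l c`.
-/

open Finset
open scoped Classical

noncomputable section

namespace Zyg

section general

variable {I : Type} [Fintype I]

/-- flip one digit -/
def flip (i : I) (z : I → Bool) : I → Bool := Function.update z i (!z i)

/-- the points which agree with `z` on `D` -/
def cyl (D : Finset I) (z : I → Bool) : Finset (I → Bool) :=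
  Finset.univ.filter fun z' => ∀ i ∈ D, z' i = z i

/-- average over `cyl D z` -/
def av (D : Finset I) (f : (I → Bool) → ℝ) (z : I → Bool) : ℝ :=
  (∑ z' ∈ cyl D z, f z') / ((cyl D z).card : ℝ)

/-- `h` depends only on the digits of `D` -/
def Dep {α : Type} (D : Finset I) (h : (I → Bool) → α) : Prop :=
  ∀ z z', (∀ i ∈ D, z i = z' i) → h z = h z'

/-- indicator -/
def ind (P : Prop) : ℝ := if P then 1 else 0

end general

variable {C : Type} [Fintype C] [LinearOrder C] {L m : ℕ}

/-- digit space -/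
abbrev Zs (C : Type) (L : ℕ) : Type := C × Fin L → Bool

/-- position of a digit relative to the level `l` -/
def kl (l : C → ℤ) (i : C × Fin L) : ℤ := (i.2.1 : ℤ) - l i.1

/-- revealed digits -/
def D (l : C → ℤ) : Finset (C × Fin L) := Finset.univ.filter fun i => kl l i < 0

/-- order of the digits seen from the level `l` -/
def key (l : C → ℤ) (i : C × Fin L) : ℤ ×ₗ C := toLex (kl l i, i.1)

/-- the digits before `i` -/
def past (l : C → ℤ) (i : C × Fin L) : Finset (C × Fin L) :=
  Finset.univ.filter fun j => key l j < key l i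

/-- (twice the) conditional probability of the digit `i` given its past -/
def q (f : Zs C L → ℝ) (l : C → ℤ) (i : C × Fin L) (z : Zs C L) : ℝ :=
  av (insert i (past l i)) f z / av (past l i) f z

/-- the digits of `B` at times `0 ≤ · < t` -/
def W (B : Finset C) (l : C → ℤ) (t : ℤ) : Finset (C × Fin L) :=
  Finset.univ.filter fun i => i.1 ∈ B ∧ 0 ≤ kl l i ∧ kl l i < t

/-- the digits of `B` at times `≥ t` -/
def U (B : Finset C) (l : C → ℤ) (t : ℤ) : Finset (C × Fin L) :=
  Finset.univ.filter fun i => i.1 ∈ B ∧ t ≤ kl l i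

/-- log-likelihood of the digits of `B` at times `0 ≤ · < t` -/
def Vt (f : Zs C L → ℝ) (B : Finset C) (l : C → ℤ) (t : ℤ) (z : Zs C L) : ℝ :=
  ∑ i ∈ W B l t, Real.log (q f l i z)

/-- log-likelihood of all digits of `B` at times `≥ 0` -/
def V (f : Zs C L → ℝ) (B : Finset C) (l : C → ℤ) (z : Zs C L) : ℝ :=
  ∑ i ∈ U B l 0, Real.log (q f l i z)

/-- level of the shape `w` -/
def lv (a : C → Fin m → ℕ) (w : Fin m → ℤ) : C → ℤ := fun c => ∑ i, (a c i : ℤ) * w i

/-- number of selected boxes containing `z` -/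
def NN (Lev : Finset (Fin m → ℤ)) (Fs : (Fin m → ℤ) → Finset (Zs C L)) (z : Zs C L) : ℕ :=
  (Lev.filter fun w => z ∈ Fs w).card

/-- total size of the selected boxes -/
def TT (Lev : Finset (Fin m → ℤ)) (Fs : (Fin m → ℤ) → Finset (Zs C L)) : ℝ :=
  ∑ w ∈ Lev, ((Fs w).card : ℝ)

/-- constant in the moment bound -/
def Bp (n p : ℕ) : ℝ := 4 * (4 * (p : ℝ)) ^ n

/-- a selected family: `Fs w` is a union of boxes of level `lv a w`, `1 < average ≤ K` on these
boxes, and moments of the overlap function -/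
structure Fam (a : C → Fin m → ℕ) (f : Zs C L → ℝ) (K : ℝ) (Lev : Finset (Fin m → ℤ))
    (Fs : (Fin m → ℤ) → Finset (Zs C L)) : Prop where
  dep : ∀ w ∈ Lev, Dep (D (lv a w)) fun z => z ∈ Fs w
  low : ∀ w ∈ Lev, ∀ z ∈ Fs w, 1 < av (D (lv a w)) f z
  upp : ∀ w ∈ Lev, ∀ z ∈ Fs w, av (D (lv a w)) f z ≤ K
  mom : ∀ p : ℕ, 2 ≤ p → ∑ z, (NN Lev Fs z : ℝ) ^ p ≤ Bp (Fintype.card C) p ^ p * TT Lev Fs

/-- number of the selected boxes `w'` at `z` for which the information spent in the coordinates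
outside of `A` on the way from `l` is at most `S` -/
def NA (a : C → Fin m → ℕ) (f : Zs C L → ℝ) (Lev : Finset (Fin m → ℤ))
    (Fs : (Fin m → ℤ) → Finset (Zs C L)) (A : Finset C) (S : ℝ) (l : C → ℤ) (z : Zs C L) : ℕ :=
  (Lev.filter fun w' => z ∈ Fs w' ∧ ∀ c ∉ A, Vt f {c} l (max (lv a w' c - l c) 0) z ≤ S).card

/-- the polynomial factor -/
def lam (n S : ℕ) : ℝ := Real.exp 3 * Bp n (n * S + 3) ^ 3

/-- coordinates of the potential -/
def XX (a : C → Fin m → ℕ) (f : Zs C L → ℝ) (l : C → ℤ) (i : Fin m) (z : Zs C L) : ℝ :=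
  ∑ c, (a c i : ℝ) * V f {c} l z

end Zyg
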