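import Pool.Agent.Work.MP_93d592_an.A.QFacts

/-!
# Vil : the maximal inequality (A3)

PROOF of `vil`. Times `t > T := max over c of (L - l c)` (or `0`) give the same value as `T`
(`Vt` is constant), so the event is `∃ t ∈ {0,…,T}`. Split by the smallest such `t`: `E_t z` depends
only on digits with `kl l i < t` (`Vt_dep`, monotone). For fixed `t`:
`∑_{z ∈ G} exp (V f B₁ l z) [E_t] = ∑_{z ∈ G} exp (Vt f B₁ l t z) [E_t]` (`seq` with `key l`,
digits `U B₁ l t`; use `V_eq`, `exp_Vt`) `≤ exp (-x) ∑_{z ∈ G} exp (Vt f B₂ l t z) [E_t]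
= exp (-x) ∑_{z ∈ G} exp (V f B₂ l z) [E_t]`. Sum over `t`: `≤ exp (-x) ∑_{z ∈ G} exp (V f B₂ l z)
= exp (-x) |G|` (`seq` again).
`vil_up`: `B₁ = Aᶜ`, `B₂ = univ`. `vil_down`: `B₁ = univ`, `B₂ = {c}ᶜ`.
-/

open Finset
open scoped Classical

noncomputable section

namespace Zyg

variable {C : Type} [Fintype C] [LinearOrder C] {L : ℕ} {f : Zs C L → ℝ}

omit [Fintype C] [LinearOrder C] in
theorem Vil_univ (g : Zs C L → ℝ) (i1 i2 : Fintype (Zs C L)) :
    @Finset.sum _ _ _ (@Finset.univ _ i1) g = @Finset.sum _ _ _ (@Finset.univ _ i2) g := by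
  have : i1 = i2 := Subsingleton.elim _ _
  rw [this]

theorem Vil_seq (hf : ∀ z, 0 < f z) (l : C → ℤ) (B : Finset C) (t : ℤ) (h : Zs C L → ℝ)
    (hh : ∀ z z' : Zs C L, (∀ i : C × Fin L, kl l i < t → z i = z' i) → h z = h z') :
    ∑ z : Zs C L, h z * ∏ i ∈ U B l t, q f l i z = ∑ z : Zs C L, h z := by
  have hsub : ∀ i : C × Fin L, kl l i < t → i ∉ U B l t := by
    intro i hi h
    simp only [U, Finset.mem_filter, Finset.mem_univ, true_and] at h
    exact absurd h.2 (not_le.mpr hi)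
  have key0 := seq (key (L := L) l) (key_inj l) (U B l t) (q f l) h
    (fun i _ => q_dep' l i) (fun i _ z => q_add_flip hf l i z) (by
      intro z z' hz
      refine hh z z' fun i hi => hz i ?_
      exact (@Finset.mem_compl _ _ _ (fun a b => Classical.propDecidable (a = b)) _).mpr
        (hsub i hi))
  exact (Vil_univ _ _ _).trans (key0.trans (Vil_univ _ _ _))

/-- digits before time `t` -/
theorem Vil_sum (hf : ∀ z, 0 < f z) (l : C → ℤ) (B : Finset C) (G : Finset (Zs C L))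
    (hG : Dep (D l) fun z => z ∈ G) (t : ℤ) (ht : 0 ≤ t) (P : Zs C L → Prop)
    (hP : Dep (Finset.univ.filter fun i : C × Fin L => kl l i < t) P) :
    ∑ z ∈ G, Real.exp (V f B l z) * ind (P z) =
      ∑ z ∈ G, Real.exp (Vt f B l t z) * ind (P z) := by
  have key1 := Vil_seq hf l B t (fun z => ind (z ∈ G) * (Real.exp (Vt f B l t z) * ind (P z))) (by
      intro z z' h0
      have h1 : ∀ i ∈ (Finset.univ.filter fun i : C × Fin L => kl l i < t), z i = z' i :=
        fun i hi => h0 i (Finset.mem_filter.mp hi).2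
      have h2 : (z ∈ G) = (z' ∈ G) := hG z z' fun i hi => by
        have h3 : kl l i < 0 := (Finset.mem_filter.mp hi).2
        exact h0 i (lt_of_lt_of_le h3 ht)
      have h3 : P z = P z' := hP z z' h1
      have h4 : Vt f B l t z = Vt f B l t z' := Vt_dep B l t z z' h1
      simp only [h2, h3, h4])
  have e1 : ∀ F : Zs C L → ℝ, ∑ z ∈ G, F z = ∑ z, ind (z ∈ G) * F z := by
    intro F
    have h1 : ∀ z, ind (z ∈ G) * F z = if z ∈ G then F z else 0 := by
      intro z
      unfold ind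
      split_ifs <;> simp
    rw [Finset.sum_congr rfl fun z _ => h1 z, Finset.sum_ite_mem]
    simp
  rw [e1, e1 (fun z => Real.exp (Vt f B l t z) * ind (P z)), ← key1]
  refine Finset.sum_congr rfl fun z _ => ?_
  have h5 : Real.exp (V f B l z) =
      Real.exp (Vt f B l t z) * ∏ i ∈ U B l t, q f l i z := by
    rw [V_eq B l ht z, Real.exp_add, Real.exp_sum]
    congr 1
    exact Finset.prod_congr rfl fun i _ => Real.exp_log (q_pos hf l i z)
  rw [h5]
  ring

theorem sum_exp_V (hf : ∀ z, 0 < f z) (l : C → ℤ) (B : Finset C) (G : Finset (Zs C L))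
    (hG : Dep (D l) fun z => z ∈ G) : ∑ z ∈ G, Real.exp (V f B l z) = G.card := by
  have h := Vil_sum hf l B G hG 0 le_rfl (fun _ => True) (fun _ _ _ => rfl)
  simp only [ind, if_true, mul_one] at h
  rw [h]
  have h2 : ∀ z ∈ G, Real.exp (Vt f B l 0 z) = 1 := by
    intro z _
    rw [Vt_nonpos B l le_rfl z, Real.exp_zero]
  rw [Finset.sum_congr rfl h2]
  simp

theorem vil (hf : ∀ z, 0 < f z) (l : C → ℤ) (B₁ B₂ : Finset C) (G : Finset (Zs C L))
    (hG : Dep (D l) fun z => z ∈ G) (x : ℝ) :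
    ∑ z ∈ G, Real.exp (V f B₁ l z) *
      ind (∃ t : ℤ, 0 ≤ t ∧ Vt f B₁ l t z + x ≤ Vt f B₂ l t z) ≤ Real.exp (-x) * G.card := by
  obtain ⟨T, hT⟩ : ∃ T : ℕ, ∀ c, (L : ℤ) - l c ≤ (T : ℤ) := by
    refine ⟨∑ c, ((L : ℤ) - l c).toNat, fun c => ?_⟩
    have h1 : ((L : ℤ) - l c).toNat ≤ ∑ c, ((L : ℤ) - l c).toNat :=
      Finset.single_le_sum (f := fun c => ((L : ℤ) - l c).toNat) (fun _ _ => Nat.zero_le _)
        (Finset.mem_univ c)
    have h2 : (L : ℤ) - l c ≤ (((L : ℤ) - l c).toNat : ℤ) := Int.self_le_toNat _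
    have h3 : ((((L : ℤ) - l c).toNat : ℕ) : ℤ) ≤ ((∑ c, ((L : ℤ) - l c).toNat : ℕ) : ℤ) := by
      exact_mod_cast h1
    exact h2.trans h3
  set E : ℕ → Zs C L → Prop := fun n z => Vt f B₁ l (n : ℤ) z + x ≤ Vt f B₂ l (n : ℤ) z with hE
  set P : ℕ → Zs C L → Prop := fun n z => E n z ∧ ∀ m < n, ¬ E m z with hPdef
  have hind : ∀ z : Zs C L, ind (∃ t : ℤ, 0 ≤ t ∧ Vt f B₁ l t z + x ≤ Vt f B₂ l t z) =
      ∑ n ∈ Finset.range (T + 1), ind (P n z) := by
    intro z
    by_cases hex : ∃ t : ℤ, 0 ≤ t ∧ Vt f B₁ l t z + x ≤ Vt f B₂ l t z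
    · have hexN : ∃ n : ℕ, n ≤ T ∧ E n z := by
        obtain ⟨t, ht0, ht⟩ := hex
        by_cases htT : t ≤ T
        · refine ⟨t.toNat, by omega, ?_⟩
          simp only [hE]
          rw [Int.toNat_of_nonneg ht0]
          exact ht
        · refine ⟨T, le_rfl, ?_⟩
          simp only [hE]
          rw [Vt_large B₁ l hT z, Vt_large B₂ l hT z]
          have h1 : ∀ c, (L : ℤ) - l c ≤ t := fun c => (hT c).trans (not_le.mp htT).le
          rw [Vt_large B₁ l h1 z, Vt_large B₂ l h1 z] at ht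
          exact ht
      obtain ⟨n0, hn0T, hn0⟩ := hexN
      have hexN' : ∃ n : ℕ, E n z := ⟨n0, hn0⟩
      have hle : Nat.find hexN' ≤ n0 := Nat.find_min' hexN' hn0
      have hPf : P (Nat.find hexN') z :=
        ⟨Nat.find_spec hexN', fun m hm => Nat.find_min hexN' hm⟩
      rw [Finset.sum_eq_single (Nat.find hexN')]
      · simp only [ind, hex, if_true, hPf]
      · intro b _ hb
        have : ¬ P b z := by
          intro hPb
          rcases lt_trichotomy b (Nat.find hexN') with h | h | h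
          · exact hPf.2 b h hPb.1
          · exact hb h
          · exact hPb.2 _ h hPf.1
        simp only [ind, this, if_false]
      · intro h
        exact absurd (Finset.mem_range.mpr (by omega)) h
    · have h0 : ∀ n ∈ Finset.range (T + 1), ind (P n z) = 0 := by
        intro n _
        have : ¬ P n z := by
          intro hPn
          exact hex ⟨(n : ℤ), Int.natCast_nonneg n, hPn.1⟩
        simp only [ind, this, if_false]
      rw [Finset.sum_eq_zero h0]
      simp only [ind, hex, if_false]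
  have hPdep : ∀ n : ℕ, Dep (Finset.univ.filter fun i : C × Fin L => kl l i < (n : ℤ)) (P n) := by
    intro n z z' hz
    have hEq : ∀ m : ℕ, m ≤ n → E m z = E m z' := by
      intro m hm
      have hz' : ∀ i ∈ (Finset.univ.filter fun i : C × Fin L => kl l i < (m : ℤ)), z i = z' i := by
        intro i hi
        refine hz i ?_
        simp only [Finset.mem_filter, Finset.mem_univ, true_and] at hi ⊢
        exact lt_of_lt_of_le hi (by exact_mod_cast hm)
      simp only [hE]
      rw [Vt_dep B₁ l (m : ℤ) z z' hz', Vt_dep B₂ l (m : ℤ) z z' hz']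
    simp only [hPdef]
    rw [hEq n le_rfl]
    refine congrArg (And _) ?_
    refine propext ⟨fun h m hm => ?_, fun h m hm => ?_⟩
    · rw [← hEq m hm.le]; exact h m hm
    · rw [hEq m hm.le]; exact h m hm
  have hind0 : ∀ Q : Prop, 0 ≤ ind Q := by
    intro Q
    unfold ind
    split_ifs <;> norm_num
  have hind1 : ∀ Q : Prop, ind Q ≤ 1 := by
    intro Q
    unfold ind
    split_ifs <;> norm_num
  calc ∑ z ∈ G, Real.exp (V f B₁ l z) *
      ind (∃ t : ℤ, 0 ≤ t ∧ Vt f B₁ l t z + x ≤ Vt f B₂ l t z)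
      = ∑ n ∈ Finset.range (T + 1), ∑ z ∈ G, Real.exp (V f B₁ l z) * ind (P n z) := by
        rw [Finset.sum_comm]
        refine Finset.sum_congr rfl fun z _ => ?_
        rw [hind z, Finset.mul_sum]
    _ ≤ ∑ n ∈ Finset.range (T + 1), Real.exp (-x) *
          ∑ z ∈ G, Real.exp (V f B₂ l z) * ind (P n z) := by
        refine Finset.sum_le_sum fun n _ => ?_
        rw [Vil_sum hf l B₁ G hG n (Int.natCast_nonneg n) (P n) (hPdep n),
          Vil_sum hf l B₂ G hG n (Int.natCast_nonneg n) (P n) (hPdep n), Finset.mul_sum]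
        refine Finset.sum_le_sum fun z _ => ?_
        by_cases hPz : P n z
        · have h1 : Vt f B₁ l (n : ℤ) z + x ≤ Vt f B₂ l (n : ℤ) z := hPz.1
          simp only [ind, hPz, if_true, mul_one]
          rw [← Real.exp_add]
          exact Real.exp_le_exp.mpr (by linarith)
        · simp only [ind, hPz, if_false, mul_zero, le_refl]
    _ = Real.exp (-x) * ∑ z ∈ G, Real.exp (V f B₂ l z) *
          ind (∃ t : ℤ, 0 ≤ t ∧ Vt f B₁ l t z + x ≤ Vt f B₂ l t z) := by
        rw [← Finset.mul_sum, Finset.sum_comm]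
        congr 1
        refine Finset.sum_congr rfl fun z _ => ?_
        rw [hind z, Finset.mul_sum]
    _ ≤ Real.exp (-x) * ∑ z ∈ G, Real.exp (V f B₂ l z) := by
        refine mul_le_mul_of_nonneg_left ?_ (Real.exp_pos _).le
        refine Finset.sum_le_sum fun z _ => ?_
        exact mul_le_of_le_one_right (Real.exp_pos _).le (hind1 _)
    _ = Real.exp (-x) * G.card := by rw [sum_exp_V hf l B₂ G hG]

theorem vil_up (hf : ∀ z, 0 < f z) (l : C → ℤ) (A : Finset C) (G : Finset (Zs C L))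
    (hG : Dep (D l) fun z => z ∈ G) (x : ℝ) :
    ∑ z ∈ G, Real.exp (V f Aᶜ l z) * ind (∃ t : ℤ, 0 ≤ t ∧ x ≤ Vt f A l t z) ≤
      Real.exp (-x) * G.card := by
  have h := vil hf l Aᶜ Finset.univ G hG x
  have e : ∀ z : Zs C L, (∃ t : ℤ, 0 ≤ t ∧ Vt f Aᶜ l t z + x ≤ Vt f Finset.univ l t z) =
      (∃ t : ℤ, 0 ≤ t ∧ x ≤ Vt f A l t z) := by
    intro z
    refine propext (exists_congr fun t => and_congr_right fun _ => ?_)
    rw [← Vt_compl A l t z]
    constructor <;> intro h <;> linarith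
  simp only [e] at h
  exact h

theorem vil_down (hf : ∀ z, 0 < f z) (l : C → ℤ) (c : C) (G : Finset (Zs C L))
    (hG : Dep (D l) fun z => z ∈ G) (x : ℝ) :
    ∑ z ∈ G, Real.exp (V f Finset.univ l z) * ind (∃ t : ℤ, 0 ≤ t ∧ Vt f {c} l t z ≤ -x) ≤
      Real.exp (-x) * G.card := by
  have h := vil hf l Finset.univ {c}ᶜ G hG x
  have e : ∀ z : Zs C L, (∃ t : ℤ, 0 ≤ t ∧ Vt f Finset.univ l t z + x ≤ Vt f {c}ᶜ l t z) =
      (∃ t : ℤ, 0 ≤ t ∧ Vt f {c} l t z ≤ -x) := by
    intro z
    refine propext (exists_congr fun t => and_congr_right fun _ => ?_)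
    rw [← Vt_compl {c} l t z]
    constructor <;> intro h <;> linarith
  simp only [e] at h
  exact h

end Zyg
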