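import Pool.Agent.Work.MP_93d592_an.A.Tup
import Pool.Agent.Work.MP_93d592_an.A.Vil

/-!
# Comb : combination of the moment bound with small events (A4)

PROOF. `p = n S + 2`, `x = lam n S > 0`. `N ≤ x + N^p x^{1-p}` for `N ≥ 0`. Hence the left side is
`≤ x e T + x^{1-p} ∑_w ∑_{z ∈ Fs w} exp (V f Aᶜ) NA^p ≤ x e T + x^{1-p} e^{nS} ∑_w ∑_{z ∈ Fs w} NN^p`
(`tup`), `∑_w ∑_{z ∈ Fs w} NN^p = ∑_z NN^(p+1) ≤ B^{p+1} T`, `B = Bp n (p+1) = Bp n (n S + 3) ≥ 1`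
(`mom`), `x = e^3 B^3`: `e^{nS} B^{p+1} (e^3 B^3)^{1-p} = e^{nS+3-3p} B^{4-2p} ≤ e^{nS+3-3p} ≤
e^{-nS-1}`.
-/

open Finset
open scoped Classical

noncomputable section

namespace Zyg

variable {C : Type} [Fintype C] [LinearOrder C] {L m : ℕ} {f : Zs C L → ℝ} {K : ℝ}
  {a : C → Fin m → ℕ} {Lev : Finset (Fin m → ℤ)} {Fs : (Fin m → ℤ) → Finset (Zs C L)}

theorem comb_Bp_ge_one (n k : ℕ) (hk : 1 ≤ k) : 1 ≤ Bp n k := by
  unfold Bp
  have h1 : (1 : ℝ) ≤ 4 * (k : ℝ) := by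
    have : (1 : ℝ) ≤ (k : ℝ) := by exact_mod_cast hk
    linarith
  have h2 : (1 : ℝ) ≤ (4 * (k : ℝ)) ^ n := one_le_pow₀ h1
  linarith

omit [Fintype C] [LinearOrder C] in
theorem comb_TT_nonneg (Lev : Finset (Fin m → ℤ)) (Fs : (Fin m → ℤ) → Finset (Zs C L)) :
    0 ≤ TT Lev Fs := Finset.sum_nonneg fun _ _ => by positivity

theorem comb_sum_NN (Lev : Finset (Fin m → ℤ)) (Fs : (Fin m → ℤ) → Finset (Zs C L)) (p : ℕ) :
    ∑ w ∈ Lev, ∑ z ∈ Fs w, (NN Lev Fs z : ℝ) ^ p = ∑ z, (NN Lev Fs z : ℝ) ^ (p + 1) := by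
  have h1 : ∀ w ∈ Lev, ∑ z ∈ Fs w, (NN Lev Fs z : ℝ) ^ p =
      ∑ z, if z ∈ Fs w then (NN Lev Fs z : ℝ) ^ p else 0 := by
    intro w _
    rw [← Finset.sum_filter]
    congr 1
    ext z
    simp
  rw [Finset.sum_congr rfl h1, Finset.sum_comm]
  refine Finset.sum_congr rfl fun z _ => ?_
  rw [← Finset.sum_filter, Finset.sum_const, nsmul_eq_mul, pow_succ, mul_comm]
  rfl

theorem comb_le (x N : ℝ) (hx : 0 < x) (hN : 0 ≤ N) (k : ℕ) :
    N ≤ x + N ^ (k + 1) / x ^ k := by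
  rcases le_total N x with h | h
  · have : 0 ≤ N ^ (k + 1) / x ^ k := by positivity
    linarith
  · have h1 : x ^ k ≤ N ^ k := pow_le_pow_left₀ hx.le h k
    have h2 : N ≤ N ^ (k + 1) / x ^ k := by
      rw [le_div_iff₀ (pow_pos hx k), pow_succ, mul_comm]
      exact mul_le_mul_of_nonneg_right h1 hN
    linarith

theorem comb_num (n S : ℕ) :
    Real.exp ((n : ℝ) * S) * Bp n (n * S + 3) ^ (n * S + 3) ≤
      Real.exp (-((n : ℝ) * S) - 1) * lam n S ^ (n * S + 1) := by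
  have hB : 1 ≤ Bp n (n * S + 3) := comb_Bp_ge_one _ _ (by omega)
  unfold lam
  rw [mul_pow, ← pow_mul, ← Real.exp_nat_mul]
  have h1 : Bp n (n * S + 3) ^ (n * S + 3) ≤ Bp n (n * S + 3) ^ (3 * (n * S + 1)) :=
    pow_le_pow_right₀ hB (by omega)
  have h2 : Real.exp ((n : ℝ) * S) ≤
      Real.exp (-((n : ℝ) * S) - 1) * Real.exp (((n * S + 1 : ℕ) : ℝ) * 3) := by
    rw [← Real.exp_add]
    apply Real.exp_le_exp.mpr
    push_cast
    have : (0 : ℝ) ≤ (n : ℝ) * S := by positivity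
    linarith
  calc Real.exp ((n : ℝ) * S) * Bp n (n * S + 3) ^ (n * S + 3)
      ≤ (Real.exp (-((n : ℝ) * S) - 1) * Real.exp (((n * S + 1 : ℕ) : ℝ) * 3)) *
        Bp n (n * S + 3) ^ (3 * (n * S + 1)) := by
        apply mul_le_mul h2 h1 (by positivity) (by positivity)
    _ = _ := by ring

theorem comb (hf : ∀ z, 0 < f z) (hF : Fam a f K Lev Fs) (A : Finset C) (S : ℕ)
    (E : (Fin m → ℤ) → Zs C L → Prop) (e : ℝ) (he : 0 ≤ e)
    (hE : ∑ w ∈ Lev, ∑ z ∈ Fs w, Real.exp (V f Aᶜ (lv a w) z) * ind (E w z) ≤ e * TT Lev Fs) :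
    ∑ w ∈ Lev, ∑ z ∈ Fs w, Real.exp (V f Aᶜ (lv a w) z) * (NA a f Lev Fs A S (lv a w) z : ℝ) *
        ind (E w z) ≤
      (lam (Fintype.card C) S * e + Real.exp (-(Fintype.card C * S : ℝ) - 1)) * TT Lev Fs := by
  set n := Fintype.card C with hn
  have hB : 1 ≤ Bp n (n * S + 3) := comb_Bp_ge_one _ _ (by omega)
  set x := lam n S with hx
  have hx0 : 0 < x := by
    rw [hx]; unfold lam
    have : 0 < Bp n (n * S + 3) := lt_of_lt_of_le one_pos hB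
    positivity
  have hTT := comb_TT_nonneg Lev Fs
  have hind : ∀ P : Prop, 0 ≤ ind P ∧ ind P ≤ 1 := by
    intro P
    unfold ind
    split_ifs <;> norm_num
  have h1 : ∀ w ∈ Lev, ∀ z ∈ Fs w,
      Real.exp (V f Aᶜ (lv a w) z) * (NA a f Lev Fs A S (lv a w) z : ℝ) * ind (E w z) ≤
      x * (Real.exp (V f Aᶜ (lv a w) z) * ind (E w z)) +
      (Real.exp (V f Aᶜ (lv a w) z) * (NA a f Lev Fs A S (lv a w) z : ℝ) ^ (n * S + 2)) /
        x ^ (n * S + 1) := by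
    intro w _ z _
    have h2 := comb_le x (NA a f Lev Fs A S (lv a w) z : ℝ) hx0 (by positivity) (n * S + 1)
    obtain ⟨i0, i1⟩ := hind (E w z)
    have hexp := Real.exp_pos (V f Aᶜ (lv a w) z)
    set N := (NA a f Lev Fs A S (lv a w) z : ℝ) with hN
    have hN0 : 0 ≤ N := by positivity
    have h3 : 0 ≤ N ^ (n * S + 2) / x ^ (n * S + 1) := by positivity
    calc Real.exp (V f Aᶜ (lv a w) z) * N * ind (E w z)
        ≤ Real.exp (V f Aᶜ (lv a w) z) * (x + N ^ (n * S + 2) / x ^ (n * S + 1)) * ind (E w z) := by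
          apply mul_le_mul_of_nonneg_right _ i0
          exact mul_le_mul_of_nonneg_left h2 hexp.le
      _ = x * (Real.exp (V f Aᶜ (lv a w) z) * ind (E w z)) +
          (Real.exp (V f Aᶜ (lv a w) z) * (N ^ (n * S + 2) / x ^ (n * S + 1))) * ind (E w z) := by
          ring
      _ ≤ x * (Real.exp (V f Aᶜ (lv a w) z) * ind (E w z)) +
          (Real.exp (V f Aᶜ (lv a w) z) * (N ^ (n * S + 2) / x ^ (n * S + 1))) * 1 := by
          have : 0 ≤ Real.exp (V f Aᶜ (lv a w) z) * (N ^ (n * S + 2) / x ^ (n * S + 1)) := by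
            positivity
          have := mul_le_mul_of_nonneg_left i1 this
          linarith
      _ = _ := by ring
  have h2 : ∑ w ∈ Lev, ∑ z ∈ Fs w,
      Real.exp (V f Aᶜ (lv a w) z) * (NA a f Lev Fs A S (lv a w) z : ℝ) * ind (E w z) ≤
      x * (∑ w ∈ Lev, ∑ z ∈ Fs w, Real.exp (V f Aᶜ (lv a w) z) * ind (E w z)) +
      (∑ w ∈ Lev, ∑ z ∈ Fs w,
        Real.exp (V f Aᶜ (lv a w) z) * (NA a f Lev Fs A S (lv a w) z : ℝ) ^ (n * S + 2)) /
        x ^ (n * S + 1) := by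
    rw [Finset.mul_sum, Finset.sum_div, ← Finset.sum_add_distrib]
    refine Finset.sum_le_sum fun w hw => ?_
    rw [Finset.mul_sum, Finset.sum_div, ← Finset.sum_add_distrib]
    exact Finset.sum_le_sum fun z hz => h1 w hw z hz
  have h3 : ∑ w ∈ Lev, ∑ z ∈ Fs w,
      Real.exp (V f Aᶜ (lv a w) z) * (NA a f Lev Fs A S (lv a w) z : ℝ) ^ (n * S + 2) ≤
      Real.exp ((n : ℝ) * S) * (Bp n (n * S + 3) ^ (n * S + 3) * TT Lev Fs) := by
    calc _ ≤ ∑ w ∈ Lev, Real.exp ((n : ℝ) * S) * ∑ z ∈ Fs w, (NN Lev Fs z : ℝ) ^ (n * S + 2) :=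
          Finset.sum_le_sum fun w hw => tup hf hF.dep A (by positivity) (n * S + 2) hw
      _ = Real.exp ((n : ℝ) * S) * ∑ z, (NN Lev Fs z : ℝ) ^ (n * S + 3) := by
          rw [← Finset.mul_sum, comb_sum_NN]
      _ ≤ _ := by
          apply mul_le_mul_of_nonneg_left _ (Real.exp_pos _).le
          exact hF.mom (n * S + 3) (by omega)
  have h4 : (Real.exp ((n : ℝ) * S) * (Bp n (n * S + 3) ^ (n * S + 3) * TT Lev Fs)) /
      x ^ (n * S + 1) ≤ Real.exp (-((n : ℝ) * S) - 1) * TT Lev Fs := by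
    rw [div_le_iff₀ (pow_pos hx0 _)]
    have := comb_num n S
    calc Real.exp ((n : ℝ) * S) * (Bp n (n * S + 3) ^ (n * S + 3) * TT Lev Fs)
        = (Real.exp ((n : ℝ) * S) * Bp n (n * S + 3) ^ (n * S + 3)) * TT Lev Fs := by ring
      _ ≤ (Real.exp (-((n : ℝ) * S) - 1) * lam n S ^ (n * S + 1)) * TT Lev Fs :=
          mul_le_mul_of_nonneg_right this hTT
      _ = _ := by rw [hx]; ring
  have h5 := div_le_div_of_nonneg_right h3 (pow_pos hx0 (n * S + 1)).le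
  have h6 := mul_le_mul_of_nonneg_left hE hx0.le
  calc _ ≤ _ := h2
    _ ≤ x * (e * TT Lev Fs) + Real.exp (-((n : ℝ) * S) - 1) * TT Lev Fs := by linarith
    _ = _ := by ring

end Zyg
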