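import Pool.Agent.Work.MP_93d592_an.A.Base

/-!
# Delta : the deterministic lemma (A8)

PROOF. `σ c = lv a Δ c` (linear in `Δ`). The relation `R c c' := σ c ≤ σ c'` takes finitely many values
(`C → C → Prop` is finite); for each value which occurs choose a representative `Δ_R`, and take the
maximum of the constants. So fix `Δ' = Δ_R` with the same order type as `Δ`, `σ' = lv a Δ'`.
`∑ c, σ' c δ c = ∑ i, Δ' i ∑ c, a c i δ c` is bounded by `C' = (∑ i |Δ' i|) Cx`. With `μ = min σ'`,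
`M = max σ'`: `σ' c = μ + ∑_{μ < t ≤ M} [t ≤ σ' c]`, so
`∑_{μ < t ≤ M} S_t = ∑ σ' δ - μ ∑ δ`, `S_t = ∑_{σ' c ≥ t} δ c ≥ -u` (upper set), all other terms are
`≥ -u`, hence `|S_t| ≤ C' + |μ| K₁ + (M-μ) u`; also `S_t = ∑ δ` for `t ≤ μ` and `0` for `t > M`. Let
`t = σ' c₀`: `{σ' ≥ t+1} ∪ {c₀}` and `{σ' ≥ t} \ {c₀}` are upper sets (order type!), so
`δ c₀ ≥ -u - S_{t+1}` and `δ c₀ ≤ S_t + u`.
-/

open Finset
open scoped Classical

noncomputable section

namespace Zyg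

variable {C : Type} [Fintype C] [LinearOrder C] {m : ℕ}

/-- the bound for a fixed direction -/
theorem delta_fix (a : C → Fin m → ℕ) (Cx K₁ : ℝ) (hCx : 0 ≤ Cx) (hK : 0 ≤ K₁)
    (Δ : Fin m → ℤ) :
    ∃ Cd : ℝ, 0 < Cd ∧ ∀ (δ : C → ℝ) (u : ℝ), 0 ≤ u →
      (∀ i, |∑ c, (a c i : ℝ) * δ c| ≤ Cx) → |∑ c, δ c| ≤ K₁ →
      (∀ A : Finset C, (∀ c ∈ A, ∀ c' ∉ A, lv a Δ c' ≤ lv a Δ c) → -u ≤ ∑ c ∈ A, δ c) →
      ∀ c, |δ c| ≤ Cd * (1 + u) := by
  set σ : C → ℤ := lv a Δ with hσ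
  obtain ⟨B, hB⟩ : ∃ B : ℕ, ∀ c, |σ c| ≤ (B : ℤ) := by
    refine ⟨∑ c, (σ c).natAbs, fun c => ?_⟩
    rw [Int.abs_eq_natAbs]
    exact_mod_cast Finset.single_le_sum (f := fun c => (σ c).natAbs) (fun _ _ => Nat.zero_le _)
      (Finset.mem_univ c)
  set C' : ℝ := ∑ i, |(Δ i : ℝ)| * Cx with hC'
  have hC'0 : 0 ≤ C' := Finset.sum_nonneg (fun i _ => mul_nonneg (abs_nonneg _) hCx)
  have hB0 : (0 : ℝ) ≤ (B : ℝ) := Nat.cast_nonneg _
  refine ⟨C' + (B + 1) * K₁ + (2 * B + 3), by positivity, ?_⟩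
  intro δ u hu hx hsum hup
  -- the tail sums
  set S : ℤ → ℝ := fun t => ∑ c ∈ Finset.univ.filter (fun c => t ≤ σ c), δ c with hS
  have hSlow : ∀ t, -u ≤ S t := by
    intro t
    refine hup _ (fun c hc c' hc' => ?_)
    simp only [Finset.mem_filter, Finset.mem_univ, true_and] at hc hc'
    omega
  set T : Finset ℤ := Finset.Icc (-(B : ℤ)) (B + 1) with hT
  have hcardT : (T.card : ℝ) = 2 * B + 2 := by
    rw [hT, Int.card_Icc]
    have : ((B : ℤ) + 1 + 1 - -(B : ℤ)).toNat = 2 * B + 2 := by omega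
    rw [this]
    push_cast
    ring
  have hσδ : ∑ c, (σ c : ℝ) * δ c = ∑ i, (Δ i : ℝ) * ∑ c, (a c i : ℝ) * δ c := by
    have : ∀ c, (σ c : ℝ) * δ c = ∑ i, (Δ i : ℝ) * ((a c i : ℝ) * δ c) := by
      intro c
      rw [hσ]
      unfold lv
      push_cast
      rw [Finset.sum_mul]
      exact Finset.sum_congr rfl (fun i _ => by ring)
    rw [Finset.sum_congr rfl (fun c _ => this c), Finset.sum_comm]
    exact Finset.sum_congr rfl (fun i _ => by rw [Finset.mul_sum])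
  have hσδ' : ∑ c, (σ c : ℝ) * δ c ≤ C' := by
    rw [hσδ]
    refine Finset.sum_le_sum (fun i _ => ?_)
    calc (Δ i : ℝ) * ∑ c, (a c i : ℝ) * δ c ≤ |(Δ i : ℝ) * ∑ c, (a c i : ℝ) * δ c| := le_abs_self _
      _ = |(Δ i : ℝ)| * |∑ c, (a c i : ℝ) * δ c| := abs_mul _ _
      _ ≤ |(Δ i : ℝ)| * Cx := mul_le_mul_of_nonneg_left (hx i) (abs_nonneg _)
  have hST : ∑ t ∈ T, S t = ∑ c, (σ c : ℝ) * δ c + (B + 1) * ∑ c, δ c := by
    have h1 : ∀ t ∈ T, S t = ∑ c, if t ≤ σ c then δ c else 0 := by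
      intro t _
      rw [hS]
      simp only [Finset.sum_filter]
    rw [Finset.sum_congr rfl h1, Finset.sum_comm, Finset.mul_sum, ← Finset.sum_add_distrib]
    refine Finset.sum_congr rfl (fun c _ => ?_)
    rw [← Finset.sum_filter, Finset.sum_const, nsmul_eq_mul]
    have h2 : T.filter (fun t => t ≤ σ c) = Finset.Icc (-(B : ℤ)) (σ c) := by
      ext t
      have := abs_le.mp (hB c)
      simp only [hT, Finset.mem_filter, Finset.mem_Icc]
      omega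
    rw [h2, Int.card_Icc]
    have h3 : (((σ c + 1 - -(B : ℤ)).toNat : ℕ) : ℝ) = (σ c : ℝ) + (B + 1) := by
      have := abs_le.mp (hB c)
      have h4 : (((σ c + 1 - -(B : ℤ)).toNat : ℕ) : ℤ) = σ c + (B + 1) := by omega
      exact_mod_cast congrArg (fun z : ℤ => (z : ℝ)) h4
    rw [h3]
    ring
  have hSup : ∀ t ∈ T, S t ≤ C' + (B + 1) * K₁ + (2 * B + 2) * u := by
    intro t ht
    have h1 : ∑ s ∈ T, (S s + u) = ∑ s ∈ T, S s + (2 * B + 2) * u := by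
      rw [Finset.sum_add_distrib, Finset.sum_const, nsmul_eq_mul, hcardT]
    have h2 : S t + u ≤ ∑ s ∈ T, (S s + u) :=
      Finset.single_le_sum (f := fun s => S s + u) (fun s _ => by linarith [hSlow s]) ht
    have h3 : (B + 1 : ℝ) * ∑ c, δ c ≤ (B + 1) * K₁ :=
      mul_le_mul_of_nonneg_left ((le_abs_self _).trans hsum) (by positivity)
    rw [h1, hST] at h2
    linarith
  intro c₀
  have hc := abs_le.mp (hB c₀)
  have hlow : -u ≤ δ c₀ + S (σ c₀ + 1) := by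
    have hnot : c₀ ∉ Finset.univ.filter (fun c => σ c₀ + 1 ≤ σ c) := by simp
    rw [hS]
    simp only
    rw [← Finset.sum_insert hnot]
    refine hup _ (fun c hc c' hc' => ?_)
    simp only [Finset.mem_insert, Finset.mem_filter, Finset.mem_univ, true_and, not_or] at hc hc'
    rcases hc with rfl | hc
    · omega
    · omega
  have hupp : -u ≤ S (σ c₀) - δ c₀ := by
    have hmem : c₀ ∈ Finset.univ.filter (fun c => σ c₀ ≤ σ c) := by simp
    rw [hS]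
    simp only
    rw [← Finset.sum_erase_eq_sub hmem]
    refine hup _ (fun c hc c' hc' => ?_)
    simp only [Finset.mem_erase, Finset.mem_filter, Finset.mem_univ, true_and] at hc hc'
    by_cases h : c' = c₀
    · subst h; exact hc.2
    · have : ¬ σ c₀ ≤ σ c' := fun h' => hc' ⟨h, h'⟩
      omega
  have h1 := hSup (σ c₀ + 1) (by simp only [hT, Finset.mem_Icc]; omega)
  have h2 := hSup (σ c₀) (by simp only [hT, Finset.mem_Icc]; omega)
  rw [abs_le]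
  have h3 : C' + (B + 1) * K₁ + (2 * B + 2) * u + u
      ≤ (C' + (B + 1) * K₁ + (2 * B + 3)) * (1 + u) := by
    have : 0 ≤ (C' + (B + 1) * K₁) * u := by positivity
    nlinarith
  constructor <;> linarith

theorem delta (a : C → Fin m → ℕ) (Cx K₁ : ℝ) (hCx : 0 ≤ Cx) (hK : 0 ≤ K₁) :
    ∃ Cd : ℝ, 0 < Cd ∧ ∀ (Δ : Fin m → ℤ) (δ : C → ℝ) (u : ℝ), 0 ≤ u →
      (∀ i, |∑ c, (a c i : ℝ) * δ c| ≤ Cx) → |∑ c, δ c| ≤ K₁ →
      (∀ A : Finset C, (∀ c ∈ A, ∀ c' ∉ A, lv a Δ c' ≤ lv a Δ c) → -u ≤ ∑ c ∈ A, δ c) →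
      ∀ c, |δ c| ≤ Cd * (1 + u) := by
  choose Cf hpos hCf using fun Δ : Fin m → ℤ => delta_fix a Cx K₁ hCx hK Δ
  let rel : (Fin m → ℤ) → (C → C → Prop) := fun Δ c c' => lv a Δ c' ≤ lv a Δ c
  let rep : (C → C → Prop) → (Fin m → ℤ) := fun R =>
    if h : ∃ Δ, rel Δ = R then h.choose else 0
  have hrep : ∀ Δ, rel (rep (rel Δ)) = rel Δ := by
    intro Δ
    have h : ∃ Δ', rel Δ' = rel Δ := ⟨Δ, rfl⟩
    have : rep (rel Δ) = h.choose := dif_pos h
    rw [this]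
    exact h.choose_spec
  refine ⟨∑ R : C → C → Prop, Cf (rep R), Finset.sum_pos (fun R _ => hpos _) ⟨fun _ _ => True,
    Finset.mem_univ _⟩, ?_⟩
  intro Δ δ u hu hx hs hup c
  have h1 : |δ c| ≤ Cf (rep (rel Δ)) * (1 + u) := by
    refine hCf _ δ u hu hx hs (fun A hA => hup A (fun c hc c' hc' => ?_)) c
    have h2 : rel (rep (rel Δ)) c c' := hA c hc c' hc'
    rw [hrep] at h2
    exact h2
  refine h1.trans (mul_le_mul_of_nonneg_right ?_ (by linarith))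
  exact Finset.single_le_sum (f := fun R => Cf (rep R)) (fun R _ => (hpos _).le)
    (Finset.mem_univ (rel Δ))

end Zyg
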