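import Pool.Agent.Work.MP_93d592_an.A.QFacts

/-!
# Doob : maximal inequality in one coordinate

`Ec c k` = all digits except the digits `(c,k')`, `k' ≥ k`. `av (Ec c k) g`, `k = 0,…,L` is the
martingale of `g` in the coordinate `c`.

PROOF of `doob`. `E k z = av (Ec c k) g z ≥ 0`, `E k = g` for `k ≥ L` (`Ec = univ`, `cyl univ z = {z}`),
`Mk k z = max_{j ≤ k} E j z`, `M = Mk L`, `q = p/(p-1)`, `q - 1 = 1/(p-1)`.
Young: for `0 ≤ y ≤ x`: `x^q - y^q ≤ p x (x^(q-1) - y^(q-1))`, i.e.
`p x y^(q-1) ≤ (p-1) x^q + y^q` (`Real.young_inequality` or `Real.inner_le_nnorm_mul_nnorm` with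
exponents `q, p` : `x y^(q-1) ≤ x^q/q + y^q/p`, since `(q-1) p = q`, `p/q = p-1`).
If `Mk (k+1) z ≠ Mk k z` then `Mk (k+1) z = E (k+1) z`, so
`Mk(k+1)^q - Mk k^q ≤ p E(k+1) (Mk(k+1)^(q-1) - Mk k^(q-1))` pointwise; the last factor depends on the
digits `Ec c (k+1)` only, so summing over `z` we may replace `E (k+1)` by `g`
(`∑ av D g * h = ∑ g * h` for `Dep D h`). Sum over `k` (and `∑ (Mk 0)^q = ∑ g (Mk 0)^(q-1)`):
`∑ M^q ≤ p ∑ g M^(q-1)`. Hölder (`Real.inner_le_Lp_mul_Lq`):
`≤ p (∑ g^q)^(1/q) (∑ M^q)^(1/p)`, so `∑ M^q ≤ p^q ∑ g^q`, `p^q = p p^(1/(p-1)) ≤ 4 p`.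
(Or Young again instead of Hölder, with any constant `≤ 4p`.)
-/

open Finset
open scoped Classical

noncomputable section

namespace Zyg

section general
variable {I : Type} [Fintype I]

theorem Doob_mem_cyl {D : Finset I} {z z' : I → Bool} : z' ∈ cyl D z ↔ ∀ i ∈ D, z' i = z i := by
  unfold cyl
  simp

/-- `|cyl D z| = 2^(number of the digits outside of D)` -/
theorem cyl_card (D : Finset I) (z : I → Bool) : (cyl D z).card = 2 ^ (Dᶜ).card := by
  have h1 : cyl D z = Fintype.piFinset (fun i => if i ∈ D then {z i} else Finset.univ) := by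
    ext z'
    rw [Doob_mem_cyl, Fintype.mem_piFinset]
    refine forall_congr' fun i => ?_
    by_cases hi : i ∈ D
    · simp [hi]
    · simp [hi]
  rw [h1, Fintype.card_piFinset]
  have h2 : ∀ i, (if i ∈ D then ({z i} : Finset Bool) else Finset.univ).card =
      if i ∈ Dᶜ then 2 else 1 := by
    intro i
    by_cases hi : i ∈ D
    · simp [hi]
    · simp [hi]
  rw [Finset.prod_congr rfl fun i _ => h2 i, Finset.prod_ite_mem, Finset.univ_inter,
    Finset.prod_const]

theorem Doob_cyl_ne (D : Finset I) (z : I → Bool) : ((cyl D z).card : ℝ) ≠ 0 := by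
  rw [cyl_card]
  positivity

theorem sum_av_mul (D : Finset I) (g h : (I → Bool) → ℝ) (hh : Dep D h) :
    ∑ z, av D g z * h z = ∑ z, g z * h z := by
  have hN : (((2 : ℕ) ^ (Dᶜ).card : ℕ) : ℝ) ≠ 0 := by positivity
  have h1 : ∀ z, av D g z * h z =
      (((2 : ℕ) ^ (Dᶜ).card : ℕ) : ℝ)⁻¹ * ∑ z' ∈ cyl D z, g z' * h z' := by
    intro z
    unfold av
    rw [cyl_card]
    have h2 : ∑ z' ∈ cyl D z, g z' * h z' = (∑ z' ∈ cyl D z, g z') * h z := by
      rw [Finset.sum_mul]
      refine Finset.sum_congr rfl fun z' hz' => ?_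
      rw [Doob_mem_cyl] at hz'
      rw [hh z' z hz']
    rw [h2]
    field_simp
  rw [Finset.sum_congr rfl fun z _ => h1 z, ← Finset.mul_sum]
  have h3 : ∑ z : I → Bool, ∑ z' ∈ cyl D z, g z' * h z' =
      ∑ z' : I → Bool, ∑ z ∈ cyl D z', g z' * h z' := by
    refine Finset.sum_comm' fun z z' => ?_
    simp only [Finset.mem_univ, true_and, and_true]
    rw [Doob_mem_cyl, Doob_mem_cyl]
    exact forall₂_congr fun i _ => eq_comm
  rw [h3, Finset.mul_sum]
  refine Finset.sum_congr rfl fun z' _ => ?_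
  rw [Finset.sum_const, cyl_card, nsmul_eq_mul]
  field_simp

theorem av_univ (g : (I → Bool) → ℝ) (z : I → Bool) : av Finset.univ g z = g z := by
  have h1 : cyl Finset.univ z = {z} := by
    ext z'
    rw [Doob_mem_cyl, Finset.mem_singleton]
    constructor
    · intro h
      funext i
      exact h i (Finset.mem_univ i)
    · rintro rfl i _
      rfl
  unfold av
  rw [h1]
  simp

theorem av_mono {D : Finset I} {g h : (I → Bool) → ℝ} (hgh : ∀ z, g z ≤ h z) (z : I → Bool) :
    av D g z ≤ av D h z := by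
  unfold av
  exact div_le_div_of_nonneg_right (Finset.sum_le_sum fun z' _ => hgh z') (Nat.cast_nonneg _)

theorem Doob_av_nonneg {D : Finset I} {g : (I → Bool) → ℝ} (hg : ∀ z, 0 ≤ g z) (z : I → Bool) :
    0 ≤ av D g z := by
  unfold av
  exact div_nonneg (Finset.sum_nonneg fun z' _ => hg z') (Nat.cast_nonneg _)

theorem Doob_av_dep (D : Finset I) (g : (I → Bool) → ℝ) : Dep D (av D g) := by
  intro z z' h
  have h1 : cyl D z = cyl D z' := by
    ext w
    rw [Doob_mem_cyl, Doob_mem_cyl]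
    refine forall₂_congr fun i hi => ?_
    rw [h i hi]
  unfold av
  rw [h1]

theorem av_av {E F : Finset I} (h : E ∪ F = Finset.univ) (g : (I → Bool) → ℝ) (z : I → Bool) :
    av E (av F g) z = av (E ∩ F) g z := by
  have h1 : (((E ∩ F)ᶜ).card) = (Eᶜ).card + (Fᶜ).card := by
    rw [Finset.compl_inter, Finset.card_union_of_disjoint]
    rw [Finset.disjoint_left]
    intro i hi hi'
    rw [Finset.mem_compl] at hi hi'
    have := Finset.mem_univ i
    rw [← h, Finset.mem_union] at this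
    tauto
  have h2 : ∑ z' ∈ cyl E z, ∑ z'' ∈ cyl F z', g z'' = ∑ z'' ∈ cyl (E ∩ F) z, g z'' := by
    have h3 : ∑ z' ∈ cyl E z, ∑ z'' ∈ cyl F z', g z'' =
        ∑ z'' ∈ cyl (E ∩ F) z, ∑ z' ∈ {fun i => if i ∈ E then z i else z'' i}, g z'' := by
      refine Finset.sum_comm' fun z' z'' => ?_
      rw [Doob_mem_cyl, Doob_mem_cyl, Doob_mem_cyl, Finset.mem_singleton]
      constructor
      · rintro ⟨a, b⟩
        refine ⟨?_, ?_⟩
        · funext i
          by_cases hi : i ∈ E
          · rw [if_pos hi, a i hi]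
          · rw [if_neg hi]
            have hiF : i ∈ F := by
              have := Finset.mem_univ i
              rw [← h, Finset.mem_union] at this
              tauto
            exact (b i hiF).symm
        · intro i hi
          rw [Finset.mem_inter] at hi
          rw [b i hi.2, a i hi.1]
      · rintro ⟨rfl, b⟩
        refine ⟨?_, ?_⟩
        · intro i hi
          simp only [if_pos hi]
        · intro i hi
          by_cases hE : i ∈ E
          · simp only [if_pos hE]
            exact b i (Finset.mem_inter.2 ⟨hE, hi⟩)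
          · simp only [if_neg hE]
    rw [h3]
    refine Finset.sum_congr rfl fun z'' _ => ?_
    rw [Finset.sum_singleton]
  unfold av
  rw [← h2, cyl_card, cyl_card, h1, pow_add]
  have h4 : ∀ z' ∈ cyl E z, (∑ z'' ∈ cyl F z', g z'') / ((cyl F z').card : ℝ) =
      (∑ z'' ∈ cyl F z', g z'') / (((2 : ℕ) ^ (Fᶜ).card : ℕ) : ℝ) := by
    intro z' _
    rw [cyl_card]
  rw [Finset.sum_congr rfl h4, ← Finset.sum_div, div_div]
  push_cast
  rw [mul_comm]

end general

variable {C : Type} [Fintype C] [LinearOrder C] {L : ℕ}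

/-- all digits except those of the coordinate `c` from time `k` on -/
def Ec (c : C) (k : ℤ) : Finset (C × Fin L) :=
  Finset.univ.filter fun i => i.1 = c → (i.2.1 : ℤ) < k

/-- `sum_av_mul` with the usual instance on `Zs C L` -/
theorem Doob_sum_av_mul (D : Finset (C × Fin L)) (g h : Zs C L → ℝ) (hh : Dep D h) :
    ∑ z : Zs C L, av D g z * h z = ∑ z : Zs C L, g z * h z := by
  exact (sum_inst _ _ _).trans ((sum_av_mul D g h hh).trans (sum_inst _ _ _))

/-- Young -/
theorem Doob_young {P r q t x y : ℝ} (hP : 2 ≤ P) (hr : r = 1 / (P - 1)) (hq : q = P / (P - 1))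
    (ht : 0 < t) (hx : 0 ≤ x) (hy : 0 ≤ y) :
    P * (x * y ^ r) ≤ (P - 1) * (t ^ q * x ^ q) + y ^ q / t ^ P := by
  have hP1 : 0 < P - 1 := by linarith
  have hP0 : 0 < P := by linarith
  have hq0 : 0 < q := by rw [hq]; positivity
  have hr0 : 0 < r := by rw [hr]; positivity
  have hrP : r * P = q := by rw [hr, hq]; ring
  have hconj : q.HolderConjugate P := by
    rw [Real.holderConjugate_iff]
    refine ⟨?_, ?_⟩
    · rw [hq, lt_div_iff₀ hP1]; linarith
    · rw [hq]; field_simp; ring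
  have h1 := Real.young_inequality_of_nonneg (a := t * x) (b := y ^ r / t)
    (by positivity) (by positivity) hconj
  have h2 : t * x * (y ^ r / t) = x * y ^ r := by field_simp
  rw [h2, Real.mul_rpow ht.le hx, Real.div_rpow (by positivity) ht.le, ← Real.rpow_mul hy, hrP] at h1
  have h3 : P * (t ^ q * x ^ q / q) = (P - 1) * (t ^ q * x ^ q) := by
    rw [hq]; field_simp
  have h4 : P * (y ^ q / t ^ P / P) = y ^ q / t ^ P := by field_simp
  calc P * (x * y ^ r) ≤ P * (t ^ q * x ^ q / q + y ^ q / t ^ P / P) :=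
        mul_le_mul_of_nonneg_left h1 hP0.le
    _ = (P - 1) * (t ^ q * x ^ q) + y ^ q / t ^ P := by rw [mul_add, h3, h4]

/-- the running maximum -/
def DoobM (c : C) (g : Zs C L → ℝ) : ℕ → Zs C L → ℝ
  | 0, z => av (Ec c 0) g z
  | (k + 1), z => max (DoobM c g k z) (av (Ec c ((k + 1 : ℕ) : ℤ)) g z)

theorem Ec_mono (c : C) {k k' : ℤ} (h : k ≤ k') : (Ec (L := L) c k) ⊆ Ec c k' := by
  intro i hi
  unfold Ec at hi ⊢
  rw [Finset.mem_filter] at hi ⊢
  exact ⟨hi.1, fun h1 => (hi.2 h1).trans_le h⟩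

theorem DoobM_dep (c : C) (g : Zs C L → ℝ) (k : ℕ) : Dep (Ec c (k : ℤ)) (DoobM c g k) := by
  induction k with
  | zero => exact Doob_av_dep _ _
  | succ k ih =>
    intro z z' h
    unfold DoobM
    rw [Doob_av_dep _ _ z z' h, ih z z' fun i hi => h i (Ec_mono c (by push_cast; omega) hi)]

theorem DoobM_nonneg (c : C) (g : Zs C L → ℝ) (hg : ∀ z, 0 ≤ g z) (k : ℕ) (z : Zs C L) :
    0 ≤ DoobM c g k z := by
  induction k with
  | zero => exact Doob_av_nonneg hg z
  | succ k ih => exact le_max_of_le_left ih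

theorem av_le_DoobM (c : C) (g : Zs C L → ℝ) (k j : ℕ) (h : j ≤ k) (z : Zs C L) :
    av (Ec c (j : ℤ)) g z ≤ DoobM c g k z := by
  induction k with
  | zero =>
    have : j = 0 := by omega
    subst this
    exact le_rfl
  | succ k ih =>
    rcases Nat.lt_or_ge k j with h1 | h1
    · have : j = k + 1 := by omega
      subst this
      exact le_max_right _ _
    · exact (ih h1).trans (le_max_left _ _)

theorem DoobM_sum (c : C) (g : Zs C L → ℝ) (hg : ∀ z, 0 ≤ g z) {P r q : ℝ} (hP : 2 ≤ P)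
    (hr : r = 1 / (P - 1)) (hq : q = P / (P - 1)) (k : ℕ) :
    ∑ z, DoobM c g k z ^ q ≤ P * ∑ z, g z * DoobM c g k z ^ r := by
  have hP1 : 0 < P - 1 := by linarith
  have hP0 : 0 < P := by linarith
  have hq0 : 0 < q := by rw [hq]; positivity
  have hr0 : 0 < r := by rw [hr]; positivity
  have hqr : q = 1 + r := by rw [hr, hq]; field_simp; ring
  have hpow : ∀ x : ℝ, 0 ≤ x → x ^ q = x * x ^ r := by
    intro x hx
    rw [hqr, Real.rpow_add_of_nonneg hx zero_le_one hr0.le, Real.rpow_one]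
  induction k with
  | zero =>
    have h1 : ∑ z, DoobM c g 0 z ^ q = ∑ z, g z * DoobM c g 0 z ^ r := by
      rw [← Doob_sum_av_mul (Ec c 0) g (fun z => DoobM c g 0 z ^ r)]
      · refine Finset.sum_congr rfl fun z _ => ?_
        rw [hpow _ (DoobM_nonneg c g hg 0 z)]
        rfl
      · intro z z' h
        simp only
        rw [DoobM_dep c g 0 z z' (by simpa using h)]
    rw [h1]
    have h2 : 0 ≤ ∑ z, g z * DoobM c g 0 z ^ r :=
      Finset.sum_nonneg fun z _ => mul_nonneg (hg z) (Real.rpow_nonneg (DoobM_nonneg c g hg 0 z) _)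
    nlinarith
  | succ k ih =>
    set E : Zs C L → ℝ := av (Ec c ((k + 1 : ℕ) : ℤ)) g with hE
    have h1 : ∀ z, DoobM c g (k + 1) z ^ q - DoobM c g k z ^ q ≤
        P * (E z * (DoobM c g (k + 1) z ^ r - DoobM c g k z ^ r)) := by
      intro z
      have hy := DoobM_nonneg c g hg k z
      have hx : 0 ≤ E z := Doob_av_nonneg hg z
      have hmax : DoobM c g (k + 1) z = max (DoobM c g k z) (E z) := rfl
      rcases le_total (E z) (DoobM c g k z) with h | h
      · rw [hmax, max_eq_left h, sub_self, sub_self, mul_zero, mul_zero]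
      · rw [hmax, max_eq_right h]
        have h2 := Doob_young (x := E z) (y := DoobM c g k z) hP hr hq one_pos hx hy
        rw [Real.one_rpow, Real.one_rpow, one_mul, div_one] at h2
        have h3 := hpow _ hx
        nlinarith
    have h2 : ∑ z, E z * (DoobM c g (k + 1) z ^ r - DoobM c g k z ^ r) =
        ∑ z, g z * (DoobM c g (k + 1) z ^ r - DoobM c g k z ^ r) := by
      refine Doob_sum_av_mul _ g (fun z => DoobM c g (k + 1) z ^ r - DoobM c g k z ^ r) ?_
      intro z z' h
      simp only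
      rw [DoobM_dep c g (k + 1) z z' h, DoobM_dep c g k z z' fun i hi =>
        h i (Ec_mono c (by push_cast; omega) hi)]
    have h3 : ∑ z, (DoobM c g (k + 1) z ^ q - DoobM c g k z ^ q) ≤
        ∑ z, P * (E z * (DoobM c g (k + 1) z ^ r - DoobM c g k z ^ r)) :=
      Finset.sum_le_sum fun z _ => h1 z
    rw [← Finset.mul_sum, h2, Finset.sum_sub_distrib] at h3
    have h4 : ∑ z, g z * (DoobM c g (k + 1) z ^ r - DoobM c g k z ^ r) =
        ∑ z, g z * DoobM c g (k + 1) z ^ r - ∑ z, g z * DoobM c g k z ^ r := by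
      rw [← Finset.sum_sub_distrib]
      exact Finset.sum_congr rfl fun z _ => by ring
    rw [h4] at h3
    nlinarith

theorem doob (c : C) (g : Zs C L → ℝ) (hg : ∀ z, 0 ≤ g z) (p : ℕ) (hp : 2 ≤ p) :
    ∃ M : Zs C L → ℝ, (∀ z, 0 ≤ M z) ∧ (∀ k : ℤ, ∀ z, av (Ec c k) g z ≤ M z) ∧
      ∑ z, M z ^ ((p : ℝ) / (p - 1)) ≤ 4 * p * ∑ z, g z ^ ((p : ℝ) / (p - 1)) := by
  have hP : (2 : ℝ) ≤ p := by exact_mod_cast hp
  have hP1 : 0 < (p : ℝ) - 1 := by linarith
  have hP0 : (0 : ℝ) < p := by linarith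
  refine ⟨DoobM c g L, fun z => DoobM_nonneg c g hg L z, ?_, ?_⟩
  · intro k z
    rcases le_or_gt k 0 with h1 | h1
    · have h2 : (Ec (L := L) c k) = Ec c ((0 : ℕ) : ℤ) := by
        unfold Ec
        ext i
        simp only [Finset.mem_filter, Finset.mem_univ, true_and]
        refine forall_congr' fun _ => ?_
        push_cast
        omega
      rw [h2]
      exact av_le_DoobM c g L 0 (Nat.zero_le _) z
    · rcases le_or_gt k (L : ℤ) with h3 | h3
      · obtain ⟨j, rfl⟩ := Int.eq_ofNat_of_zero_le h1.le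
        exact av_le_DoobM c g L j (by exact_mod_cast h3) z
      · have h2 : (Ec (L := L) c k) = Ec c ((L : ℕ) : ℤ) := by
          unfold Ec
          ext i
          simp only [Finset.mem_filter, Finset.mem_univ, true_and]
          refine forall_congr' fun _ => ?_
          have := i.2.2
          omega
        rw [h2]
        exact av_le_DoobM c g L L le_rfl z
  · set q : ℝ := (p : ℝ) / (p - 1) with hq
    set r : ℝ := 1 / ((p : ℝ) - 1) with hr
    have h1 := DoobM_sum c g hg hP hr hq L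
    set t : ℝ := (2 : ℝ) ^ (1 / (p : ℝ)) with ht
    have ht0 : 0 < t := by positivity
    have htP : t ^ (p : ℝ) = 2 := by
      rw [ht, ← Real.rpow_mul (by norm_num)]
      rw [one_div, inv_mul_cancel₀ hP0.ne', Real.rpow_one]
    have htq : t ^ q ≤ 2 := by
      rw [ht, ← Real.rpow_mul (by norm_num)]
      have h2 : (2 : ℝ) ^ (1 / (p : ℝ) * q) ≤ (2 : ℝ) ^ (1 : ℝ) := by
        apply Real.rpow_le_rpow_of_exponent_le (by norm_num)
        rw [hq]
        rw [div_mul_div_comm, one_mul, div_le_one (by positivity)]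
        nlinarith
      rwa [Real.rpow_one] at h2
    have h2 : ∀ z, (p : ℝ) * (g z * DoobM c g L z ^ r) ≤
        ((p : ℝ) - 1) * (2 * g z ^ q) + DoobM c g L z ^ q / 2 := by
      intro z
      have h3 := Doob_young (x := g z) (y := DoobM c g L z) hP hr hq ht0 (hg z)
        (DoobM_nonneg c g hg L z)
      rw [htP] at h3
      have h4 : 0 ≤ g z ^ q := Real.rpow_nonneg (hg z) _
      have h5 : t ^ q * g z ^ q ≤ 2 * g z ^ q := mul_le_mul_of_nonneg_right htq h4
      have h6 := mul_le_mul_of_nonneg_left h5 hP1.le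
      linarith
    have h3 : (p : ℝ) * ∑ z, g z * DoobM c g L z ^ r ≤
        ((p : ℝ) - 1) * (2 * ∑ z, g z ^ q) + (∑ z, DoobM c g L z ^ q) / 2 := by
      rw [Finset.mul_sum, Finset.mul_sum, Finset.mul_sum, Finset.sum_div, ← Finset.sum_add_distrib]
      exact Finset.sum_le_sum fun z _ => h2 z
    have h4 : 0 ≤ ∑ z, g z ^ q := Finset.sum_nonneg fun z _ => Real.rpow_nonneg (hg z) _
    nlinarith

end Zyg
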