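import Pool.Agent.Work.MP_93d592_an.A.Pairs

/-!
# EndA : from the pair count to the linear bound (A10)

PROOF. `n = card C`, `G z = 1 + max (log (f z)) 0`, `j0 : ℕ` with `n K e^{-j0} ≤ 1/2`, `T = TT Lev Fs`.
1. `T ≤ ∑_w ∑_{z ∈ Fs w} f z` (`sum_av`, `low`), the right side is `∑_z f z NN z`.
2. Call `w` good at `z` if `-j0 < V f {c} (lv a w) z` for all `c`. The bad part
   `∑_w ∑_{z ∈ Fs w} f z ind (∃ c, V f {c} (lv a w) z ≤ -j0) ≤ n K e^{-j0} T ≤ T/2`: `f_eq`, `upp`,
   `vil_down` (`V = Vt` for a large time, `Vt_large`). With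
   `Ng z = #{w ∈ Lev | z ∈ Fs w, w good at z}` we get `T/2 ≤ ∑ f z Ng z`.
3. For `z ∈ Fs w`, `w` good: `∑_c V f {c} = V univ = log f - log av < log f` (`f_eq`, `V_sum`, `low`), so
   `-j0 ≤ V f {c} ≤ G + n j0`, and `|XX i| ≤ 2 n (1 + n j0) G =: C' G`.
   Cells: `κ w : Fin m → ℤ`, `κ w i = ⌊XX a f (lv a w) i.castSucc z⌋`; number of cells
   `≤ (2 C' G + 2)^m ≤ C'' G^m`. In one cell `|XX i - XX' i| ≤ 1` for `i < m`, and
   `∑_i XX i = 2 V univ = 2 log f - 2 log av` (`ha`), so the last coordinate differs by at most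
   `m + 2 log K`. With `Cx = m + 1 + 2 log K` and
   `P z = ∑_{w w'} [z ∈ Fs w ∩ Fs w'] ind (∀ i, |XX i - XX' i| ≤ Cx)`:
   `Ng² ≤ C'' G^m P` (Cauchy–Schwarz over the cells: `sq_sum_le_card_mul_sum_sq`,
   `Finset.card_eq_sum_card_fiberwise`).
4. Cauchy–Schwarz: `(T/2)² ≤ (∑ f Ng)² ≤ (∑ f C'' G^m) (∑ f P) ≤ C'' Cp T ∑ f G^m` (`pairs`);
   divide by `T` (if `T = 0` nothing to do).
-/

open Finset
open scoped Classical

noncomputable section

namespace Zyg

variable {C : Type} [Fintype C] [LinearOrder C] {L m : ℕ} {f : Zs C L → ℝ} {K : ℝ}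
  {a : C → Fin (m + 1) → ℕ} {Lev : Finset (Fin (m + 1) → ℤ)}
  {Fs : (Fin (m + 1) → ℤ) → Finset (Zs C L)}

/-- number of the good boxes at `z` -/
def Ng (a : C → Fin (m + 1) → ℕ) (f : Zs C L → ℝ) (Lev : Finset (Fin (m + 1) → ℤ))
    (Fs : (Fin (m + 1) → ℤ) → Finset (Zs C L)) (j0 : ℝ) (z : Zs C L) : ℕ :=
  (Lev.filter fun w => z ∈ Fs w ∧ ∀ c, -j0 < V f {c} (lv a w) z).card

theorem EndA_bad (hf : ∀ z, 0 < f z) (hK : 1 ≤ K) (hF : Fam a f K Lev Fs) (j0 : ℝ)
    {w : Fin (m + 1) → ℤ} (hw : w ∈ Lev) (c : C) :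
    ∑ z ∈ Fs w, f z * ind (V f {c} (lv a w) z ≤ -j0) ≤
      K * Real.exp (-j0) * (Fs w).card := by
  set l := lv a w with hl
  set t : ℤ := ∑ c : C, |(L : ℤ) - l c| with ht
  have ht0 : 0 ≤ t := Finset.sum_nonneg fun c _ => abs_nonneg _
  have htL : ∀ c, (L : ℤ) - l c ≤ t := fun c => (le_abs_self _).trans
    (Finset.single_le_sum (f := fun c => |(L : ℤ) - l c|) (fun c _ => abs_nonneg _)
      (Finset.mem_univ c))
  have h1 := vil_down hf l c (Fs w) (hF.dep w hw) j0
  have h2 : ∑ z ∈ Fs w, f z * ind (V f {c} l z ≤ -j0) ≤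
      K * ∑ z ∈ Fs w, Real.exp (V f Finset.univ l z) *
        ind (∃ t : ℤ, 0 ≤ t ∧ Vt f {c} l t z ≤ -j0) := by
    rw [Finset.mul_sum]
    refine Finset.sum_le_sum fun z hz => ?_
    have h3 := hF.upp w hw z hz
    have h4 := f_eq hf l z
    have h5 : f z ≤ K * Real.exp (V f Finset.univ l z) := by
      rw [h4]
      exact mul_le_mul_of_nonneg_right h3 (Real.exp_pos _).le
    have h6 : ind (V f {c} l z ≤ -j0) ≤ ind (∃ t : ℤ, 0 ≤ t ∧ Vt f {c} l t z ≤ -j0) := by
      unfold ind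
      by_cases h : V f {c} l z ≤ -j0
      · rw [if_pos h, if_pos ⟨t, ht0, by rw [Vt_large {c} l htL z]; exact h⟩]
      · rw [if_neg h]
        split_ifs <;> norm_num
    have h7 : 0 ≤ ind (V f {c} l z ≤ -j0) := by unfold ind; split_ifs <;> norm_num
    rw [← mul_assoc]
    exact mul_le_mul h5 h6 h7 (by positivity)
  refine h2.trans ?_
  rw [mul_assoc]
  exact mul_le_mul_of_nonneg_left h1 (by linarith)

/-- steps 1 and 2 -/
theorem good_mass (hf : ∀ z, 0 < f z) (hK : 1 ≤ K) (hF : Fam a f K Lev Fs) (j0 : ℝ)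
    (hj : Fintype.card C * K * Real.exp (-j0) ≤ 1 / 2) :
    TT Lev Fs / 2 ≤ ∑ z, f z * Ng a f Lev Fs j0 z := by
  have e1 : ∑ z, f z * Ng a f Lev Fs j0 z =
      ∑ w ∈ Lev, ∑ z ∈ Fs w, f z * ind (∀ c, -j0 < V f {c} (lv a w) z) := by
    have h1 : ∀ z, f z * (Ng a f Lev Fs j0 z : ℝ) =
        ∑ w ∈ Lev, if z ∈ Fs w then f z * ind (∀ c, -j0 < V f {c} (lv a w) z) else 0 := by
      intro z
      unfold Ng
      rw [Finset.card_filter, Nat.cast_sum, Finset.mul_sum]
      refine Finset.sum_congr rfl fun w _ => ?_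
      unfold ind
      by_cases h2 : z ∈ Fs w
      · by_cases h3 : ∀ c, -j0 < V f {c} (lv a w) z
        · simp [h2, h3]
        · simp [h2, h3]
      · simp [h2]
    simp only [h1]
    rw [Finset.sum_comm]
    refine Finset.sum_congr rfl fun w _ => ?_
    rw [← Finset.sum_filter]
    refine Finset.sum_congr ?_ fun _ _ => rfl
    ext z
    simp
  rw [e1, TT, Finset.sum_div]
  refine Finset.sum_le_sum fun w hw => ?_
  have h2 : ((Fs w).card : ℝ) ≤ ∑ z ∈ Fs w, f z := by
    rw [← sum_av (D (lv a w)) f (Fs w) (hF.dep w hw)]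
    have : ((Fs w).card : ℝ) = ∑ z ∈ Fs w, (1 : ℝ) := by simp
    rw [this]
    exact Finset.sum_le_sum fun z hz => (hF.low w hw z hz).le
  have h3 : ∑ z ∈ Fs w, f z ≤ ∑ z ∈ Fs w, f z * ind (∀ c, -j0 < V f {c} (lv a w) z) +
      ∑ c : C, ∑ z ∈ Fs w, f z * ind (V f {c} (lv a w) z ≤ -j0) := by
    rw [Finset.sum_comm, ← Finset.sum_add_distrib]
    refine Finset.sum_le_sum fun z _ => ?_
    rw [← Finset.mul_sum, ← mul_add]
    have h4 : (1 : ℝ) ≤ ind (∀ c, -j0 < V f {c} (lv a w) z) +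
        ∑ c : C, ind (V f {c} (lv a w) z ≤ -j0) := by
      have h5 : ∀ c : C, 0 ≤ ind (V f {c} (lv a w) z ≤ -j0) := by
        intro c; unfold ind; split_ifs <;> norm_num
      by_cases h : ∀ c, -j0 < V f {c} (lv a w) z
      · have h6 : ind (∀ c, -j0 < V f {c} (lv a w) z) = 1 := by unfold ind; rw [if_pos h]
        rw [h6]
        have := Finset.sum_nonneg fun c (_ : c ∈ (Finset.univ : Finset C)) => h5 c
        linarith
      · push Not at h
        obtain ⟨c, hc⟩ := h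
        have h6 : ind (V f {c} (lv a w) z ≤ -j0) = 1 := by unfold ind; rw [if_pos hc]
        have h7 := Finset.single_le_sum (f := fun c => ind (V f {c} (lv a w) z ≤ -j0))
          (fun c _ => h5 c) (Finset.mem_univ c)
        simp only [h6] at h7
        have h8 : 0 ≤ ind (∀ c, -j0 < V f {c} (lv a w) z) := by
          unfold ind; split_ifs <;> norm_num
        linarith
    nlinarith [hf z]
  have h4 : ∑ c : C, ∑ z ∈ Fs w, f z * ind (V f {c} (lv a w) z ≤ -j0) ≤
      ((Fs w).card : ℝ) / 2 := by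
    calc ∑ c : C, ∑ z ∈ Fs w, f z * ind (V f {c} (lv a w) z ≤ -j0)
        ≤ ∑ _c : C, K * Real.exp (-j0) * (Fs w).card :=
          Finset.sum_le_sum fun c _ => EndA_bad hf hK hF j0 hw c
      _ = (Fintype.card C * K * Real.exp (-j0)) * (Fs w).card := by
          rw [Finset.sum_const, Finset.card_univ, nsmul_eq_mul]; ring
      _ ≤ (1 / 2) * (Fs w).card := mul_le_mul_of_nonneg_right hj (Nat.cast_nonneg _)
      _ = _ := by ring
  linarith

theorem EndA_XX_sum (ha : ∀ c, ∑ i, a c i = 2) (hf : ∀ z, 0 < f z) (l : C → ℤ) (z : Zs C L)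
    (h1 : 0 < av (D l) f z) :
    ∑ i, XX a f l i z = 2 * (Real.log (f z) - Real.log (av (D l) f z)) := by
  have h2 : Real.log (f z) = Real.log (av (D l) f z) + V f Finset.univ l z := by
    conv_lhs => rw [f_eq hf l z]
    rw [Real.log_mul h1.ne' (Real.exp_pos _).ne', Real.log_exp]
  have h3 : ∑ i, XX a f l i z = 2 * V f Finset.univ l z := by
    unfold XX
    rw [Finset.sum_comm, V_sum, Finset.mul_sum]
    refine Finset.sum_congr rfl fun c _ => ?_
    rw [← Finset.sum_mul]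
    congr 1
    have := ha c
    exact_mod_cast this
  rw [h3, h2]
  ring

theorem EndA_V_bound (hf : ∀ z, 0 < f z) {l : C → ℤ} {z : Zs C L} {j0 : ℝ} (hj : 0 ≤ j0)
    (h1 : 1 < av (D l) f z) (hg : ∀ c, -j0 < V f {c} l z) (c : C) :
    |V f {c} l z| ≤ (1 + Fintype.card C * j0) * (1 + max (Real.log (f z)) 0) := by
  have h2 : Real.log (f z) = Real.log (av (D l) f z) + V f Finset.univ l z := by
    conv_lhs => rw [f_eq hf l z]
    rw [Real.log_mul (by linarith) (Real.exp_pos _).ne', Real.log_exp]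
  have h3 : 0 < Real.log (av (D l) f z) := Real.log_pos h1
  have h4 : V f Finset.univ l z = ∑ c, V f {c} l z := V_sum _ _ _
  have h5 : V f {c} l z + ∑ c' ∈ Finset.univ.erase c, V f {c'} l z = ∑ c, V f {c} l z :=
    Finset.add_sum_erase Finset.univ (fun c => V f {c} l z) (Finset.mem_univ c)
  have h6 : -(Fintype.card C * j0) ≤ ∑ c' ∈ Finset.univ.erase c, V f {c'} l z := by
    have h7 : ∑ _c' ∈ Finset.univ.erase c, (-j0) ≤ ∑ c' ∈ Finset.univ.erase c, V f {c'} l z :=
      Finset.sum_le_sum fun c' _ => (hg c').le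
    rw [Finset.sum_const, nsmul_eq_mul] at h7
    have h8 : ((Finset.univ.erase c).card : ℝ) ≤ Fintype.card C := by
      exact_mod_cast Finset.card_le_univ _
    nlinarith
  have h7 := le_max_left (Real.log (f z)) 0
  have h8 := le_max_right (Real.log (f z)) 0
  have h9 : (1 : ℝ) ≤ Fintype.card C := by
    have : 0 < Fintype.card C := Fintype.card_pos_iff.2 ⟨c⟩
    exact_mod_cast this
  have h10 := hg c
  have h11 : 0 ≤ Fintype.card C * j0 := by positivity
  have h12 : j0 ≤ Fintype.card C * j0 := by nlinarith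
  rw [abs_le]
  constructor
  · nlinarith [mul_nonneg h11 h8]
  · nlinarith [mul_nonneg h11 h8]

theorem EndA_XX_bound (ha : ∀ c, ∑ i, a c i = 2) (hf : ∀ z, 0 < f z) {l : C → ℤ} {z : Zs C L}
    {j0 : ℝ} (hj : 0 ≤ j0)
    (h1 : 1 < av (D l) f z) (hg : ∀ c, -j0 < V f {c} l z) (i : Fin (m + 1)) :
    |XX a f l i z| ≤
      2 * Fintype.card C * (1 + Fintype.card C * j0) * (1 + max (Real.log (f z)) 0) := by
  unfold XX
  refine (Finset.abs_sum_le_sum_abs _ _).trans ?_
  have h2 : ∀ c ∈ (Finset.univ : Finset C), |(a c i : ℝ) * V f {c} l z| ≤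
      2 * ((1 + Fintype.card C * j0) * (1 + max (Real.log (f z)) 0)) := by
    intro c _
    rw [abs_mul]
    have h3 : |(a c i : ℝ)| ≤ 2 := by
      rw [abs_of_nonneg (Nat.cast_nonneg _)]
      have h4 : a c i ≤ ∑ i, a c i :=
        Finset.single_le_sum (f := fun i => a c i) (fun _ _ => Nat.zero_le _) (Finset.mem_univ i)
      rw [ha c] at h4
      exact_mod_cast h4
    exact mul_le_mul h3 (EndA_V_bound hf hj h1 hg c) (abs_nonneg _) (by norm_num)
  refine (Finset.sum_le_sum h2).trans ?_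
  rw [Finset.sum_const, Finset.card_univ, nsmul_eq_mul]
  linarith

/-- step 3 -/
theorem good_cells (C : Type) [Fintype C] [LinearOrder C] {m : ℕ} (a : C → Fin (m + 1) → ℕ)
    (ha : ∀ c, ∑ i, a c i = 2) (K : ℝ) (hK : 1 ≤ K) (j0 : ℝ) (hj : 0 ≤ j0) :
    ∃ Cx C2 : ℝ, 0 ≤ Cx ∧ 0 < C2 ∧ ∀ (L : ℕ) (f : Zs C L → ℝ), (∀ z, 0 < f z) →
      ∀ (Lev : Finset (Fin (m + 1) → ℤ)) (Fs : (Fin (m + 1) → ℤ) → Finset (Zs C L)),
      Fam a f K Lev Fs → ∀ z,
      (Ng a f Lev Fs j0 z : ℝ) ^ 2 ≤ C2 * (1 + max (Real.log (f z)) 0) ^ m *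
        ∑ w ∈ Lev, ∑ w' ∈ Lev, ind (z ∈ Fs w ∩ Fs w') *
          ind (∀ i, |XX a f (lv a w) i z - XX a f (lv a w') i z| ≤ Cx) := by
  set C' : ℝ := 2 * Fintype.card C * (1 + Fintype.card C * j0) with hC'
  have hC'0 : 0 ≤ C' := by positivity
  have hlK : 0 ≤ Real.log K := Real.log_nonneg hK
  refine ⟨m + 1 + 2 * Real.log K, (2 * C' + 2) ^ m, by positivity, by positivity, ?_⟩
  intro L f hf Lev Fs hF z
  set G : ℝ := 1 + max (Real.log (f z)) 0 with hG
  have hG1 : 1 ≤ G := by have := le_max_right (Real.log (f z)) 0; linarith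
  set Gd := Lev.filter fun w => z ∈ Fs w ∧ ∀ c, -j0 < V f {c} (lv a w) z with hGd
  have hNg : Ng a f Lev Fs j0 z = Gd.card := rfl
  let κ : (Fin (m + 1) → ℤ) → (Fin m → ℤ) := fun w i => ⌊XX a f (lv a w) i.castSucc z⌋
  let Box : Finset (Fin m → ℤ) := Fintype.piFinset fun _ => Finset.Icc ⌊-(C' * G)⌋ ⌊C' * G⌋
  have hmem : ∀ w ∈ Gd, w ∈ Lev ∧ z ∈ Fs w ∧ ∀ c, -j0 < V f {c} (lv a w) z := by
    intro w hw
    exact Finset.mem_filter.1 hw
  have hXX : ∀ w ∈ Gd, ∀ i, |XX a f (lv a w) i z| ≤ C' * G := by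
    intro w hw i
    obtain ⟨h1, h2, h3⟩ := hmem w hw
    exact EndA_XX_bound ha hf hj (hF.low w h1 z h2) h3 i
  have hmaps : ∀ w ∈ Gd, κ w ∈ Box := by
    intro w hw
    rw [Fintype.mem_piFinset]
    intro i
    have h1 := abs_le.1 (hXX w hw i.castSucc)
    exact Finset.mem_Icc.2 ⟨Int.floor_le_floor h1.1, Int.floor_le_floor h1.2⟩
  have hBox : (Box.card : ℝ) ≤ (2 * C' + 2) ^ m * G ^ m := by
    rw [Fintype.card_piFinset]
    simp only [Finset.prod_const, Finset.card_univ, Fintype.card_fin, Nat.cast_pow]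
    rw [← mul_pow]
    refine pow_le_pow_left₀ (Nat.cast_nonneg _) ?_ m
    rw [Int.card_Icc]
    have h0 : 0 ≤ C' * G := by positivity
    have h1 : ⌊-(C' * G)⌋ ≤ ⌊C' * G⌋ := Int.floor_le_floor (by linarith)
    have h2 : ((⌊C' * G⌋ + 1 - ⌊-(C' * G)⌋).toNat : ℝ) = ((⌊C' * G⌋ + 1 - ⌊-(C' * G)⌋ : ℤ) : ℝ) := by
      have := Int.toNat_of_nonneg (by omega : 0 ≤ ⌊C' * G⌋ + 1 - ⌊-(C' * G)⌋)
      exact_mod_cast this
    rw [h2]
    push_cast
    have h3 := Int.floor_le (C' * G)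
    have h4 := Int.lt_floor_add_one (-(C' * G))
    nlinarith
  have hcard : (Gd.card : ℝ) = ∑ b ∈ Box, ((Gd.filter fun w => κ w = b).card : ℝ) := by
    have := Finset.card_eq_sum_card_fiberwise (f := κ) (s := Gd) (t := Box)
      (fun w hw => hmaps w hw)
    exact_mod_cast this
  have hcs : (Gd.card : ℝ) ^ 2 ≤ Box.card * ∑ b ∈ Box, ((Gd.filter fun w => κ w = b).card : ℝ) ^ 2 := by
    rw [hcard]
    exact sq_sum_le_card_mul_sum_sq
  have hpair : ∑ b ∈ Box, ((Gd.filter fun w => κ w = b).card : ℝ) ^ 2 ≤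
      ∑ w ∈ Lev, ∑ w' ∈ Lev, ind (z ∈ Fs w ∩ Fs w') *
        ind (∀ i, |XX a f (lv a w) i z - XX a f (lv a w') i z| ≤ m + 1 + 2 * Real.log K) := by
    have h1 : ∀ b ∈ Box, ((Gd.filter fun w => κ w = b).card : ℝ) ^ 2 =
        ∑ w ∈ Gd, ∑ w' ∈ Gd, if κ w = b ∧ κ w' = b then (1 : ℝ) else 0 := by
      intro b _
      rw [sq, Finset.card_filter, Nat.cast_sum, Finset.sum_mul_sum]
      refine Finset.sum_congr rfl fun w _ => Finset.sum_congr rfl fun w' _ => ?_
      by_cases h2 : κ w = b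
      · by_cases h3 : κ w' = b
        · simp [h2, h3]
        · simp [h2, h3]
      · simp [h2]
    rw [Finset.sum_congr rfl h1, Finset.sum_comm]
    have h2 : ∀ w ∈ Gd, ∑ b ∈ Box, ∑ w' ∈ Gd, (if κ w = b ∧ κ w' = b then (1 : ℝ) else 0) =
        ∑ w' ∈ Gd, if κ w' = κ w then (1 : ℝ) else 0 := by
      intro w hw
      rw [Finset.sum_comm]
      refine Finset.sum_congr rfl fun w' _ => ?_
      rw [Finset.sum_eq_single (κ w)]
      · by_cases h3 : κ w' = κ w
        · simp [h3]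
        · simp [h3]
      · intro b _ hb
        rw [if_neg]
        rintro ⟨h3, _⟩
        exact hb h3.symm
      · intro h3
        exact absurd (hmaps w hw) h3
    rw [Finset.sum_congr rfl h2]
    have hnn : ∀ w w', (0 : ℝ) ≤ ind (z ∈ Fs w ∩ Fs w') *
        ind (∀ i, |XX a f (lv a w) i z - XX a f (lv a w') i z| ≤ m + 1 + 2 * Real.log K) := by
      intro w w'
      unfold ind
      split_ifs <;> norm_num
    calc ∑ w ∈ Gd, ∑ w' ∈ Gd, (if κ w' = κ w then (1 : ℝ) else 0)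
        ≤ ∑ w ∈ Gd, ∑ w' ∈ Gd, ind (z ∈ Fs w ∩ Fs w') *
          ind (∀ i, |XX a f (lv a w) i z - XX a f (lv a w') i z| ≤ m + 1 + 2 * Real.log K) := by
          refine Finset.sum_le_sum fun w hw => Finset.sum_le_sum fun w' hw' => ?_
          by_cases h3 : κ w' = κ w
          · rw [if_pos h3]
            obtain ⟨a1, a2, a3⟩ := hmem w hw
            obtain ⟨b1, b2, b3⟩ := hmem w' hw'
            have h4 : ind (z ∈ Fs w ∩ Fs w') = 1 := by
              unfold ind; rw [if_pos (Finset.mem_inter.2 ⟨a2, b2⟩)]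
            have hc1 : ∀ i : Fin m, |XX a f (lv a w) i.castSucc z -
                XX a f (lv a w') i.castSucc z| ≤ 1 := by
              intro i
              have h5 : ⌊XX a f (lv a w') i.castSucc z⌋ = ⌊XX a f (lv a w) i.castSucc z⌋ :=
                congrFun h3 i
              have h6 := Int.floor_le (XX a f (lv a w') i.castSucc z)
              have h7 := Int.lt_floor_add_one (XX a f (lv a w') i.castSucc z)
              have h8 := Int.floor_le (XX a f (lv a w) i.castSucc z)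
              have h9 := Int.lt_floor_add_one (XX a f (lv a w) i.castSucc z)
              rw [h5] at h6 h7
              rw [abs_le]
              constructor <;> linarith
            have h5 : ind (∀ i, |XX a f (lv a w) i z - XX a f (lv a w') i z| ≤
                m + 1 + 2 * Real.log K) = 1 := by
              unfold ind
              rw [if_pos]
              intro i
              refine Fin.lastCases ?_ (fun i => ?_) i
              · have e1 := EndA_XX_sum ha hf (lv a w) z (by have := hF.low w a1 z a2; linarith)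
                have e2 := EndA_XX_sum ha hf (lv a w') z (by have := hF.low w' b1 z b2; linarith)
                rw [Fin.sum_univ_castSucc] at e1 e2
                have e3 : |∑ i : Fin m, (XX a f (lv a w) i.castSucc z -
                    XX a f (lv a w') i.castSucc z)| ≤ m := by
                  refine (Finset.abs_sum_le_sum_abs _ _).trans ?_
                  refine (Finset.sum_le_sum fun i _ => hc1 i).trans ?_
                  simp
                rw [Finset.sum_sub_distrib] at e3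
                have k1 : 0 ≤ Real.log (av (D (lv a w)) f z) :=
                  Real.log_nonneg (hF.low w a1 z a2).le
                have k2 : 0 ≤ Real.log (av (D (lv a w')) f z) :=
                  Real.log_nonneg (hF.low w' b1 z b2).le
                have k3 : Real.log (av (D (lv a w)) f z) ≤ Real.log K :=
                  Real.log_le_log (by have := hF.low w a1 z a2; linarith) (hF.upp w a1 z a2)
                have k4 : Real.log (av (D (lv a w')) f z) ≤ Real.log K :=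
                  Real.log_le_log (by have := hF.low w' b1 z b2; linarith) (hF.upp w' b1 z b2)
                rw [abs_le] at e3 ⊢
                constructor <;> linarith
              · refine (hc1 i).trans ?_
                have : (0 : ℝ) ≤ m := Nat.cast_nonneg _
                linarith
            rw [h4, h5]
            norm_num
          · rw [if_neg h3]
            exact hnn w w'
      _ ≤ ∑ w ∈ Lev, ∑ w' ∈ Lev, ind (z ∈ Fs w ∩ Fs w') *
          ind (∀ i, |XX a f (lv a w) i z - XX a f (lv a w') i z| ≤ m + 1 + 2 * Real.log K) := by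
          have hsub : Gd ⊆ Lev := Finset.filter_subset _ _
          refine (Finset.sum_le_sum fun w _ => Finset.sum_le_sum_of_subset_of_nonneg hsub
            fun w' _ _ => hnn w w').trans ?_
          exact Finset.sum_le_sum_of_subset_of_nonneg hsub fun w _ _ =>
            Finset.sum_nonneg fun w' _ => hnn w w'
  rw [hNg]
  have hP0 : 0 ≤ ∑ b ∈ Box, ((Gd.filter fun w => κ w = b).card : ℝ) ^ 2 :=
    Finset.sum_nonneg fun _ _ => by positivity
  calc (Gd.card : ℝ) ^ 2 ≤ Box.card * ∑ b ∈ Box, ((Gd.filter fun w => κ w = b).card : ℝ) ^ 2 := hcs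
    _ ≤ ((2 * C' + 2) ^ m * G ^ m) * ∑ b ∈ Box, ((Gd.filter fun w => κ w = b).card : ℝ) ^ 2 :=
        mul_le_mul_of_nonneg_right hBox hP0
    _ ≤ _ := mul_le_mul_of_nonneg_left hpair (by positivity)

theorem endA (a : C → Fin (m + 1) → ℕ) (ha : ∀ c, ∑ i, a c i = 2) (K : ℝ) (hK : 1 ≤ K) :
    ∃ Ce : ℝ, 0 < Ce ∧ ∀ (L : ℕ) (f : Zs C L → ℝ), (∀ z, 0 < f z) →
      ∀ (Lev : Finset (Fin (m + 1) → ℤ)) (Fs : (Fin (m + 1) → ℤ) → Finset (Zs C L)),
      Fam a f K Lev Fs →
      TT Lev Fs ≤ Ce * ∑ z, f z * (1 + max (Real.log (f z)) 0) ^ m := by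
  set n : ℝ := (Fintype.card C : ℝ) with hn
  have hn0 : 0 ≤ n := Nat.cast_nonneg _
  have hpos : 0 < 2 * n * K + 1 := by nlinarith
  set j0 : ℝ := Real.log (2 * n * K + 1) with hj0
  have hj : 0 ≤ j0 := Real.log_nonneg (by nlinarith)
  have hj2 : n * K * Real.exp (-j0) ≤ 1 / 2 := by
    rw [Real.exp_neg, hj0, Real.exp_log hpos, ← div_eq_mul_inv, div_le_iff₀ hpos]
    nlinarith
  obtain ⟨Cx, C2, hCx, hC2, hcells⟩ := good_cells C a ha K hK j0 hj
  obtain ⟨Cp, hCp, hpairs⟩ := pairs a ha K Cx hK hCx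
  refine ⟨4 * C2 * Cp, by positivity, fun L f hf Lev Fs hF => ?_⟩
  have h1 := good_mass hf hK hF j0 hj2
  have h2 := hpairs L f hf Lev Fs hF
  set T := TT Lev Fs with hT
  have hT0 : 0 ≤ T := by
    rw [hT, TT]
    exact Finset.sum_nonneg fun _ _ => Nat.cast_nonneg _
  set G : Zs C L → ℝ := fun z => 1 + max (Real.log (f z)) 0 with hG
  have hG1 : ∀ z, 1 ≤ G z := fun z => by
    have := le_max_right (Real.log (f z)) 0
    simp only [hG]; linarith
  set P : Zs C L → ℝ := fun z => ∑ w ∈ Lev, ∑ w' ∈ Lev, ind (z ∈ Fs w ∩ Fs w') *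
          ind (∀ i, |XX a f (lv a w) i z - XX a f (lv a w') i z| ≤ Cx) with hP
  have hP0 : ∀ z, 0 ≤ P z := fun z => Finset.sum_nonneg fun w _ => Finset.sum_nonneg fun w' _ => by
    unfold ind
    split_ifs <;> norm_num
  have h3 : ∑ z, f z * P z ≤ Cp * T := by
    refine le_trans (le_of_eq ?_) h2
    simp only [hP, Finset.mul_sum]
    rw [Finset.sum_comm]
    refine Finset.sum_congr rfl fun w _ => ?_
    rw [Finset.sum_comm]
    refine Finset.sum_congr rfl fun w' _ => ?_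
    rw [← Finset.sum_subset (Finset.subset_univ (Fs w ∩ Fs w'))]
    · refine Finset.sum_congr rfl fun z hz => ?_
      have : ind (z ∈ Fs w ∩ Fs w') = 1 := by unfold ind; rw [if_pos hz]
      rw [this, one_mul]
    · intro z _ hz
      have : ind (z ∈ Fs w ∩ Fs w') = 0 := by unfold ind; rw [if_neg hz]
      rw [this]
      ring
  have h4 : (∑ z, f z * (Ng a f Lev Fs j0 z : ℝ)) ^ 2 ≤
      (∑ z, f z * (C2 * G z ^ m)) * ∑ z, f z * P z := by
    have h5 : ∀ z, f z * (Ng a f Lev Fs j0 z : ℝ) ≤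
        Real.sqrt (f z * (C2 * G z ^ m)) * Real.sqrt (f z * P z) := by
      intro z
      rw [← Real.sqrt_mul (by have := hf z; have := hG1 z; positivity)]
      refine Real.le_sqrt_of_sq_le ?_
      have h6 := hcells L f hf Lev Fs hF z
      have h7 : (f z * (Ng a f Lev Fs j0 z : ℝ)) ^ 2 =
          f z ^ 2 * (Ng a f Lev Fs j0 z : ℝ) ^ 2 := by ring
      rw [h7]
      calc f z ^ 2 * (Ng a f Lev Fs j0 z : ℝ) ^ 2
          ≤ f z ^ 2 * (C2 * G z ^ m * P z) := mul_le_mul_of_nonneg_left h6 (by positivity)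
        _ = _ := by ring
    have h8 : (∑ z, f z * (Ng a f Lev Fs j0 z : ℝ)) ^ 2 ≤
        (∑ z, Real.sqrt (f z * (C2 * G z ^ m)) * Real.sqrt (f z * P z)) ^ 2 := by
      refine pow_le_pow_left₀ ?_ (Finset.sum_le_sum fun z _ => h5 z) 2
      exact Finset.sum_nonneg fun z _ => mul_nonneg (hf z).le (Nat.cast_nonneg _)
    refine h8.trans ?_
    refine (Finset.sum_mul_sq_le_sq_mul_sq _ _ _).trans (le_of_eq ?_)
    congr 1
    · refine Finset.sum_congr rfl fun z _ => ?_
      rw [Real.sq_sqrt (by have := hf z; have := hG1 z; positivity)]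
    · refine Finset.sum_congr rfl fun z _ => ?_
      rw [Real.sq_sqrt (mul_nonneg (hf z).le (hP0 z))]
  have h5 : ∑ z, f z * (C2 * G z ^ m) = C2 * ∑ z, f z * G z ^ m := by
    rw [Finset.mul_sum]
    exact Finset.sum_congr rfl fun z _ => by ring
  rw [h5] at h4
  have hS0 : 0 ≤ ∑ z, f z * G z ^ m := Finset.sum_nonneg fun z _ => by
    have := hf z; have := hG1 z; positivity
  have h6 : (T / 2) ^ 2 ≤ C2 * (∑ z, f z * G z ^ m) * (Cp * T) :=
    (pow_le_pow_left₀ (by positivity) h1 2).trans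
      (h4.trans (mul_le_mul_of_nonneg_left h3 (by positivity)))
  show T ≤ 4 * C2 * Cp * ∑ z, f z * G z ^ m
  rcases hT0.eq_or_lt with h7 | h7
  · rw [← h7]
    positivity
  · have h8 : T * T ≤ (4 * C2 * Cp * ∑ z, f z * G z ^ m) * T := by nlinarith
    exact le_of_mul_le_mul_right h8 h7

end Zyg
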