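import Pool.Agent.Work.MP_93d592_an.A.Strong

/-!
# Greedy : selection of boxes with controlled overlap

PROOF. `pre`: induction on `Lev` (`Finset.induction_on`): for the new `w` put
`Fs w = {z ∈ Bs w | 2 |cyl (D (lv a w)) z ∩ Un| ≤ |cyl (D (lv a w)) z|}` with `Un` the union of the earlier
`Fs`, and `Es w = Fs w \ Un` (`Function.update`).
`half`: `∑_{z ∈ G} h z ≤ ∑_{z ∈ G} h z * 2 |cyl D z ∩ E| / |cyl D z| = 2 ∑_{z ∈ G} av D (h 1_E) z
= 2 ∑_{z ∈ G} h z 1_E z` (`sum_av`).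
`mom_bound`: `g = NN^(p-1)`, `M` from `strong`, `q = p/(p-1)`:
`∑ NN^p = ∑_w ∑_{z ∈ Fs w} g = ∑_w ∑_{z ∈ Fs w} av (D (lv a w)) g z ≤ 2 ∑_w ∑_{z ∈ Es w} av .. g
≤ 2 ∑_{z ∈ ⋃ Es} M z ≤ 2 |⋃ Es|^(1/p) (∑ M^q)^(1/q) ≤ 2 T^(1/p) ((4p)^n ∑ NN^p)^(1/q)`
(Hölder, `(p-1) q = p`), so `∑ NN^p ≤ 2^p (4p)^(n(p-1)) T ≤ Bp n p ^ p * T`.
`greedy`: `|⋃ Bs| ≤ (1 + 4·8^n) T`: a point of `⋃ Bs` which is not in `Un = ⋃ Fs` lies in a box `R` with
`|R ∩ Un| > |R|/2`, i.e. `av (D l) 1_Un z > 1/2`, so `M z > 1/2` for `M` from `strong` with `g = 1_Un`,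
`p = 2`; `#{M > 1/2} ≤ 4 ∑ M² ≤ 4·8^n |Un|`, `|Un| ≤ T`.
-/

open Finset
open scoped Classical

noncomputable section

namespace Zyg

variable {C : Type} [Fintype C] [LinearOrder C] {L m : ℕ}

theorem greedy_cyl_congr {I : Type} [Fintype I] {D : Finset I} {z z' : I → Bool}
    (h : ∀ i ∈ D, z i = z' i) : cyl D z = cyl D z' := by
  ext y
  simp only [cyl, Finset.mem_filter, Finset.mem_univ, true_and]
  constructor
  · intro hy i hi
    rw [hy i hi, h i hi]
  · intro hy i hi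
    rw [hy i hi, h i hi]

theorem pre (a : C → Fin m → ℕ) (Lev : Finset (Fin m → ℤ)) (Bs : (Fin m → ℤ) → Finset (Zs C L))
    (hB : ∀ w ∈ Lev, Dep (D (lv a w)) fun z => z ∈ Bs w) :
    ∃ Fs Es : (Fin m → ℤ) → Finset (Zs C L),
      (∀ w ∈ Lev, Dep (D (lv a w)) fun z => z ∈ Fs w) ∧
      (∀ w ∈ Lev, Fs w ⊆ Bs w) ∧ (∀ w ∈ Lev, Es w ⊆ Fs w) ∧
      (∀ w ∈ Lev, ∀ w' ∈ Lev, w ≠ w' → Disjoint (Es w) (Es w')) ∧
      (∀ w ∈ Lev, ∀ z ∈ Fs w, (cyl (D (lv a w)) z).card ≤
        2 * (cyl (D (lv a w)) z ∩ Es w).card) ∧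
      (∀ w ∈ Lev, ∀ z ∈ Bs w, z ∉ Fs w →
        (cyl (D (lv a w)) z).card < 2 * (cyl (D (lv a w)) z ∩ Lev.biUnion Fs).card) := by
  induction Lev using Finset.induction_on with
  | empty =>
    refine ⟨fun _ => ∅, fun _ => ∅, ?_, ?_, ?_, ?_, ?_, ?_⟩ <;> intro w hw <;>
      exact absurd hw (Finset.notMem_empty w)
  | insert w0 Lev hw0 ih =>
    obtain ⟨Fs, Es, h1, h2, h3, h4, h5, h6⟩ := ih fun w hw => hB w (Finset.mem_insert_of_mem hw)
    have hB0 := hB w0 (Finset.mem_insert_self _ _)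
    set Un := Lev.biUnion Fs with hUn
    set F0 : Finset (Zs C L) := (Bs w0).filter fun z =>
      2 * (cyl (D (lv a w0)) z ∩ Un).card ≤ (cyl (D (lv a w0)) z).card with hF0
    have hne : ∀ w ∈ Lev, w ≠ w0 := fun w hw h => hw0 (h ▸ hw)
    have hF0dep : Dep (D (lv a w0)) fun z => z ∈ F0 := by
      intro z z' hz
      have e1 : (z ∈ Bs w0) = (z' ∈ Bs w0) := hB0 z z' hz
      have e2 := greedy_cyl_congr hz
      simp only [hF0, Finset.mem_filter, e1, e2]
    have hsub : Un ⊆ (insert w0 Lev).biUnion (Function.update Fs w0 F0) := by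
      intro z hz
      rw [hUn, Finset.mem_biUnion] at hz
      obtain ⟨w, hw, hzw⟩ := hz
      rw [Finset.mem_biUnion]
      refine ⟨w, Finset.mem_insert_of_mem hw, ?_⟩
      rw [Function.update_of_ne (hne w hw)]
      exact hzw
    refine ⟨Function.update Fs w0 F0, Function.update Es w0 (F0 \ Un), ?_, ?_, ?_, ?_, ?_, ?_⟩
    · intro w hw
      rcases Finset.mem_insert.mp hw with rfl | hw
      · simpa only [Function.update_self] using hF0dep
      · simpa only [Function.update_of_ne (hne w hw)] using h1 w hw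
    · intro w hw
      rcases Finset.mem_insert.mp hw with rfl | hw
      · rw [Function.update_self]
        exact Finset.filter_subset _ _
      · rw [Function.update_of_ne (hne w hw)]
        exact h2 w hw
    · intro w hw
      rcases Finset.mem_insert.mp hw with rfl | hw
      · rw [Function.update_self, Function.update_self]
        exact Finset.sdiff_subset
      · rw [Function.update_of_ne (hne w hw), Function.update_of_ne (hne w hw)]
        exact h3 w hw
    · have key : ∀ w ∈ Lev, Disjoint (Es w) (F0 \ Un) := by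
        intro w hw
        refine Finset.disjoint_left.mpr fun z hz hz' => ?_
        rw [Finset.mem_sdiff] at hz'
        exact hz'.2 (Finset.mem_biUnion.mpr ⟨w, hw, h3 w hw hz⟩)
      intro w hw w' hw' hww
      rcases Finset.mem_insert.mp hw with h | hwL
      · rcases Finset.mem_insert.mp hw' with h' | hwL'
        · exact absurd (h.trans h'.symm) hww
        · rw [h, Function.update_self, Function.update_of_ne (hne w' hwL')]
          exact (key w' hwL').symm
      · rcases Finset.mem_insert.mp hw' with h' | hwL'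
        · rw [h', Function.update_self, Function.update_of_ne (hne w hwL)]
          exact key w hwL
        · rw [Function.update_of_ne (hne w hwL), Function.update_of_ne (hne w' hwL')]
          exact h4 w hwL w' hwL' hww
    · intro w hw z hz
      rcases Finset.mem_insert.mp hw with rfl | hw
      · rw [Function.update_self] at hz ⊢
        have hcs : cyl (D (lv a w)) z ⊆ F0 := by
          intro y hy
          have e : (y ∈ F0) = (z ∈ F0) := hF0dep y z (mem_cyl.mp hy)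
          rw [e]
          exact hz
        have e1 : cyl (D (lv a w)) z ∩ (F0 \ Un) = cyl (D (lv a w)) z \ Un := by
          ext y
          simp only [Finset.mem_inter, Finset.mem_sdiff]
          constructor
          · rintro ⟨h, -, h'⟩
            exact ⟨h, h'⟩
          · rintro ⟨h, h'⟩
            exact ⟨h, hcs h, h'⟩
        rw [e1]
        have e2 := Finset.card_sdiff_add_card_inter (cyl (D (lv a w)) z) Un
        have e3 := (Finset.mem_filter.mp hz).2
        omega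
      · rw [Function.update_of_ne (hne w hw)] at hz ⊢
        exact h5 w hw z hz
    · intro w hw z hz hzF
      rcases Finset.mem_insert.mp hw with rfl | hw
      · rw [Function.update_self] at hzF
        have e3 : ¬ (2 * (cyl (D (lv a w)) z ∩ Un).card ≤ (cyl (D (lv a w)) z).card) := by
          intro h
          exact hzF (Finset.mem_filter.mpr ⟨hz, h⟩)
        have e5 : (cyl (D (lv a w)) z ∩ Un).card ≤
            (cyl (D (lv a w)) z ∩ (insert w Lev).biUnion (Function.update Fs w F0)).card :=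
          Finset.card_le_card (Finset.inter_subset_inter (Finset.Subset.refl _) hsub)
        omega
      · rw [Function.update_of_ne (hne w hw)] at hzF
        have e4 := h6 w hw z hz hzF
        have e5 : (cyl (D (lv a w)) z ∩ Un).card ≤
            (cyl (D (lv a w)) z ∩ (insert w0 Lev).biUnion (Function.update Fs w0 F0)).card :=
          Finset.card_le_card (Finset.inter_subset_inter (Finset.Subset.refl _) hsub)
        omega

theorem half {I : Type} [Fintype I] (D : Finset I) (G E : Finset (I → Bool))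
    (hG : Dep D fun z => z ∈ G) (hE : ∀ z ∈ G, (cyl D z).card ≤ 2 * (cyl D z ∩ E).card)
    (h : (I → Bool) → ℝ) (hh : Dep D h) (h0 : ∀ z, 0 ≤ h z) :
    ∑ z ∈ G, h z ≤ 2 * ∑ z ∈ G ∩ E, h z := by
  have e1 : ∑ z ∈ G ∩ E, h z = ∑ z ∈ G, (if z ∈ E then h z else 0) := by
    rw [← Finset.sum_filter, Finset.filter_mem_eq_inter]
  rw [e1, ← sum_av D (fun z => if z ∈ E then h z else 0) G hG, Finset.mul_sum]
  refine Finset.sum_le_sum fun z hz => ?_
  have e2 : ∑ y ∈ cyl D z, (if y ∈ E then h y else 0) = (cyl D z ∩ E).card * h z := by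
    rw [← Finset.sum_filter, Finset.filter_mem_eq_inter]
    rw [Finset.sum_congr rfl (g := fun _ => h z) (fun y hy => ?_)]
    · rw [Finset.sum_const, nsmul_eq_mul]
    · exact hh y z (mem_cyl.mp (Finset.mem_inter.mp hy).1)
  unfold av
  rw [e2]
  have hc : (0 : ℝ) < ((cyl D z).card : ℝ) := by exact_mod_cast cyl_card_pos D z
  have hE' : ((cyl D z).card : ℝ) ≤ 2 * (cyl D z ∩ E).card := by exact_mod_cast hE z hz
  rw [← mul_div_assoc, le_div_iff₀ hc]
  nlinarith [h0 z]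

theorem greedy_NN_sum (Lev : Finset (Fin m → ℤ)) (Fs : (Fin m → ℤ) → Finset (Zs C L))
    (g : Zs C L → ℝ) : ∑ z, (NN Lev Fs z : ℝ) * g z = ∑ w ∈ Lev, ∑ z ∈ Fs w, g z := by
  have e1 : ∀ z, (NN Lev Fs z : ℝ) * g z = ∑ w ∈ Lev, (if z ∈ Fs w then g z else 0) := by
    intro z
    rw [← Finset.sum_filter, Finset.sum_const, nsmul_eq_mul]
    rfl
  rw [Finset.sum_congr rfl fun z _ => e1 z, Finset.sum_comm]
  refine Finset.sum_congr rfl fun w _ => ?_
  rw [← Finset.sum_filter]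
  refine Finset.sum_congr ?_ fun _ _ => rfl
  ext z
  simp

theorem mom_bound (a : C → Fin m → ℕ) (Lev : Finset (Fin m → ℤ))
    (Fs Es : (Fin m → ℤ) → Finset (Zs C L))
    (hd : ∀ w ∈ Lev, Dep (D (lv a w)) fun z => z ∈ Fs w) (hs : ∀ w ∈ Lev, Es w ⊆ Fs w)
    (hdis : ∀ w ∈ Lev, ∀ w' ∈ Lev, w ≠ w' → Disjoint (Es w) (Es w'))
    (hh : ∀ w ∈ Lev, ∀ z ∈ Fs w, (cyl (D (lv a w)) z).card ≤
        2 * (cyl (D (lv a w)) z ∩ Es w).card) (p : ℕ) (hp : 2 ≤ p) :
    ∑ z, (NN Lev Fs z : ℝ) ^ p ≤ Bp (Fintype.card C) p ^ p * TT Lev Fs := by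
  set g : Zs C L → ℝ := fun z => (NN Lev Fs z : ℝ) ^ (p - 1) with hg
  have hg0 : ∀ z, 0 ≤ g z := fun z => by positivity
  obtain ⟨M, hM0, hM1, hM2⟩ := strong g hg0 p hp
  set n := Fintype.card C with hn
  have hp1 : (1 : ℝ) < p := by exact_mod_cast (show 1 < p by omega)
  have hp0 : (0 : ℝ) < (p : ℝ) - 1 := by linarith
  set S : ℝ := ∑ z, (NN Lev Fs z : ℝ) ^ p with hS
  have hS0 : 0 ≤ S := Finset.sum_nonneg fun z _ => by positivity
  set T : ℝ := TT Lev Fs with hT
  have hT0 : 0 ≤ T := Finset.sum_nonneg fun w _ => by positivity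
  have hpc : ((p - 1 : ℕ) : ℝ) = (p : ℝ) - 1 := by
    rw [Nat.cast_sub (by omega)]
    norm_num
  -- the sum of the q-th powers of g
  have hgq : ∑ z, g z ^ ((p : ℝ) / (p - 1)) = S := by
    refine Finset.sum_congr rfl fun z _ => ?_
    rw [hg]
    simp only
    rw [← Real.rpow_natCast, hpc, ← Real.rpow_mul (by positivity), mul_div_cancel₀ _ hp0.ne',
      Real.rpow_natCast]
  rw [hgq] at hM2
  -- the union of the Es
  set Uu := Lev.biUnion Es with hUu
  have hcard : (Uu.card : ℝ) ≤ T := by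
    have h1 : Uu.card ≤ ∑ w ∈ Lev, (Fs w).card :=
      Finset.card_biUnion_le.trans (Finset.sum_le_sum fun w hw => Finset.card_le_card (hs w hw))
    rw [hT]
    unfold TT
    exact_mod_cast h1
  set X : ℝ := ∑ z ∈ Uu, M z with hX
  have hX0 : 0 ≤ X := Finset.sum_nonneg fun z _ => hM0 z
  have hSX : S ≤ 2 * X := by
    have h1 : S = ∑ z, (NN Lev Fs z : ℝ) * g z := by
      refine Finset.sum_congr rfl fun z _ => ?_
      rw [hg]
      simp only
      rw [← pow_succ']
      congr 1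
      omega
    rw [h1, greedy_NN_sum, hX, hUu, Finset.sum_biUnion (fun w hw w' hw' hne => hdis w hw w' hw' hne),
      Finset.mul_sum]
    refine Finset.sum_le_sum fun w hw => ?_
    rw [← sum_av (D (lv a w)) g (Fs w) (hd w hw)]
    refine (half (D (lv a w)) (Fs w) (Es w) (hd w hw) (hh w hw) (av (D (lv a w)) g)
      (av_dep _ _) (fun z => ?_)).trans ?_
    · unfold av
      exact div_nonneg (Finset.sum_nonneg fun y _ => hg0 y) (Nat.cast_nonneg _)
    · have e : Fs w ∩ Es w = Es w := Finset.inter_eq_right.mpr (hs w hw)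
      rw [e]
      exact mul_le_mul_of_nonneg_left (Finset.sum_le_sum fun z _ => hM1 _ z) (by norm_num)
  -- Hölder
  set Y : ℝ := (4 * (p : ℝ)) ^ n * S with hY
  have hY0 : 0 ≤ Y := by positivity
  have hq1 : 1 ≤ (p : ℝ) / (p - 1) := by
    rw [le_div_iff₀ hp0]
    linarith
  have hXq : X ^ ((p : ℝ) / (p - 1)) ≤ T ^ ((p : ℝ) / (p - 1) - 1) * Y := by
    have h1 := Real.rpow_sum_le_const_mul_sum_rpow_of_nonneg (s := Uu) (f := M) hq1
      (fun z _ => hM0 z)
    refine h1.trans ?_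
    have h2 : ∑ z ∈ Uu, M z ^ ((p : ℝ) / (p - 1)) ≤ Y := by
      refine le_trans ?_ hM2
      exact Finset.sum_le_univ_sum_of_nonneg fun z => Real.rpow_nonneg (hM0 z) _
    exact mul_le_mul (Real.rpow_le_rpow (Nat.cast_nonneg _) hcard (by linarith)) h2
      (Finset.sum_nonneg fun z _ => Real.rpow_nonneg (hM0 z) _) (Real.rpow_nonneg hT0 _)
  have hXp : X ^ p ≤ T * Y ^ (p - 1) := by
    have h1 := pow_le_pow_left₀ (Real.rpow_nonneg hX0 _) hXq (p - 1)
    rw [mul_pow, ← Real.rpow_natCast (X ^ ((p : ℝ) / (p - 1))) (p - 1),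
      ← Real.rpow_natCast (T ^ ((p : ℝ) / (p - 1) - 1)) (p - 1), ← Real.rpow_mul hX0,
      ← Real.rpow_mul hT0, hpc, div_mul_cancel₀ _ hp0.ne'] at h1
    have e : ((p : ℝ) / (p - 1) - 1) * (p - 1) = 1 := by
      field_simp
      ring
    rw [e, Real.rpow_one, Real.rpow_natCast] at h1
    exact h1
  -- conclusion
  have hBp : Bp n p ^ p = 4 ^ p * ((4 * (p : ℝ)) ^ n) ^ p := by
    unfold Bp
    rw [mul_pow]
  rcases hS0.eq_or_lt with h0 | hSpos
  · rw [← h0]
    have : 0 ≤ Bp n p := by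
      unfold Bp
      positivity
    positivity
  · have h1 : S ^ p ≤ 2 ^ p * (T * Y ^ (p - 1)) := by
      calc S ^ p ≤ (2 * X) ^ p := pow_le_pow_left₀ hS0 hSX p
        _ = 2 ^ p * X ^ p := mul_pow _ _ _
        _ ≤ _ := by gcongr
    have hpp : p = (p - 1) + 1 := by omega
    have h2 : S ^ (p - 1) * S ≤ S ^ (p - 1) * (2 ^ p * T * ((4 * (p : ℝ)) ^ n) ^ (p - 1)) := by
      calc S ^ (p - 1) * S = S ^ p := by
            rw [← pow_succ]
            congr 1
            omega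
        _ ≤ 2 ^ p * (T * Y ^ (p - 1)) := h1
        _ = S ^ (p - 1) * (2 ^ p * T * ((4 * (p : ℝ)) ^ n) ^ (p - 1)) := by
            rw [hY, mul_pow]
            ring
    have h3 : S ≤ 2 ^ p * T * ((4 * (p : ℝ)) ^ n) ^ (p - 1) :=
      le_of_mul_le_mul_left h2 (by positivity)
    refine h3.trans ?_
    rw [hBp]
    have h4 : (2 : ℝ) ^ p ≤ 4 ^ p := pow_le_pow_left₀ (by norm_num) (by norm_num) p
    have h5 : (1 : ℝ) ≤ (4 * (p : ℝ)) ^ n := one_le_pow₀ (by linarith)
    have h6 : ((4 * (p : ℝ)) ^ n) ^ (p - 1) ≤ ((4 * (p : ℝ)) ^ n) ^ p :=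
      pow_le_pow_right₀ h5 (by omega)
    calc 2 ^ p * T * ((4 * (p : ℝ)) ^ n) ^ (p - 1)
        ≤ 4 ^ p * T * ((4 * (p : ℝ)) ^ n) ^ p := by gcongr
      _ = 4 ^ p * ((4 * (p : ℝ)) ^ n) ^ p * T := by ring

theorem greedy (a : C → Fin m → ℕ) (f : Zs C L → ℝ) (K : ℝ) (Lev : Finset (Fin m → ℤ))
    (Bs : (Fin m → ℤ) → Finset (Zs C L)) (hB : ∀ w ∈ Lev, Dep (D (lv a w)) fun z => z ∈ Bs w)
    (low : ∀ w ∈ Lev, ∀ z ∈ Bs w, 1 < av (D (lv a w)) f z)
    (upp : ∀ w ∈ Lev, ∀ z ∈ Bs w, av (D (lv a w)) f z ≤ K) :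
    ∃ Fs : (Fin m → ℤ) → Finset (Zs C L), Fam a f K Lev Fs ∧
      ((Lev.biUnion Bs).card : ℝ) ≤ (1 + 4 * 8 ^ Fintype.card C) * TT Lev Fs := by
  obtain ⟨Fs, Es, h1, h2, h3, h4, h5, h6⟩ := pre a Lev Bs hB
  refine ⟨Fs, ⟨h1, fun w hw z hz => low w hw z (h2 w hw hz), fun w hw z hz =>
    upp w hw z (h2 w hw hz), fun p hp => mom_bound a Lev Fs Es h1 h3 h4 h5 p hp⟩, ?_⟩
  set Un := Lev.biUnion Fs with hUn
  set T : ℝ := TT Lev Fs with hT
  have hUT : (Un.card : ℝ) ≤ T := by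
    have h : Un.card ≤ ∑ w ∈ Lev, (Fs w).card := Finset.card_biUnion_le
    rw [hT]
    unfold TT
    exact_mod_cast h
  obtain ⟨M, hM0, hM1, hM2⟩ := strong (C := C) (L := L) (fun z => if z ∈ Un then (1 : ℝ) else 0)
    (fun z => by split_ifs <;> norm_num) 2 le_rfl
  set Bd : Finset (Zs C L) := Finset.univ.filter fun z => 1 / 2 < M z with hBd
  have hsub : Lev.biUnion Bs ⊆ Un ∪ Bd := by
    intro z hz
    obtain ⟨w, hw, hzw⟩ := Finset.mem_biUnion.mp hz
    by_cases hzU : z ∈ Un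
    · exact Finset.mem_union_left _ hzU
    · refine Finset.mem_union_right _ ?_
      have hzF : z ∉ Fs w := fun h => hzU (Finset.mem_biUnion.mpr ⟨w, hw, h⟩)
      have h7 := h6 w hw z hzw hzF
      rw [hBd, Finset.mem_filter]
      refine ⟨Finset.mem_univ _, lt_of_lt_of_le ?_ (hM1 (lv a w) z)⟩
      unfold av
      have hc : (0 : ℝ) < ((cyl (D (lv a w)) z).card : ℝ) := by
        exact_mod_cast cyl_card_pos (D (lv a w)) z
      have e : ∑ y ∈ cyl (D (lv a w)) z, (if y ∈ Un then (1 : ℝ) else 0)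
          = ((cyl (D (lv a w)) z ∩ Un).card : ℝ) := by
        rw [← Finset.sum_filter, Finset.filter_mem_eq_inter, Finset.sum_const, nsmul_eq_mul,
          mul_one]
      rw [e, lt_div_iff₀ hc]
      have h8 : ((cyl (D (lv a w)) z).card : ℝ) < 2 * ((cyl (D (lv a w)) z ∩ Un).card : ℝ) := by
        exact_mod_cast h7
      linarith
  have hr : ((2 : ℕ) : ℝ) / (((2 : ℕ) : ℝ) - 1) = 2 := by norm_num
  rw [hr] at hM2
  have hsumU : ∑ z : Zs C L, (if z ∈ Un then (1 : ℝ) else 0) ^ (2 : ℝ) = Un.card := by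
    have e : ∀ z : Zs C L, (if z ∈ Un then (1 : ℝ) else 0) ^ (2 : ℝ)
        = if z ∈ Un then (1 : ℝ) else 0 := by
      intro z
      split_ifs <;> norm_num
    rw [Finset.sum_congr rfl fun z _ => e z, ← Finset.sum_filter, Finset.sum_const, nsmul_eq_mul,
      mul_one]
    congr 2
    ext z
    simp
  rw [hsumU] at hM2
  have hBdc : (Bd.card : ℝ) ≤ 4 * ∑ z, M z ^ (2 : ℝ) := by
    have e1 : (Bd.card : ℝ) = ∑ z ∈ Bd, (1 : ℝ) := by simp
    rw [e1, Finset.mul_sum]
    refine (Finset.sum_le_sum (g := fun z => 4 * M z ^ (2 : ℝ)) fun z hz => ?_).trans ?_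
    · have h8 : 1 / 2 < M z := (Finset.mem_filter.mp hz).2
      rw [Real.rpow_two]
      nlinarith
    · exact Finset.sum_le_univ_sum_of_nonneg fun z => by
        have := Real.rpow_nonneg (hM0 z) 2
        positivity
  have h9 : ((Lev.biUnion Bs).card : ℝ) ≤ Un.card + Bd.card := by
    exact_mod_cast (Finset.card_le_card hsub).trans (Finset.card_union_le _ _)
  have h10 : (4 * ((2 : ℕ) : ℝ)) ^ Fintype.card C = (8 : ℝ) ^ Fintype.card C := by norm_num
  rw [h10] at hM2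
  have h11 : (8 : ℝ) ^ Fintype.card C * Un.card ≤ 8 ^ Fintype.card C * T := by gcongr
  nlinarith

end Zyg
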