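import Pool.Agent.Work.MP_93d592_an.A.QFacts

/-!
# Hyb : the hybrid identity (A1)

Both sides are equal to `S = ∑ h * exp (Vt f Aᶜ l t)`.
-/

open Finset
open scoped Classical

set_option linter.unusedSectionVars false

noncomputable section

namespace Zyg

variable {C : Type} [Fintype C] [LinearOrder C] {L : ℕ} {f : Zs C L → ℝ}

/-- hybrid key -/
def Hyb_key (A : Finset C) (l l' : C → ℤ) (t : ℤ) (i : C × Fin L) : ℤ ×ₗ C :=
  toLex (if i.1 ∈ A then kl l' i else kl l i - t, i.1)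

theorem Hyb_le_iff {a b : ℤ} {c d : C} :
    (toLex (a, c) : ℤ ×ₗ C) ≤ toLex (b, d) ↔ a < b ∨ (a = b ∧ c ≤ d) :=
  Prod.Lex.toLex_le_toLex

theorem Hyb_le_mono {a a' b b' : ℤ} {c d : C} (h : (toLex (a', c) : ℤ ×ₗ C) ≤ toLex (b, d))
    (ha : a ≤ a') (hb : b ≤ b') : (toLex (a, c) : ℤ ×ₗ C) ≤ toLex (b', d) := by
  rw [Hyb_le_iff] at h ⊢
  rcases h with h | ⟨h, h'⟩
  · left; omega
  · rcases lt_or_eq_of_le (show a ≤ b' by omega) with h3 | h3
    · exact Or.inl h3
    · exact Or.inr ⟨h3, h'⟩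

theorem Hyb_key_inj (A : Finset C) (l l' : C → ℤ) (t : ℤ) :
    Function.Injective (Hyb_key (L := L) A l l' t) := by
  intro i j h
  have h' : ((if i.1 ∈ A then kl l' i else kl l i - t), i.1) =
      ((if j.1 ∈ A then kl l' j else kl l j - t), j.1) := by
    have := congrArg ofLex h
    simpa [Hyb_key] using this
  have h1 := congrArg Prod.fst h'
  have h2 : i.1 = j.1 := congrArg Prod.snd h'
  refine Prod.ext h2 (Fin.ext ?_)
  simp only at h1
  unfold kl at h1
  rw [h2] at h1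
  have : (i.2.1 : ℤ) = (j.2.1 : ℤ) := by
    split_ifs at h1 <;> linarith
  exact_mod_cast this

theorem Hyb_right (hf : ∀ z, 0 < f z) (l l' : C → ℤ) (A : Finset C) (t : ℤ)
    (_hA : ∀ c ∈ A, t ≤ l' c - l c) (ht : 0 ≤ t) (h : Zs C L → ℝ)
    (hh : Dep (Finset.univ.filter fun i : C × Fin L => if i.1 ∈ A then kl l' i < 0 else kl l i < t)
      h) :
    ∑ z, h z * Real.exp (V f Aᶜ l z) = ∑ z, h z * Real.exp (Vt f Aᶜ l t z) := by
  have e1 : ∀ z, h z * Real.exp (V f Aᶜ l z) =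
      (h z * Real.exp (Vt f Aᶜ l t z)) * ∏ i ∈ U Aᶜ l t, q f l i z := by
    intro z
    rw [V_eq Aᶜ l ht z, Real.exp_add, Real.exp_sum]
    have : ∏ i ∈ U Aᶜ l t, Real.exp (Real.log (q f l i z)) = ∏ i ∈ U Aᶜ l t, q f l i z :=
      Finset.prod_congr rfl fun i _ => Real.exp_log (q_pos hf l i z)
    rw [this]
    ring
  rw [Finset.sum_congr rfl fun z _ => e1 z]
  suffices hs : Dep (U Aᶜ l t)ᶜ (fun z => h z * Real.exp (Vt f Aᶜ l t z)) by
    have key1 := seq (key l) (key_inj l) (U Aᶜ l t) (q f l)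
      (fun z => h z * Real.exp (Vt f Aᶜ l t z))
      (fun i _ => q_dep' l i) (fun i _ z => q_add_flip hf l i z) (dep_compl_inst _ _ _ _ hs)
    exact (sum_inst _ _ _).trans (key1.trans (sum_inst _ _ _))
  intro z z' hz
  have a1 : h z = h z' := by
    refine hh z z' fun i hi => hz i ?_
    rw [Finset.mem_filter] at hi
    rw [Finset.mem_compl, mem_U, Finset.mem_compl]
    rintro ⟨b1, b2⟩
    have b3 := hi.2
    rw [if_neg b1] at b3
    omega
  have a2 : Vt f Aᶜ l t z = Vt f Aᶜ l t z' := by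
    refine Vt_dep Aᶜ l t z z' fun i hi => hz i ?_
    rw [Finset.mem_filter] at hi
    rw [Finset.mem_compl, mem_U]
    rintro ⟨_, b2⟩
    omega
  simp only [a1, a2]

theorem Hyb_left (hf : ∀ z, 0 < f z) (l l' : C → ℤ) (A : Finset C) (t : ℤ)
    (hA : ∀ c ∈ A, t ≤ l' c - l c) (hA' : ∀ c ∉ A, l' c - l c ≤ t) (ht : 0 ≤ t)
    (h : Zs C L → ℝ)
    (hh : Dep (Finset.univ.filter fun i : C × Fin L => if i.1 ∈ A then kl l' i < 0 else kl l i < t)
      h) :
    ∑ z, h z * (Real.exp (V f A l' z) * Real.exp (V f Aᶜ l z)) =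
      ∑ z, h z * Real.exp (Vt f Aᶜ l t z) := by
  have hdisj : Disjoint (U (L := L) A l' 0) (U (L := L) Aᶜ l t) := by
    rw [Finset.disjoint_left]
    intro i h1 h2
    rw [mem_U] at h1 h2
    exact (Finset.mem_compl.1 h2.1) h1.1
  have e1 : ∀ z, h z * (Real.exp (V f A l' z) * Real.exp (V f Aᶜ l z)) =
      (h z * Real.exp (Vt f Aᶜ l t z)) *
        ∏ i ∈ U A l' 0 ∪ U Aᶜ l t, (if i.1 ∈ A then q f l' i z else q f l i z) := by
    intro z
    rw [Finset.prod_union hdisj, V_eq Aᶜ l ht z, Real.exp_add, Real.exp_sum, exp_V hf]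
    have c1 : ∏ i ∈ U Aᶜ l t, Real.exp (Real.log (q f l i z)) =
        ∏ i ∈ U Aᶜ l t, (if i.1 ∈ A then q f l' i z else q f l i z) :=
      Finset.prod_congr rfl fun i hi => by
        rw [mem_U, Finset.mem_compl] at hi
        rw [Real.exp_log (q_pos hf l i z), if_neg hi.1]
    have c2 : ∏ i ∈ U A l' 0, q f l' i z =
        ∏ i ∈ U A l' 0, (if i.1 ∈ A then q f l' i z else q f l i z) :=
      Finset.prod_congr rfl fun i hi => by
        rw [mem_U] at hi
        rw [if_pos hi.1]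
    rw [c1, c2]
    ring
  rw [Finset.sum_congr rfl fun z _ => e1 z]
  suffices hs : (∀ i ∈ U (L := L) A l' 0 ∪ U Aᶜ l t,
      Dep (Finset.univ.filter fun j => Hyb_key A l l' t j ≤ Hyb_key A l l' t i)
        (fun z => if i.1 ∈ A then q f l' i z else q f l i z)) ∧
      (∀ i ∈ U (L := L) A l' 0 ∪ U Aᶜ l t, ∀ z : Zs C L,
        (if i.1 ∈ A then q f l' i z else q f l i z) +
          (if i.1 ∈ A then q f l' i (flip i z) else q f l i (flip i z)) = 2) ∧
      Dep (U A l' 0 ∪ U Aᶜ l t)ᶜ (fun z => h z * Real.exp (Vt f Aᶜ l t z)) by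
    have key1 := seq (Hyb_key A l l' t) (Hyb_key_inj A l l' t) (U A l' 0 ∪ U Aᶜ l t)
      (fun i z => if i.1 ∈ A then q f l' i z else q f l i z)
      (fun z => h z * Real.exp (Vt f Aᶜ l t z)) hs.1 hs.2.1 (dep_compl_inst _ _ _ _ hs.2.2)
    exact (sum_inst _ _ _).trans (key1.trans (sum_inst _ _ _))
  refine ⟨?_, ?_, ?_⟩
  · intro i _
    by_cases hi : i.1 ∈ A
    · simp only [if_pos hi]
      refine (q_dep' l' i).mono ?_
      intro j hj
      rw [Finset.mem_filter] at hj ⊢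
      refine ⟨Finset.mem_univ _, ?_⟩
      have hj2 : (toLex (kl l' j, j.1) : ℤ ×ₗ C) ≤ toLex (kl l' i, i.1) := hj.2
      unfold Hyb_key
      rw [if_pos hi]
      refine Hyb_le_mono hj2 ?_ le_rfl
      split_ifs with hjA
      · exact le_rfl
      · have := hA' j.1 hjA
        unfold kl
        omega
    · simp only [if_neg hi]
      refine (q_dep' l i).mono ?_
      intro j hj
      rw [Finset.mem_filter] at hj ⊢
      refine ⟨Finset.mem_univ _, ?_⟩
      have hj2 : (toLex (kl l j, j.1) : ℤ ×ₗ C) ≤ toLex (kl l i, i.1) := hj.2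
      have hj3 : (toLex (kl l j - t, j.1) : ℤ ×ₗ C) ≤ toLex (kl l i - t, i.1) := by
        rw [Hyb_le_iff] at hj2 ⊢
        rcases hj2 with h | ⟨h, h'⟩
        · left; omega
        · right; exact ⟨by omega, h'⟩
      unfold Hyb_key
      rw [if_neg hi]
      refine Hyb_le_mono hj3 ?_ le_rfl
      split_ifs with hjA
      · have := hA j.1 hjA
        unfold kl
        omega
      · exact le_rfl
  · intro i _ z
    by_cases hi : i.1 ∈ A
    · simp only [if_pos hi]
      exact q_add_flip hf l' i z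
    · simp only [if_neg hi]
      exact q_add_flip hf l i z
  · intro z z' hz
    have a1 : h z = h z' := by
      refine hh z z' fun i hi => hz i ?_
      rw [Finset.mem_filter] at hi
      have b3 := hi.2
      rw [Finset.mem_compl, Finset.mem_union, mem_U, mem_U, Finset.mem_compl]
      rintro (⟨b1, b2⟩ | ⟨b1, b2⟩)
      · rw [if_pos b1] at b3
        omega
      · rw [if_neg b1] at b3
        omega
    have a2 : Vt f Aᶜ l t z = Vt f Aᶜ l t z' := by
      refine Vt_dep Aᶜ l t z z' fun i hi => hz i ?_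
      rw [Finset.mem_filter] at hi
      rw [Finset.mem_compl, Finset.mem_union, mem_U, mem_U]
      rintro (⟨b1, b2⟩ | ⟨_, b2⟩)
      · have := hA i.1 b1
        have b3 := hi.2
        unfold kl at b2 b3
        omega
      · omega
    simp only [a1, a2]

theorem hyb (hf : ∀ z, 0 < f z) (l l' : C → ℤ) (A : Finset C) (t : ℤ)
    (hA : ∀ c ∈ A, t ≤ l' c - l c) (hA' : ∀ c ∉ A, l' c - l c ≤ t) (ht : 0 ≤ t)
    (h : Zs C L → ℝ)
    (hh : Dep (Finset.univ.filter fun i : C × Fin L => if i.1 ∈ A then kl l' i < 0 else kl l i < t)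
      h) :
    ∑ z, h z * (Real.exp (V f A l' z) * Real.exp (V f Aᶜ l z)) =
      ∑ z, h z * Real.exp (V f Aᶜ l z) := by
  rw [Hyb_left hf l l' A t hA hA' ht h hh, Hyb_right hf l l' A t hA ht h hh]

end Zyg
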