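import Pool.Agent.Work.MP_93d592_an.A.Comb
import Pool.Agent.Work.MP_93d592_an.A.Hyb

/-!
# KindCD : kindC and kindD (see Kind.lean)
-/

open Finset
open scoped Classical

set_option linter.unusedSectionVars false

noncomputable section

namespace Zyg

variable {C : Type} [Fintype C] [LinearOrder C] {L m : ℕ} {f : Zs C L → ℝ} {K : ℝ}
  {a : C → Fin m → ℕ} {Lev : Finset (Fin m → ℤ)} {Fs : (Fin m → ℤ) → Finset (Zs C L)}

theorem kcd_swap (w : Fin m → ℤ) (Q : (Fin m → ℤ) → Zs C L → Prop) (E : Zs C L → Prop)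
    (N : Zs C L → ℝ) (hN : ∀ z, N z = ∑ w' ∈ Lev, ind (z ∈ Fs w' ∧ Q w' z)) :
    ∑ w' ∈ Lev, ∑ z ∈ Fs w ∩ Fs w', f z * ind (Q w' z ∧ E z) =
      ∑ z ∈ Fs w, f z * N z * ind (E z) := by
  have e1 : ∀ w' ∈ Lev, ∑ z ∈ Fs w ∩ Fs w', f z * ind (Q w' z ∧ E z) =
      ∑ z ∈ Fs w, if z ∈ Fs w' then f z * ind (Q w' z ∧ E z) else 0 := by
    intro w' _
    rw [Finset.sum_ite_mem]
  rw [Finset.sum_congr rfl e1, Finset.sum_comm]
  refine Finset.sum_congr rfl fun z _ => ?_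
  rw [hN z, Finset.mul_sum, Finset.sum_mul]
  refine Finset.sum_congr rfl fun w' _ => ?_
  unfold ind
  by_cases h1 : z ∈ Fs w' <;> by_cases h2 : Q w' z <;> by_cases h3 : E z <;> simp [h1, h2, h3]

theorem kcd_NA (S : ℝ) (w : Fin m → ℤ) (z : Zs C L) :
    (NA a f Lev Fs ∅ S (lv a w) z : ℝ) = ∑ w' ∈ Lev, ind (z ∈ Fs w' ∧
      ∀ c, Vt f {c} (lv a w) (max (lv a w' c - lv a w c) 0) z ≤ S) := by
  unfold NA
  rw [Finset.card_filter]
  push_cast
  refine Finset.sum_congr rfl fun w' _ => ?_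
  unfold ind
  by_cases h : z ∈ Fs w' ∧ ∀ c, Vt f {c} (lv a w) (max (lv a w' c - lv a w c) 0) z ≤ S
  · rw [if_pos h, if_pos ⟨h.1, fun c _ => h.2 c⟩]
  · rw [if_neg h, if_neg fun h' => h ⟨h'.1, fun c => h'.2 c (Finset.notMem_empty c)⟩]

theorem kcd_f_le (hf : ∀ z, 0 < f z) (hF : Fam a f K Lev Fs) {w : Fin m → ℤ} (hw : w ∈ Lev)
    {z : Zs C L} (hz : z ∈ Fs w) : f z ≤ K * Real.exp (V f Finset.univ (lv a w) z) := by
  have h1 := f_eq hf (lv a w) z
  have h2 := mul_le_mul_of_nonneg_right (hF.upp w hw z hz)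
    (Real.exp_pos (V f Finset.univ (lv a w) z)).le
  linarith

theorem kindC (hf : ∀ z, 0 < f z) (hK : 0 ≤ K) (hF : Fam a f K Lev Fs) (S : ℕ) (x : ℝ) :
    ∑ w ∈ Lev, ∑ w' ∈ Lev, ∑ z ∈ Fs w ∩ Fs w', f z * ind (
        (∀ c, Vt f {c} (lv a w) (max (lv a w' c - lv a w c) 0) z ≤ S) ∧
        ∃ c, ∃ t : ℤ, 0 ≤ t ∧ Vt f {c} (lv a w) t z ≤ -x) ≤
      K * (Fintype.card C * lam (Fintype.card C) S * Real.exp (-x) +
        Real.exp (-(Fintype.card C * S : ℝ) - 1)) * TT Lev Fs := by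
  let E : (Fin m → ℤ) → Zs C L → Prop := fun w z => ∃ c, ∃ t : ℤ, 0 ≤ t ∧
    Vt f {c} (lv a w) t z ≤ -x
  have hVc : ∀ w z, V f (∅ : Finset C)ᶜ (lv a w) z = V f Finset.univ (lv a w) z := by
    intro w z
    simp
  have step1 : ∑ w ∈ Lev, ∑ w' ∈ Lev, ∑ z ∈ Fs w ∩ Fs w', f z * ind (
        (∀ c, Vt f {c} (lv a w) (max (lv a w' c - lv a w c) 0) z ≤ S) ∧
        ∃ c, ∃ t : ℤ, 0 ≤ t ∧ Vt f {c} (lv a w) t z ≤ -x) ≤
      K * ∑ w ∈ Lev, ∑ z ∈ Fs w, Real.exp (V f (∅ : Finset C)ᶜ (lv a w) z) *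
        (NA a f Lev Fs ∅ S (lv a w) z : ℝ) * ind (E w z) := by
    rw [Finset.mul_sum]
    refine Finset.sum_le_sum fun w hw => ?_
    rw [kcd_swap w (fun w' z => ∀ c, Vt f {c} (lv a w) (max (lv a w' c - lv a w c) 0) z ≤ S)
      (E w) _ (kcd_NA S w), Finset.mul_sum]
    refine Finset.sum_le_sum fun z hz => ?_
    rw [hVc]
    have h1 := kcd_f_le hf hF hw hz
    have h2 : (0 : ℝ) ≤ (NA a f Lev Fs ∅ S (lv a w) z : ℝ) := Nat.cast_nonneg _
    have h3 : 0 ≤ ind (E w z) := by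
      unfold ind
      split_ifs <;> norm_num
    calc f z * (NA a f Lev Fs ∅ S (lv a w) z : ℝ) * ind (E w z)
        ≤ (K * Real.exp (V f Finset.univ (lv a w) z)) * (NA a f Lev Fs ∅ S (lv a w) z : ℝ) *
          ind (E w z) := by gcongr
      _ = K * (Real.exp (V f Finset.univ (lv a w) z) * (NA a f Lev Fs ∅ S (lv a w) z : ℝ) *
          ind (E w z)) := by ring
  have step2 : ∑ w ∈ Lev, ∑ z ∈ Fs w, Real.exp (V f (∅ : Finset C)ᶜ (lv a w) z) *
      ind (E w z) ≤ (Fintype.card C * Real.exp (-x)) * TT Lev Fs := by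
    unfold TT
    rw [Finset.mul_sum]
    refine Finset.sum_le_sum fun w hw => ?_
    calc ∑ z ∈ Fs w, Real.exp (V f (∅ : Finset C)ᶜ (lv a w) z) * ind (E w z)
        ≤ ∑ z ∈ Fs w, ∑ c : C, Real.exp (V f Finset.univ (lv a w) z) *
          ind (∃ t : ℤ, 0 ≤ t ∧ Vt f {c} (lv a w) t z ≤ -x) := by
          refine Finset.sum_le_sum fun z _ => ?_
          rw [hVc, ← Finset.mul_sum]
          refine mul_le_mul_of_nonneg_left ?_ (Real.exp_pos _).le
          by_cases h : E w z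
          · obtain ⟨c, hc⟩ := h
            have h4 : ind (E w z) = 1 := if_pos ⟨c, hc⟩
            rw [h4]
            have h5 : ind (∃ t : ℤ, 0 ≤ t ∧ Vt f {c} (lv a w) t z ≤ -x) = 1 := if_pos hc
            rw [← h5]
            exact Finset.single_le_sum (f := fun c : C => ind (∃ t : ℤ, 0 ≤ t ∧
              Vt f {c} (lv a w) t z ≤ -x)) (fun c _ => by
                unfold ind
                split_ifs <;> norm_num) (Finset.mem_univ c)
          · have h4 : ind (E w z) = 0 := if_neg h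
            rw [h4]
            refine Finset.sum_nonneg fun c _ => ?_
            unfold ind
            split_ifs <;> norm_num
      _ = ∑ c : C, ∑ z ∈ Fs w, Real.exp (V f Finset.univ (lv a w) z) *
          ind (∃ t : ℤ, 0 ≤ t ∧ Vt f {c} (lv a w) t z ≤ -x) := Finset.sum_comm
      _ ≤ ∑ _c : C, Real.exp (-x) * ((Fs w).card : ℝ) :=
          Finset.sum_le_sum fun c _ => vil_down hf (lv a w) c (Fs w) (hF.dep w hw) x
      _ = Fintype.card C * Real.exp (-x) * ((Fs w).card : ℝ) := by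
          rw [Finset.sum_const, Finset.card_univ, nsmul_eq_mul]
          ring
  have step3 := comb hf hF ∅ S E (Fintype.card C * Real.exp (-x)) (by positivity) step2
  calc _ ≤ _ := step1
    _ ≤ K * ((lam (Fintype.card C) S * (Fintype.card C * Real.exp (-x)) +
        Real.exp (-(Fintype.card C * S : ℝ) - 1)) * TT Lev Fs) :=
        mul_le_mul_of_nonneg_left step3 hK
    _ = _ := by ring

theorem kindD (hf : ∀ z, 0 < f z) (hK : 0 ≤ K) (hF : Fam a f K Lev Fs) (S : ℕ) :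
    ∑ w ∈ Lev, ∑ w' ∈ Lev, ∑ z ∈ Fs w ∩ Fs w', f z * ind (
        ∀ c, Vt f {c} (lv a w) (max (lv a w' c - lv a w c) 0) z ≤ S) ≤
      K * Real.exp (Fintype.card C * S) * Bp (Fintype.card C) 2 ^ 2 * TT Lev Fs := by
  have hVc : ∀ w z, V f (∅ : Finset C)ᶜ (lv a w) z = V f Finset.univ (lv a w) z := by
    intro w z
    simp
  have step1 : ∑ w ∈ Lev, ∑ w' ∈ Lev, ∑ z ∈ Fs w ∩ Fs w', f z * ind (
        ∀ c, Vt f {c} (lv a w) (max (lv a w' c - lv a w c) 0) z ≤ S) ≤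
      K * ∑ w ∈ Lev, ∑ z ∈ Fs w, Real.exp (V f (∅ : Finset C)ᶜ (lv a w) z) *
        (NA a f Lev Fs ∅ S (lv a w) z : ℝ) ^ 1 := by
    rw [Finset.mul_sum]
    refine Finset.sum_le_sum fun w hw => ?_
    have e0 := kcd_swap (Lev := Lev) (Fs := Fs) (f := f) w
      (fun w' z => ∀ c, Vt f {c} (lv a w) (max (lv a w' c - lv a w c) 0) z ≤ S)
      (fun _ => True) _ (kcd_NA S w)
    simp only [and_true] at e0
    rw [e0, Finset.mul_sum]
    refine Finset.sum_le_sum fun z hz => ?_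
    rw [hVc]
    have h1 := kcd_f_le hf hF hw hz
    have h2 : (0 : ℝ) ≤ (NA a f Lev Fs ∅ S (lv a w) z : ℝ) := Nat.cast_nonneg _
    have h3 : ind True = 1 := if_pos trivial
    rw [h3, pow_one, mul_one, ← mul_assoc]
    gcongr
  have step2 : ∑ w ∈ Lev, ∑ z ∈ Fs w, Real.exp (V f (∅ : Finset C)ᶜ (lv a w) z) *
        (NA a f Lev Fs ∅ S (lv a w) z : ℝ) ^ 1 ≤
      Real.exp (Fintype.card C * S) * ∑ w ∈ Lev, ∑ z ∈ Fs w, (NN Lev Fs z : ℝ) ^ 1 := by
    rw [Finset.mul_sum]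
    exact Finset.sum_le_sum fun w hw => tup hf hF.dep ∅ (Nat.cast_nonneg S) 1 hw
  have step3 : ∑ w ∈ Lev, ∑ z ∈ Fs w, (NN Lev Fs z : ℝ) ^ 1 = ∑ z, (NN Lev Fs z : ℝ) ^ 2 := by
    have e1 : ∀ w ∈ Lev, ∑ z ∈ Fs w, (NN Lev Fs z : ℝ) ^ 1 =
        ∑ z, if z ∈ Fs w then (NN Lev Fs z : ℝ) ^ 1 else 0 := by
      intro w _
      rw [Finset.sum_ite_mem, Finset.univ_inter]
    rw [Finset.sum_congr rfl e1, Finset.sum_comm]
    refine Finset.sum_congr rfl fun z _ => ?_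
    rw [← Finset.sum_filter, Finset.sum_const, nsmul_eq_mul]
    unfold NN
    ring
  have step4 := hF.mom 2 le_rfl
  calc _ ≤ _ := step1
    _ ≤ K * (Real.exp (Fintype.card C * S) * (Bp (Fintype.card C) 2 ^ 2 * TT Lev Fs)) := by
        refine mul_le_mul_of_nonneg_left (step2.trans ?_) hK
        rw [step3]
        exact mul_le_mul_of_nonneg_left step4 (Real.exp_pos _).le
    _ = _ := by ring

end Zyg
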