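import Pool.Agent.Work.MP_93d592_an.A.KindA
import Pool.Agent.Work.MP_93d592_an.A.KindCD

/-!
# Kind : the three kinds of exceptional pairs (A5, A6, A7)

Notation: `l = lv a w`, `l' = lv a w'`, `σ c = l' c - l c`, `n = card C`.

`kindA` (A5). For `z` in the sum `f z = av (D l) f z * exp (V univ l) ≤ K exp (V A l) exp (V Aᶜ l)
≤ K e^{-u} exp (V A l') exp (V Aᶜ l)`. For an admissible pair (`0 ≤ t`, `t ≤ σ` on `A`, `σ ≤ t`
off `A`) apply `hyb` with `h z = [z ∈ Fs w][z ∈ Fs w'][budgets off A]`: it depends only on digits with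
`kl l' i < 0` (`i.1 ∈ A`; note `l ≤ l'` on `A`) resp. `kl l i < t` (`i.1 ∉ A`) (`Fam.dep`, `Vt_dep`;
`max (σ c) 0 ≤ t` off `A`, and digits of `A` with `kl l i < t` have `kl l' i < 0`). Sum over `w'`:
`∑_{w'} h ≤ [z ∈ Fs w] NA`. Then `comb` with `E = True`, `e = 1` (`sum_exp_V`).

`kindB` (A6). On the event `f ≤ K e^{-u} exp (Vt A l t) exp (V A l') exp (V Aᶜ l)`. `hyb` with
`h z = [z ∈ Fs w][z ∈ Fs w'][budgets] exp (Vt A l t z)`. On the budgets `Vt A l t ≤ n S` (`Vt_sum`), so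
`exp (Vt A l t z) ≤ ∑_{j ≤ n S} e^{j+1} [∃ t ≥ 0, j ≤ Vt A l t z]`; sum over `w'`, then for every `j`
`comb` with `E w z = ∃ t ≥ 0, j ≤ Vt A (lv a w) t z`, `e = e^{-j}` (`vil_up`):
`∑_j e^{j+1} (lam e^{-j} + e^{-nS-1}) ≤ (n S + 1)(3 lam + 1)`.

`kindC` (A7). `f ≤ K exp (V univ l)`; sum over `w'`: `NA` for `A = ∅`; `comb` with
`E w z = ∃ c, ∃ t ≥ 0, Vt {c} l t z ≤ -x`, `e = n e^{-x}` (`vil_down`).
`kindD`: `tup` with `A = ∅`, `p = 1`, and `mom` for `p = 2`.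
-/

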