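import Pool.Agent.Work.MP_93d592_an.A.Comb
import Pool.Agent.Work.MP_93d592_an.A.Hyb

/-!
# KindA : the first two kinds of exceptional pairs (A5, A6)
-/

open Finset
open scoped Classical

noncomputable section

namespace Zyg

theorem KindA_ind_nonneg (P : Prop) : 0 ≤ ind P := by
  rw [ind]
  split_ifs <;> norm_num

theorem KindA_ind_le_one (P : Prop) : ind P ≤ 1 := by
  rw [ind]
  split_ifs <;> norm_num

theorem KindA_ind_true {P : Prop} (h : P) : ind P = 1 := by
  rw [ind, if_pos h]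

theorem KindA_ind_false {P : Prop} (h : ¬ P) : ind P = 0 := by
  rw [ind, if_neg h]

theorem KindA_ind_mono {P Q : Prop} (h : P → Q) : ind P ≤ ind Q := by
  by_cases hP : P
  · rw [KindA_ind_true hP, KindA_ind_true (h hP)]
  · rw [KindA_ind_false hP]
    exact KindA_ind_nonneg Q

theorem KindA_ind_and (P Q : Prop) : ind (P ∧ Q) = ind P * ind Q := by
  by_cases hP : P <;> by_cases hQ : Q <;> simp [ind, hP, hQ]

section
variable {I : Type} [Fintype I]

omit [Fintype I] in
theorem KindA_dep_mono {α : Type} {D D' : Finset I} {h : (I → Bool) → α} (hd : Dep D h)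
    (hs : D ⊆ D') : Dep D' h := fun z z' hz => hd z z' fun i hi => hz i (hs hi)

end

variable {C : Type} [Fintype C] [LinearOrder C] {L m : ℕ} {f : Zs C L → ℝ} {K : ℝ}
  {a : C → Fin m → ℕ} {Lev : Finset (Fin m → ℤ)} {Fs : (Fin m → ℤ) → Finset (Zs C L)}

/-- the budget condition off `A` -/
def KindA_bud (a : C → Fin m → ℕ) (f : Zs C L → ℝ) (A : Finset C) (S : ℕ) (w w' : Fin m → ℤ)
    (z : Zs C L) : Prop :=
  ∀ c ∉ A, Vt f {c} (lv a w) (max (lv a w' c - lv a w c) 0) z ≤ S

/-- the hybrid set of digits -/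
def KindA_DD (a : C → Fin m → ℕ) (L : ℕ) (A : Finset C) (t : ℤ) (w w' : Fin m → ℤ) :
    Finset (C × Fin L) :=
  Finset.univ.filter fun i : C × Fin L => if i.1 ∈ A then kl (lv a w') i < 0 else kl (lv a w) i < t

theorem KindA_sub1 {A : Finset C} {t : ℤ} {w w' : Fin m → ℤ} (ht : 0 ≤ t)
    (hA : ∀ c ∈ A, t ≤ lv a w' c - lv a w c) : D (L := L) (lv a w) ⊆ KindA_DD a L A t w w' := by
  intro i hi
  rw [D, mem_filter] at hi
  rw [KindA_DD, mem_filter]
  refine ⟨mem_univ _, ?_⟩
  split_ifs with h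
  · have := hA _ h
    simp only [kl] at hi ⊢
    omega
  · omega

theorem KindA_sub2 {A : Finset C} {t : ℤ} {w w' : Fin m → ℤ}
    (hA' : ∀ c ∉ A, lv a w' c - lv a w c ≤ t) : D (L := L) (lv a w') ⊆ KindA_DD a L A t w w' := by
  intro i hi
  rw [D, mem_filter] at hi
  rw [KindA_DD, mem_filter]
  refine ⟨mem_univ _, ?_⟩
  split_ifs with h
  · exact hi.2
  · have := hA' _ h
    simp only [kl] at hi ⊢
    omega

theorem KindA_sub3 {A : Finset C} {t r : ℤ} {w w' : Fin m → ℤ}
    (hA : ∀ c ∈ A, t ≤ lv a w' c - lv a w c) (hr : r ≤ t) :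
    (Finset.univ.filter fun i : C × Fin L => kl (lv a w) i < r) ⊆ KindA_DD a L A t w w' := by
  intro i hi
  rw [mem_filter] at hi
  rw [KindA_DD, mem_filter]
  refine ⟨mem_univ _, ?_⟩
  split_ifs with h
  · have := hA _ h
    simp only [kl] at hi ⊢
    omega
  · omega

theorem KindA_dep_bud {A : Finset C} {S : ℕ} {t : ℤ} {w w' : Fin m → ℤ} (ht : 0 ≤ t)
    (hA : ∀ c ∈ A, t ≤ lv a w' c - lv a w c) (hA' : ∀ c ∉ A, lv a w' c - lv a w c ≤ t) :
    Dep (KindA_DD a L A t w w') (KindA_bud a f A S w w') := by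
  intro z z' hz
  apply propext
  apply forall_congr'
  intro c
  apply forall_congr'
  intro hc
  have hr : max (lv a w' c - lv a w c) 0 ≤ t := max_le (hA' c hc) ht
  rw [KindA_dep_mono (Vt_dep (f := f) {c} (lv a w) (max (lv a w' c - lv a w c) 0))
    (KindA_sub3 hA hr) z z' hz]

/-- the hybrid identity for a pair -/
theorem KindA_hyb (hf : ∀ z, 0 < f z) (hF : Fam a f K Lev Fs) (A : Finset C) (S : ℕ)
    {w w' : Fin m → ℤ} (hw : w ∈ Lev) (hw' : w' ∈ Lev) {t : ℤ} (ht : 0 ≤ t)
    (hA : ∀ c ∈ A, t ≤ lv a w' c - lv a w c) (hA' : ∀ c ∉ A, lv a w' c - lv a w c ≤ t)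
    (g : Zs C L → ℝ) (hg : Dep (KindA_DD a L A t w w') g) :
    ∑ z, (ind (z ∈ Fs w ∧ z ∈ Fs w' ∧ KindA_bud a f A S w w' z) * g z) *
        (Real.exp (V f A (lv a w') z) * Real.exp (V f Aᶜ (lv a w) z)) =
      ∑ z, (ind (z ∈ Fs w ∧ z ∈ Fs w' ∧ KindA_bud a f A S w w' z) * g z) *
        Real.exp (V f Aᶜ (lv a w) z) := by
  apply hyb hf (lv a w) (lv a w') A t hA hA' ht
  show Dep (KindA_DD a L A t w w') _
  intro z z' hz
  have h1 : (z ∈ Fs w) = (z' ∈ Fs w) :=
    KindA_dep_mono (hF.dep w hw) (KindA_sub1 ht hA) z z' hz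
  have h2 : (z ∈ Fs w') = (z' ∈ Fs w') :=
    KindA_dep_mono (hF.dep w' hw') (KindA_sub2 hA') z z' hz
  have h3 : KindA_bud a f A S w w' z = KindA_bud a f A S w w' z' :=
    KindA_dep_bud ht hA hA' z z' hz
  show ind (z ∈ Fs w ∧ z ∈ Fs w' ∧ KindA_bud a f A S w w' z) * g z =
    ind (z' ∈ Fs w ∧ z' ∈ Fs w' ∧ KindA_bud a f A S w w' z') * g z'
  rw [h1, h2, h3, hg z z' hz]

theorem KindA_sum_NA (A : Finset C) (S : ℕ) (w : Fin m → ℤ) (z : Zs C L) :
    ∑ w' ∈ Lev, ind (z ∈ Fs w' ∧ KindA_bud a f A S w w' z) =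
      (NA a f Lev Fs A S (lv a w) z : ℝ) := by
  rw [NA, Finset.card_filter]
  push_cast
  apply sum_congr rfl
  intro w' _
  by_cases h : z ∈ Fs w' ∧ KindA_bud a f A S w w' z
  · rw [KindA_ind_true h]
    exact (if_pos h).symm
  · rw [KindA_ind_false h]
    exact (if_neg h).symm

theorem KindA_f_le (hf : ∀ z, 0 < f z) (hF : Fam a f K Lev Fs) (A : Finset C)
    {w : Fin m → ℤ} (hw : w ∈ Lev) {z : Zs C L} (hz : z ∈ Fs w) :
    f z ≤ K * (Real.exp (V f A (lv a w) z) * Real.exp (V f Aᶜ (lv a w) z)) := by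
  rw [← Real.exp_add, V_compl, f_eq hf (lv a w) z]
  have h1 := hF.upp w hw z hz
  have h2 : V f Finset.univ (lv a w) z = V f Finset.univ (lv a w) z := rfl
  exact mul_le_mul_of_nonneg_right h1 (Real.exp_pos _).le

/-- passing from a pair bound to the sum over pairs -/
theorem KindA_sum_swap (A : Finset C) (S : ℕ) (E : (Fin m → ℤ) → Zs C L → Prop) :
    ∑ w ∈ Lev, ∑ w' ∈ Lev, ∑ z ∈ Fs w, Real.exp (V f Aᶜ (lv a w) z) *
        ind (z ∈ Fs w' ∧ KindA_bud a f A S w w' z) * ind (E w z) =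
      ∑ w ∈ Lev, ∑ z ∈ Fs w, Real.exp (V f Aᶜ (lv a w) z) *
        (NA a f Lev Fs A S (lv a w) z : ℝ) * ind (E w z) := by
  apply sum_congr rfl
  intro w _
  rw [sum_comm]
  apply sum_congr rfl
  intro z _
  rw [← KindA_sum_NA, mul_sum, sum_mul]

theorem KindA_lam_nonneg (n S : ℕ) : 0 ≤ lam n S := by
  rw [lam, Bp]
  positivity

theorem KindA_TT_nonneg : 0 ≤ TT Lev Fs := by
  rw [TT]
  exact sum_nonneg fun _ _ => Nat.cast_nonneg _

theorem kindA (hf : ∀ z, 0 < f z) (hK : 0 ≤ K) (hF : Fam a f K Lev Fs) (A : Finset C) (S : ℕ)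
    (u : ℝ) (tt : (Fin m → ℤ) → (Fin m → ℤ) → ℤ) :
    ∑ w ∈ Lev, ∑ w' ∈ Lev, ∑ z ∈ Fs w ∩ Fs w', f z * ind (
        (0 ≤ tt w w' ∧ (∀ c ∈ A, tt w w' ≤ lv a w' c - lv a w c) ∧
          ∀ c ∉ A, lv a w' c - lv a w c ≤ tt w w') ∧
        (∀ c ∉ A, Vt f {c} (lv a w) (max (lv a w' c - lv a w c) 0) z ≤ S) ∧
        V f A (lv a w) z - V f A (lv a w') z ≤ -u) ≤
      K * Real.exp (-u) * (lam (Fintype.card C) S + 1) * TT Lev Fs := by
  have hKu : 0 ≤ K * Real.exp (-u) := mul_nonneg hK (Real.exp_pos _).le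
  have hpair : ∀ w ∈ Lev, ∀ w' ∈ Lev, ∑ z ∈ Fs w ∩ Fs w', f z * ind (
        (0 ≤ tt w w' ∧ (∀ c ∈ A, tt w w' ≤ lv a w' c - lv a w c) ∧
          ∀ c ∉ A, lv a w' c - lv a w c ≤ tt w w') ∧
        (∀ c ∉ A, Vt f {c} (lv a w) (max (lv a w' c - lv a w c) 0) z ≤ S) ∧
        V f A (lv a w) z - V f A (lv a w') z ≤ -u) ≤
      K * Real.exp (-u) * ∑ z ∈ Fs w, Real.exp (V f Aᶜ (lv a w) z) *
        ind (z ∈ Fs w' ∧ KindA_bud a f A S w w' z) * ind True := by
    intro w hw w' hw'
    by_cases hadm : (0 ≤ tt w w' ∧ (∀ c ∈ A, tt w w' ≤ lv a w' c - lv a w c) ∧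
          ∀ c ∉ A, lv a w' c - lv a w c ≤ tt w w')
    · have h1 := KindA_hyb hf hF A S hw hw' hadm.1 hadm.2.1 hadm.2.2 (fun _ => 1)
        (fun _ _ _ => rfl)
      have h2 : ∑ z ∈ Fs w, Real.exp (V f Aᶜ (lv a w) z) *
          ind (z ∈ Fs w' ∧ KindA_bud a f A S w w' z) * ind True =
          ∑ z, (ind (z ∈ Fs w ∧ z ∈ Fs w' ∧ KindA_bud a f A S w w' z) * (1 : ℝ)) *
            Real.exp (V f Aᶜ (lv a w) z) := by
        rw [← Finset.sum_filter_add_sum_filter_not Finset.univ (fun z => z ∈ Fs w),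
          Finset.filter_mem_eq_inter, Finset.univ_inter]
        rw [Finset.sum_eq_zero (s := Finset.univ.filter fun z => ¬ z ∈ Fs w), add_zero]
        · apply sum_congr rfl
          intro z hz
          rw [KindA_ind_and (z ∈ Fs w), KindA_ind_true hz, KindA_ind_true trivial]
          ring
        · intro z hz
          rw [mem_filter] at hz
          rw [KindA_ind_and (z ∈ Fs w), KindA_ind_false hz.2]
          ring
      rw [h2, ← h1, mul_sum]
      rw [← Finset.sum_filter_add_sum_filter_not Finset.univ (fun z => z ∈ Fs w ∩ Fs w'),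
        Finset.filter_mem_eq_inter, Finset.univ_inter]
      apply le_add_of_le_of_nonneg
      · apply sum_le_sum
        intro z hz
        have hz' := Finset.mem_inter.1 hz
        by_cases hev : ((0 ≤ tt w w' ∧ (∀ c ∈ A, tt w w' ≤ lv a w' c - lv a w c) ∧
          ∀ c ∉ A, lv a w' c - lv a w c ≤ tt w w') ∧
        (∀ c ∉ A, Vt f {c} (lv a w) (max (lv a w' c - lv a w c) 0) z ≤ S) ∧
        V f A (lv a w) z - V f A (lv a w') z ≤ -u)
        · have hb : KindA_bud a f A S w w' z := hev.2.1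
          rw [KindA_ind_true hev, KindA_ind_true ⟨hz'.1, hz'.2, hb⟩, mul_one, one_mul, one_mul]
          have h3 := KindA_f_le hf hF A hw hz'.1
          have h4 : Real.exp (V f A (lv a w) z) ≤ Real.exp (-u) * Real.exp (V f A (lv a w') z) := by
            rw [← Real.exp_add]
            apply Real.exp_le_exp.2
            linarith [hev.2.2]
          calc f z ≤ K * (Real.exp (V f A (lv a w) z) * Real.exp (V f Aᶜ (lv a w) z)) := h3
            _ ≤ K * ((Real.exp (-u) * Real.exp (V f A (lv a w') z)) *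
                Real.exp (V f Aᶜ (lv a w) z)) := by
                apply mul_le_mul_of_nonneg_left _ hK
                exact mul_le_mul_of_nonneg_right h4 (Real.exp_pos _).le
            _ = _ := by ring
        · rw [KindA_ind_false hev, mul_zero]
          apply mul_nonneg hKu
          apply mul_nonneg
          · exact mul_nonneg (KindA_ind_nonneg _) zero_le_one
          · positivity
      · apply sum_nonneg
        intro z _
        apply mul_nonneg hKu
        apply mul_nonneg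
        · exact mul_nonneg (KindA_ind_nonneg _) zero_le_one
        · positivity
    · rw [Finset.sum_eq_zero]
      · apply mul_nonneg hKu
        apply sum_nonneg
        intro z _
        exact mul_nonneg (mul_nonneg (Real.exp_pos _).le (KindA_ind_nonneg _)) (KindA_ind_nonneg _)
      · intro z _
        rw [KindA_ind_false (fun h => hadm h.1), mul_zero]
  have hcomb := comb hf hF A S (fun _ _ => True) 1 zero_le_one (by
    rw [one_mul, TT]
    apply sum_le_sum
    intro w hw
    have := sum_exp_V hf (lv a w) Aᶜ (Fs w) (hF.dep w hw)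
    rw [← this]
    apply sum_le_sum
    intro z _
    rw [KindA_ind_true trivial, mul_one])
  have hTT : 0 ≤ TT Lev Fs := KindA_TT_nonneg
  calc _ ≤ ∑ w ∈ Lev, ∑ w' ∈ Lev, K * Real.exp (-u) * ∑ z ∈ Fs w, Real.exp (V f Aᶜ (lv a w) z) *
        ind (z ∈ Fs w' ∧ KindA_bud a f A S w w' z) * ind True :=
        sum_le_sum fun w hw => sum_le_sum fun w' hw' => hpair w hw w' hw'
    _ = K * Real.exp (-u) * ∑ w ∈ Lev, ∑ z ∈ Fs w, Real.exp (V f Aᶜ (lv a w) z) *
        (NA a f Lev Fs A S (lv a w) z : ℝ) * ind True := by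
        rw [← KindA_sum_swap A S (fun _ _ => True)]
        simp only [mul_sum]
    _ ≤ K * Real.exp (-u) * ((lam (Fintype.card C) S * 1 +
        Real.exp (-(Fintype.card C * S : ℝ) - 1)) * TT Lev Fs) :=
        mul_le_mul_of_nonneg_left hcomb hKu
    _ ≤ K * Real.exp (-u) * ((lam (Fintype.card C) S + 1) * TT Lev Fs) := by
        apply mul_le_mul_of_nonneg_left _ hKu
        apply mul_le_mul_of_nonneg_right _ hTT
        rw [mul_one]
        gcongr
        rw [Real.exp_le_one_iff]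
        have : (0 : ℝ) ≤ (Fintype.card C : ℝ) * S := by positivity
        linarith
    _ = _ := by ring

theorem KindA_layer {v : ℝ} {N : ℕ} (hv : v ≤ N) (P : ℕ → Prop) (h0 : P 0)
    (hP : ∀ j : ℕ, (j : ℝ) ≤ v → P j) :
    Real.exp v ≤ ∑ j ∈ range (N + 1), Real.exp (j + 1) * ind (P j) := by
  have hnn : ∀ j ∈ range (N + 1), 0 ≤ Real.exp ((j : ℝ) + 1) * ind (P j) := fun j _ =>
    mul_nonneg (Real.exp_pos _).le (KindA_ind_nonneg _)
  by_cases hv0 : v < 0
  · calc Real.exp v ≤ 1 := Real.exp_le_one_iff.2 hv0.le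
      _ ≤ Real.exp (((0 : ℕ) : ℝ) + 1) * ind (P 0) := by
          rw [KindA_ind_true h0, mul_one]
          apply Real.one_le_exp
          norm_num
      _ ≤ _ := Finset.single_le_sum hnn (mem_range.2 (by omega))
  · push Not at hv0
    have hfl : (⌊v⌋₊ : ℝ) ≤ v := Nat.floor_le hv0
    have hfl2 : v < (⌊v⌋₊ : ℝ) + 1 := Nat.lt_floor_add_one v
    have hle : ⌊v⌋₊ ≤ N := by
      have : (⌊v⌋₊ : ℝ) ≤ N := hfl.trans hv
      exact_mod_cast this
    calc Real.exp v ≤ Real.exp ((⌊v⌋₊ : ℝ) + 1) * ind (P ⌊v⌋₊) := by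
          rw [KindA_ind_true (hP _ hfl), mul_one]
          exact Real.exp_le_exp.2 hfl2.le
      _ ≤ _ := Finset.single_le_sum hnn (mem_range.2 (by omega))

theorem KindA_swap3 {α β : Type} (s : Finset α) (t : Finset β) (c : ℝ) (e : β → ℝ)
    (Q : β → α → α → ℝ) : ∑ w ∈ s, ∑ w' ∈ s, c * ∑ j ∈ t, e j * Q j w w' =
      c * ∑ j ∈ t, e j * ∑ w ∈ s, ∑ w' ∈ s, Q j w w' := by
  have h1 : ∑ j ∈ t, e j * ∑ w ∈ s, ∑ w' ∈ s, Q j w w' =
      ∑ w ∈ s, ∑ w' ∈ s, ∑ j ∈ t, e j * Q j w w' := by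
    have h2 : ∀ j ∈ t, e j * ∑ w ∈ s, ∑ w' ∈ s, Q j w w' =
        ∑ w ∈ s, ∑ w' ∈ s, e j * Q j w w' := by
      intro j _
      rw [mul_sum]
      apply sum_congr rfl
      intro w _
      rw [mul_sum]
    rw [sum_congr rfl h2, sum_comm]
    apply sum_congr rfl
    intro w _
    rw [sum_comm]
  rw [h1, mul_sum]
  apply sum_congr rfl
  intro w _
  rw [mul_sum]

theorem kindB (hf : ∀ z, 0 < f z) (hK : 0 ≤ K) (hF : Fam a f K Lev Fs) (A : Finset C) (S : ℕ)
    (u : ℝ) (tt : (Fin m → ℤ) → (Fin m → ℤ) → ℤ) :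
    ∑ w ∈ Lev, ∑ w' ∈ Lev, ∑ z ∈ Fs w ∩ Fs w', f z * ind (
        (0 ≤ tt w w' ∧ (∀ c ∈ A, tt w w' ≤ lv a w' c - lv a w c) ∧
          ∀ c ∉ A, lv a w' c - lv a w c ≤ tt w w') ∧
        (∀ c ∉ A, Vt f {c} (lv a w) (max (lv a w' c - lv a w c) 0) z ≤ S) ∧
        (∀ c ∈ A, Vt f {c} (lv a w) (tt w w') z ≤ S) ∧
        V f A (lv a w) z - Vt f A (lv a w) (tt w w') z - V f A (lv a w') z ≤ -u) ≤
      K * Real.exp (-u) * (((Fintype.card C * S : ℕ) + 1) * (3 * lam (Fintype.card C) S + 1)) *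
        TT Lev Fs := by
  have hKu : 0 ≤ K * Real.exp (-u) := mul_nonneg hK (Real.exp_pos _).le
  set N : ℕ := Fintype.card C * S with hN
  set E : ℕ → (Fin m → ℤ) → Zs C L → Prop := fun j w z =>
    ∃ t : ℤ, 0 ≤ t ∧ (j : ℝ) ≤ Vt f A (lv a w) t z with hE
  have hpair : ∀ w ∈ Lev, ∀ w' ∈ Lev, ∑ z ∈ Fs w ∩ Fs w', f z * ind (
        (0 ≤ tt w w' ∧ (∀ c ∈ A, tt w w' ≤ lv a w' c - lv a w c) ∧
          ∀ c ∉ A, lv a w' c - lv a w c ≤ tt w w') ∧
        (∀ c ∉ A, Vt f {c} (lv a w) (max (lv a w' c - lv a w c) 0) z ≤ S) ∧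
        (∀ c ∈ A, Vt f {c} (lv a w) (tt w w') z ≤ S) ∧
        V f A (lv a w) z - Vt f A (lv a w) (tt w w') z - V f A (lv a w') z ≤ -u) ≤
      K * Real.exp (-u) * ∑ j ∈ range (N + 1), Real.exp (j + 1) *
        ∑ z ∈ Fs w, Real.exp (V f Aᶜ (lv a w) z) *
        ind (z ∈ Fs w' ∧ KindA_bud a f A S w w' z) * ind (E j w z) := by
    intro w hw w' hw'
    have hRnn : 0 ≤ ∑ j ∈ range (N + 1), Real.exp ((j : ℝ) + 1) *
        ∑ z ∈ Fs w, Real.exp (V f Aᶜ (lv a w) z) *
        ind (z ∈ Fs w' ∧ KindA_bud a f A S w w' z) * ind (E j w z) := by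
      apply sum_nonneg
      intro j _
      apply mul_nonneg (Real.exp_pos _).le
      apply sum_nonneg
      intro z _
      exact mul_nonneg (mul_nonneg (Real.exp_pos _).le (KindA_ind_nonneg _)) (KindA_ind_nonneg _)
    by_cases hadm : (0 ≤ tt w w' ∧ (∀ c ∈ A, tt w w' ≤ lv a w' c - lv a w c) ∧
          ∀ c ∉ A, lv a w' c - lv a w c ≤ tt w w')
    · set g : Zs C L → ℝ := fun z => Real.exp (Vt f A (lv a w) (tt w w') z) *
        ind (∀ c ∈ A, Vt f {c} (lv a w) (tt w w') z ≤ S) with hg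
      have hgnn : ∀ z, 0 ≤ g z := fun z =>
        mul_nonneg (Real.exp_pos _).le (KindA_ind_nonneg _)
      have hgdep : Dep (KindA_DD a L A (tt w w') w w') g := by
        intro z z' hz
        have hsub := KindA_sub3 (L := L) (a := a) (A := A) (w := w) (w' := w') hadm.2.1
          (le_refl (tt w w'))
        have h1 : Vt f A (lv a w) (tt w w') z = Vt f A (lv a w) (tt w w') z' :=
          KindA_dep_mono (Vt_dep (f := f) A (lv a w) (tt w w')) hsub z z' hz
        have h2 : (∀ c ∈ A, Vt f {c} (lv a w) (tt w w') z ≤ S) =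
            (∀ c ∈ A, Vt f {c} (lv a w) (tt w w') z' ≤ S) := by
          apply propext
          apply forall_congr'
          intro c
          apply forall_congr'
          intro _
          rw [KindA_dep_mono (Vt_dep (f := f) {c} (lv a w) (tt w w')) hsub z z' hz]
        simp only [hg]
        rw [h1, h2]
      have h1 := KindA_hyb hf hF A S hw hw' hadm.1 hadm.2.1 hadm.2.2 g hgdep
      -- the right hand side of the hybrid identity is bounded by the layers
      have h2 : ∑ z, (ind (z ∈ Fs w ∧ z ∈ Fs w' ∧ KindA_bud a f A S w w' z) * g z) *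
            Real.exp (V f Aᶜ (lv a w) z) ≤
          ∑ j ∈ range (N + 1), Real.exp ((j : ℝ) + 1) *
            ∑ z ∈ Fs w, Real.exp (V f Aᶜ (lv a w) z) *
            ind (z ∈ Fs w' ∧ KindA_bud a f A S w w' z) * ind (E j w z) := by
        have h3 : ∑ j ∈ range (N + 1), Real.exp ((j : ℝ) + 1) *
            ∑ z ∈ Fs w, Real.exp (V f Aᶜ (lv a w) z) *
            ind (z ∈ Fs w' ∧ KindA_bud a f A S w w' z) * ind (E j w z) =
            ∑ z ∈ Fs w, (Real.exp (V f Aᶜ (lv a w) z) *
            ind (z ∈ Fs w' ∧ KindA_bud a f A S w w' z)) *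
            ∑ j ∈ range (N + 1), Real.exp ((j : ℝ) + 1) * ind (E j w z) := by
          simp only [mul_sum]
          rw [sum_comm]
          apply sum_congr rfl
          intro z _
          apply sum_congr rfl
          intro j _
          ring
        rw [h3, ← Finset.sum_filter_add_sum_filter_not Finset.univ (fun z => z ∈ Fs w),
          Finset.filter_mem_eq_inter, Finset.univ_inter]
        rw [Finset.sum_eq_zero (s := Finset.univ.filter fun z => ¬ z ∈ Fs w), add_zero]
        · apply sum_le_sum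
          intro z hz
          rw [KindA_ind_and (z ∈ Fs w), KindA_ind_true hz, one_mul]
          have h4 : g z ≤ ∑ j ∈ range (N + 1), Real.exp ((j : ℝ) + 1) * ind (E j w z) := by
            simp only [hg]
            by_cases hb : ∀ c ∈ A, Vt f {c} (lv a w) (tt w w') z ≤ S
            · rw [KindA_ind_true hb, mul_one]
              apply KindA_layer
              · rw [Vt_sum, hN]
                calc ∑ c ∈ A, Vt f {c} (lv a w) (tt w w') z ≤ ∑ c ∈ A, (S : ℝ) :=
                      sum_le_sum fun c hc => hb c hc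
                  _ = (A.card : ℝ) * S := by rw [sum_const, nsmul_eq_mul]
                  _ ≤ (Fintype.card C : ℝ) * S := by
                      have : (A.card : ℝ) ≤ Fintype.card C := by exact_mod_cast card_le_univ A
                      gcongr
                  _ = ((Fintype.card C * S : ℕ) : ℝ) := by push_cast; ring
              · exact ⟨0, le_rfl, by rw [Vt_nonpos A (lv a w) le_rfl z]; simp⟩
              · intro j hj
                exact ⟨tt w w', hadm.1, hj⟩
            · rw [KindA_ind_false hb, mul_zero]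
              apply sum_nonneg
              intro j _
              exact mul_nonneg (Real.exp_pos _).le (KindA_ind_nonneg _)
          calc ind (z ∈ Fs w' ∧ KindA_bud a f A S w w' z) * g z * Real.exp (V f Aᶜ (lv a w) z)
              = (Real.exp (V f Aᶜ (lv a w) z) *
                ind (z ∈ Fs w' ∧ KindA_bud a f A S w w' z)) * g z := by ring
            _ ≤ _ := mul_le_mul_of_nonneg_left h4
                (mul_nonneg (Real.exp_pos _).le (KindA_ind_nonneg _))
        · intro z hz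
          rw [mem_filter] at hz
          rw [KindA_ind_and (z ∈ Fs w), KindA_ind_false hz.2]
          ring
      refine le_trans ?_ (mul_le_mul_of_nonneg_left h2 hKu)
      rw [← h1, mul_sum]
      rw [← Finset.sum_filter_add_sum_filter_not Finset.univ (fun z => z ∈ Fs w ∩ Fs w'),
        Finset.filter_mem_eq_inter, Finset.univ_inter]
      apply le_add_of_le_of_nonneg
      · apply sum_le_sum
        intro z hz
        have hz' := Finset.mem_inter.1 hz
        by_cases hev : ((0 ≤ tt w w' ∧ (∀ c ∈ A, tt w w' ≤ lv a w' c - lv a w c) ∧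
          ∀ c ∉ A, lv a w' c - lv a w c ≤ tt w w') ∧
        (∀ c ∉ A, Vt f {c} (lv a w) (max (lv a w' c - lv a w c) 0) z ≤ S) ∧
        (∀ c ∈ A, Vt f {c} (lv a w) (tt w w') z ≤ S) ∧
        V f A (lv a w) z - Vt f A (lv a w) (tt w w') z - V f A (lv a w') z ≤ -u)
        · have hb : KindA_bud a f A S w w' z := hev.2.1
          rw [KindA_ind_true hev, KindA_ind_true ⟨hz'.1, hz'.2, hb⟩, mul_one, one_mul]
          simp only [hg]
          rw [KindA_ind_true hev.2.2.1, mul_one]
          have h3 := KindA_f_le hf hF A hw hz'.1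
          have h4 : Real.exp (V f A (lv a w) z) ≤ Real.exp (-u) *
              (Real.exp (Vt f A (lv a w) (tt w w') z) * Real.exp (V f A (lv a w') z)) := by
            rw [← Real.exp_add, ← Real.exp_add]
            apply Real.exp_le_exp.2
            linarith [hev.2.2.2]
          calc f z ≤ K * (Real.exp (V f A (lv a w) z) * Real.exp (V f Aᶜ (lv a w) z)) := h3
            _ ≤ K * ((Real.exp (-u) * (Real.exp (Vt f A (lv a w) (tt w w') z) *
                Real.exp (V f A (lv a w') z))) * Real.exp (V f Aᶜ (lv a w) z)) := by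
                apply mul_le_mul_of_nonneg_left _ hK
                exact mul_le_mul_of_nonneg_right h4 (Real.exp_pos _).le
            _ = _ := by ring
        · rw [KindA_ind_false hev, mul_zero]
          apply mul_nonneg hKu
          apply mul_nonneg
          · exact mul_nonneg (KindA_ind_nonneg _) (hgnn z)
          · positivity
      · apply sum_nonneg
        intro z _
        apply mul_nonneg hKu
        apply mul_nonneg
        · exact mul_nonneg (KindA_ind_nonneg _) (hgnn z)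
        · positivity
    · rw [Finset.sum_eq_zero]
      · exact mul_nonneg hKu hRnn
      · intro z _
        rw [KindA_ind_false (fun h => hadm h.1), mul_zero]
  have hTT : 0 ≤ TT Lev Fs := KindA_TT_nonneg
  have hcomb : ∀ j : ℕ, ∑ w ∈ Lev, ∑ z ∈ Fs w, Real.exp (V f Aᶜ (lv a w) z) *
      (NA a f Lev Fs A S (lv a w) z : ℝ) * ind (E j w z) ≤
      (lam (Fintype.card C) S * Real.exp (-(j : ℝ)) +
        Real.exp (-(Fintype.card C * S : ℝ) - 1)) * TT Lev Fs := by
    intro j
    apply comb hf hF A S (E j) (Real.exp (-(j : ℝ))) (Real.exp_pos _).le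
    rw [TT, mul_sum]
    apply sum_le_sum
    intro w hw
    exact vil_up hf (lv a w) A (Fs w) (hF.dep w hw) j
  have hlam := KindA_lam_nonneg (Fintype.card C) S
  calc _ ≤ ∑ w ∈ Lev, ∑ w' ∈ Lev, K * Real.exp (-u) * ∑ j ∈ range (N + 1),
        Real.exp ((j : ℝ) + 1) * ∑ z ∈ Fs w, Real.exp (V f Aᶜ (lv a w) z) *
        ind (z ∈ Fs w' ∧ KindA_bud a f A S w w' z) * ind (E j w z) :=
        sum_le_sum fun w hw => sum_le_sum fun w' hw' => hpair w hw w' hw'
    _ = K * Real.exp (-u) * ∑ j ∈ range (N + 1), Real.exp ((j : ℝ) + 1) *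
        ∑ w ∈ Lev, ∑ z ∈ Fs w, Real.exp (V f Aᶜ (lv a w) z) *
        (NA a f Lev Fs A S (lv a w) z : ℝ) * ind (E j w z) := by
        have h5 : ∀ j : ℕ, ∑ w ∈ Lev, ∑ z ∈ Fs w, Real.exp (V f Aᶜ (lv a w) z) *
            (NA a f Lev Fs A S (lv a w) z : ℝ) * ind (E j w z) =
            ∑ w ∈ Lev, ∑ w' ∈ Lev, ∑ z ∈ Fs w, Real.exp (V f Aᶜ (lv a w) z) *
            ind (z ∈ Fs w' ∧ KindA_bud a f A S w w' z) * ind (E j w z) := fun j =>
          (KindA_sum_swap A S (E j)).symm
        rw [KindA_swap3 Lev (range (N + 1)) (K * Real.exp (-u)) (fun j => Real.exp ((j : ℝ) + 1))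
          (fun j w w' => ∑ z ∈ Fs w, Real.exp (V f Aᶜ (lv a w) z) *
            ind (z ∈ Fs w' ∧ KindA_bud a f A S w w' z) * ind (E j w z))]
        congr 1
        apply sum_congr rfl
        intro j _
        rw [h5 j]
    _ ≤ K * Real.exp (-u) * ∑ j ∈ range (N + 1), Real.exp ((j : ℝ) + 1) *
        ((lam (Fintype.card C) S * Real.exp (-(j : ℝ)) +
        Real.exp (-(Fintype.card C * S : ℝ) - 1)) * TT Lev Fs) := by
        apply mul_le_mul_of_nonneg_left _ hKu
        apply sum_le_sum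
        intro j _
        exact mul_le_mul_of_nonneg_left (hcomb j) (Real.exp_pos _).le
    _ ≤ K * Real.exp (-u) * ∑ j ∈ range (N + 1),
        ((3 * lam (Fintype.card C) S + 1) * TT Lev Fs) := by
        apply mul_le_mul_of_nonneg_left _ hKu
        apply sum_le_sum
        intro j hj
        rw [mem_range] at hj
        rw [← mul_assoc]
        apply mul_le_mul_of_nonneg_right _ hTT
        have h6 : Real.exp ((j : ℝ) + 1) * (lam (Fintype.card C) S * Real.exp (-(j : ℝ)) +
            Real.exp (-(Fintype.card C * S : ℝ) - 1)) =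
            lam (Fintype.card C) S * (Real.exp ((j : ℝ) + 1) * Real.exp (-(j : ℝ))) +
            Real.exp ((j : ℝ) + 1) * Real.exp (-(Fintype.card C * S : ℝ) - 1) := by ring
        rw [h6, ← Real.exp_add, ← Real.exp_add]
        have h7 : (j : ℝ) + 1 + -(j : ℝ) = 1 := by ring
        rw [h7]
        have h8 : Real.exp 1 ≤ 3 := by
          have := Real.exp_one_lt_d9
          linarith
        have h9 : Real.exp ((j : ℝ) + 1 + (-(Fintype.card C * S : ℝ) - 1)) ≤ 1 := by
          rw [Real.exp_le_one_iff]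
          have h10 : (j : ℝ) ≤ (N : ℝ) := by exact_mod_cast (by omega : j ≤ N)
          have h11 : (N : ℝ) = (Fintype.card C : ℝ) * S := by rw [hN]; push_cast; ring
          linarith
        have h12 : lam (Fintype.card C) S * Real.exp 1 ≤ 3 * lam (Fintype.card C) S := by
          nlinarith
        linarith
    _ = _ := by
        rw [sum_const, card_range, nsmul_eq_mul]
        push_cast
        ring

end Zyg
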