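import Pool.Agent.Work.MP_93d592_an.A.Base

/-! # Pairs : the series (job pairs_series) -/

open Finset
open scoped Classical

noncomputable section

namespace Zyg

/-- `P(S) e^{-κ S}` is summable -/
theorem pairs_series (n : ℕ) (κ : ℝ) (hκ : 0 < κ) :
    Summable fun S : ℕ => (((n * (S + 1) : ℕ) + 1 : ℝ) * (3 * lam n (S + 1) + 1)) *
      Real.exp (-κ * S) := by
  set A : ℝ := (n + 1) * (192 * Real.exp 3 * ((4 * (n + 3)) ^ n) ^ 3 + 1) * Real.exp κ with hA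
  have h1 : Summable fun S : ℕ => A * (((S + 1 : ℕ) : ℝ) ^ (3 * n + 1) *
      Real.exp (-κ * ((S + 1 : ℕ) : ℝ))) := by
    have h2 := Real.summable_pow_mul_exp_neg_nat_mul (3 * n + 1) hκ
    exact ((summable_nat_add_iff 1).2 h2).mul_left A
  refine Summable.of_nonneg_of_le (fun S => ?_) (fun S => ?_) h1
  · unfold lam Bp
    positivity
  · have hS : (1 : ℝ) ≤ ((S + 1 : ℕ) : ℝ) := by
      push_cast
      linarith [(Nat.cast_nonneg S : (0 : ℝ) ≤ S)]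
    have hexp : Real.exp (-κ * S) = Real.exp κ * Real.exp (-κ * ((S + 1 : ℕ) : ℝ)) := by
      rw [← Real.exp_add]
      congr 1
      push_cast
      ring
    have e1 : ((n * (S + 1) : ℕ) + 1 : ℝ) ≤ (n + 1) * ((S + 1 : ℕ) : ℝ) := by
      push_cast at hS ⊢
      nlinarith
    have e2 : lam n (S + 1) ≤ 64 * Real.exp 3 * ((4 * (n + 3)) ^ n) ^ 3 *
        ((S + 1 : ℕ) : ℝ) ^ (3 * n) := by
      unfold lam Bp
      have h3 : 4 * (((n * (S + 1) + 3 : ℕ)) : ℝ) ≤ (4 * (n + 3)) * ((S + 1 : ℕ) : ℝ) := by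
        push_cast at hS ⊢
        nlinarith
      have h4 : (4 * (((n * (S + 1) + 3 : ℕ)) : ℝ)) ^ n ≤
          ((4 * (n + 3)) * ((S + 1 : ℕ) : ℝ)) ^ n := pow_le_pow_left₀ (by positivity) h3 n
      have h5 : (4 * (4 * (((n * (S + 1) + 3 : ℕ)) : ℝ)) ^ n) ^ 3 ≤
          (4 * ((4 * (n + 3)) * ((S + 1 : ℕ) : ℝ)) ^ n) ^ 3 :=
        pow_le_pow_left₀ (by positivity) (by linarith) 3
      calc Real.exp 3 * (4 * (4 * (((n * (S + 1) + 3 : ℕ)) : ℝ)) ^ n) ^ 3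
          ≤ Real.exp 3 * (4 * ((4 * (n + 3)) * ((S + 1 : ℕ) : ℝ)) ^ n) ^ 3 :=
            mul_le_mul_of_nonneg_left h5 (Real.exp_pos _).le
        _ = 64 * Real.exp 3 * ((4 * (n + 3)) ^ n) ^ 3 * ((S + 1 : ℕ) : ℝ) ^ (3 * n) := by
            rw [mul_pow (4 * ((n : ℝ) + 3)), mul_pow, mul_pow, ← pow_mul ((S + 1 : ℕ) : ℝ),
              mul_comm n 3]
            ring
    have e3 : (1 : ℝ) ≤ ((S + 1 : ℕ) : ℝ) ^ (3 * n) := one_le_pow₀ hS
    have e4 : 3 * lam n (S + 1) + 1 ≤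
        (192 * Real.exp 3 * ((4 * (n + 3)) ^ n) ^ 3 + 1) * ((S + 1 : ℕ) : ℝ) ^ (3 * n) := by
      linarith
    have e5 : 0 ≤ 3 * lam n (S + 1) + 1 := by
      unfold lam Bp
      positivity
    calc ((n * (S + 1) : ℕ) + 1 : ℝ) * (3 * lam n (S + 1) + 1) * Real.exp (-κ * S)
        ≤ ((n + 1) * ((S + 1 : ℕ) : ℝ)) * ((192 * Real.exp 3 * ((4 * (n + 3)) ^ n) ^ 3 + 1) *
          ((S + 1 : ℕ) : ℝ) ^ (3 * n)) * Real.exp (-κ * S) :=
          mul_le_mul_of_nonneg_right (mul_le_mul e1 e4 e5 (by positivity)) (Real.exp_pos _).le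
      _ = A * (((S + 1 : ℕ) : ℝ) ^ (3 * n + 1) * Real.exp (-κ * ((S + 1 : ℕ) : ℝ))) := by
          rw [hexp, hA, pow_succ]
          ring

end Zyg
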