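import Pool.Agent.Work.MP_93d592_an.A.Pairs_pt
import Pool.Agent.Work.MP_93d592_an.A.Pairs_series

/-!
# Pairs : the number of close pairs (A9)

PROOF. Notation `l = lv a w`, `l' = lv a w'`, `σ c = l' c - l c = lv a (w' - w) c`, `n = card C`.
`Cd` from `delta a Cx (log K)`, `η = 1/(8 n Cd)` (if `n = 0` everything is trivial), `C0 ∈ ℕ` large:
`C0 ≥ 8 n Cd`, `η C0 > log K`.
For `z ∈ Fs w ∩ Fs w'`: `Y(w,w') = max(0, Vt f {c} l (σ c') z over (c,c') with σ c ≥ σ c' > 0)`,
`Y* = max(Y(w,w'), Y(w',w))`, `S = ⌊Y*⌋`.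
* `S < C0`: all budgets `Vt f {c} l (max (σ c) 0) z ≤ C0`: `kindD`.
* `S ≥ C0`. By symmetry (swap `w, w'`: the double sum over `Lev × Lev` is symmetric) assume
  `Y* = Y(w,w')`. `x = S/(4n)`, `δ c = V f {c} l z - V f {c} l' z`,
  `∑ δ = log av(D l') - log av(D l)` (`f_eq`, `V_sum`), so `|∑ δ| ≤ log K`.
  (a) some `Vt f {c} l t z ≤ -x`, `t ≥ 0`: `kindC` with `S + 1` (all budgets are `≤ Y(w,w') ≤ S+1`).
  (b) some `A ≠ ∅`, upper (`σ c' ≤ σ c` for `c ∈ A`, `c' ∉ A`), `0 ≤ σ` on `A`, `∑_A δ ≤ -η S`: `kindA`
      for `(w,w')`, `S+1`, `u = η S`, `tt w w' = min_A σ` (a function of `w, w'` for fixed `A`).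
  (b') some upper `A ≠ univ` with `σ < 0` somewhere on `A`, `∑_A δ ≤ -η S`: then `σ < 0` off `A`; `kindA`
      for the pair `(w',w)` and the set `Aᶜ`, `tt w' w = min_{Aᶜ} (-σ) > 0` (`Aᶜ ≠ ∅`),
      `V Aᶜ l' - V Aᶜ l = ∑_A δ - ∑ δ ≤ -η S + log K`, `u = η S - log K`, budgets
      `Vt f {c} l' (max (-σ c) 0) z ≤ Y(w',w) ≤ S + 1`.
      (`A = univ`: `∑ δ ≥ -log K > -η S`; `A = ∅`: `0`.)
  (c) otherwise `delta` with `u = η S`: `|δ c| ≤ Cd (1 + η S)`, so `∑_A δ ≤ S/4` for all `A`. Let
      `(c₀,c₁)` attain `Y(w,w') ≥ S`: `σ c₀ ≥ σ c₁ > 0`, `A = {c | σ c₁ ≤ σ c} ∋ c₀`, `t = σ c₁`: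
      `Vt f A l t z ≥ S - n x = 3S/4` (not (a)), so
      `V f A l z - Vt f A l t z - V f A l' z = ∑_A δ - Vt ≤ -S/2`: `kindB` with `S + 1`, `u = S/2`,
      `tt w w' = σ c₁` (sum over `A` and `c₁`).
Sum: `f z [close] ≤ f z [budgets ≤ C0] + ∑_{S ≥ C0} ∑_types (f z [type, (w,w')] + f z [type, (w',w)])`;
the range of `S` is finite for a given `f` (finitely many `z, w, w'`), the bounds are
`P(S) e^{-κ S}` with a polynomial `P` (`lam n (S+1)` is a polynomial in `S`) and `κ > 0` depending on
`n, η` only: the series converges to a constant which does not depend on `L, f, Lev, Fs`.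
`pairs_pt` is the pointwise part, `pairs_series` the real series; use them or replace them.
-/

open Finset
open scoped Classical

noncomputable section

namespace Zyg

variable {C : Type} [Fintype C] [LinearOrder C] {m : ℕ}

section phi

variable {L : ℕ}

/-- the weighted sum over the pairs of boxes -/
def pairs_Phi (f : Zs C L → ℝ) (Lev : Finset (Fin m → ℤ)) (Fs : (Fin m → ℤ) → Finset (Zs C L))
    (g : (Fin m → ℤ) → (Fin m → ℤ) → Zs C L → ℝ) : ℝ :=
  ∑ w ∈ Lev, ∑ w' ∈ Lev, ∑ z ∈ Fs w ∩ Fs w', f z * g w w' z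

variable {f : Zs C L → ℝ} {Lev : Finset (Fin m → ℤ)} {Fs : (Fin m → ℤ) → Finset (Zs C L)}

theorem pairs_Phi_add (g h : (Fin m → ℤ) → (Fin m → ℤ) → Zs C L → ℝ) :
    pairs_Phi f Lev Fs (fun w w' z => g w w' z + h w w' z) =
      pairs_Phi f Lev Fs g + pairs_Phi f Lev Fs h := by
  unfold pairs_Phi
  rw [← Finset.sum_add_distrib]
  refine Finset.sum_congr rfl fun w _ => ?_
  rw [← Finset.sum_add_distrib]
  refine Finset.sum_congr rfl fun w' _ => ?_
  rw [← Finset.sum_add_distrib]
  exact Finset.sum_congr rfl fun z _ => mul_add _ _ _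

theorem pairs_Phi_sum {κ : Type*} (s : Finset κ)
    (g : κ → (Fin m → ℤ) → (Fin m → ℤ) → Zs C L → ℝ) :
    pairs_Phi f Lev Fs (fun w w' z => ∑ k ∈ s, g k w w' z) =
      ∑ k ∈ s, pairs_Phi f Lev Fs (g k) := by
  unfold pairs_Phi
  symm
  rw [Finset.sum_comm]
  refine Finset.sum_congr rfl fun w _ => ?_
  rw [Finset.sum_comm]
  refine Finset.sum_congr rfl fun w' _ => ?_
  rw [Finset.sum_comm]
  exact Finset.sum_congr rfl fun z _ => (Finset.mul_sum _ _ _).symm

theorem pairs_Phi_mono (hf : ∀ z, 0 < f z) {g h : (Fin m → ℤ) → (Fin m → ℤ) → Zs C L → ℝ}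
    (hgh : ∀ w ∈ Lev, ∀ w' ∈ Lev, ∀ z ∈ Fs w ∩ Fs w', g w w' z ≤ h w w' z) :
    pairs_Phi f Lev Fs g ≤ pairs_Phi f Lev Fs h :=
  Finset.sum_le_sum fun w hw => Finset.sum_le_sum fun w' hw' => Finset.sum_le_sum fun z hz =>
    mul_le_mul_of_nonneg_left (hgh w hw w' hw' z hz) (hf z).le

theorem pairs_Phi_swap (g : (Fin m → ℤ) → (Fin m → ℤ) → Zs C L → ℝ) :
    pairs_Phi f Lev Fs (fun w w' z => g w' w z) = pairs_Phi f Lev Fs g := by
  unfold pairs_Phi
  rw [Finset.sum_comm]
  refine Finset.sum_congr rfl fun w _ => Finset.sum_congr rfl fun w' _ => ?_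
  rw [Finset.inter_comm]

end phi

theorem pairs_ind_nonneg (P : Prop) : 0 ≤ ind P := by
  unfold ind
  split_ifs <;> norm_num

theorem pairs_ind_true {P : Prop} (h : P) : ind P = 1 := if_pos h

theorem pairs_ind_le_one (P : Prop) : ind P ≤ 1 := by
  unfold ind
  split_ifs <;> norm_num

theorem pairs (a : C → Fin m → ℕ) (ha : ∀ c, ∑ i, a c i = 2) (K Cx : ℝ) (hK : 1 ≤ K)
    (hCx : 0 ≤ Cx) :
    ∃ Cp : ℝ, 0 < Cp ∧ ∀ (L : ℕ) (f : Zs C L → ℝ), (∀ z, 0 < f z) →
      ∀ (Lev : Finset (Fin m → ℤ)) (Fs : (Fin m → ℤ) → Finset (Zs C L)), Fam a f K Lev Fs →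
      ∑ w ∈ Lev, ∑ w' ∈ Lev, ∑ z ∈ Fs w ∩ Fs w', f z *
        ind (∀ i, |XX a f (lv a w) i z - XX a f (lv a w') i z| ≤ Cx) ≤ Cp * TT Lev Fs := by
  have hK0 : 0 ≤ K := by linarith
  have hT0 : ∀ (L : ℕ) (Lev : Finset (Fin m → ℤ)) (Fs : (Fin m → ℤ) → Finset (Zs C L)),
      0 ≤ TT Lev Fs := fun L Lev Fs => Finset.sum_nonneg fun w _ => Nat.cast_nonneg _
  rcases Nat.eq_zero_or_pos (Fintype.card C) with hn0 | hnpos
  · -- no coordinates
    have hE : IsEmpty C := Fintype.card_eq_zero_iff.mp hn0
    refine ⟨K * Real.exp (Fintype.card C * ((0 : ℕ) : ℝ)) * Bp (Fintype.card C) 2 ^ 2 + 1, ?_, ?_⟩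
    · have : 0 ≤ Bp (Fintype.card C) 2 := by
        unfold Bp
        positivity
      positivity
    · intro L f hf Lev Fs hF
      have h1 := kindD hf hK0 hF 0
      refine le_trans ?_ (h1.trans ?_)
      · refine Finset.sum_le_sum fun w _ => Finset.sum_le_sum fun w' _ =>
          Finset.sum_le_sum fun z _ => mul_le_mul_of_nonneg_left ?_ (hf z).le
        rw [pairs_ind_true (P := ∀ c, Vt f {c} (lv a w) (max (lv a w' c - lv a w c) 0) z
          ≤ ((0 : ℕ) : ℝ)) (fun c => hE.elim c)]
        exact pairs_ind_le_one _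
      · have := hT0 L Lev Fs
        nlinarith
  · set n := Fintype.card C with hn
    have hn1 : (1 : ℝ) ≤ n := by exact_mod_cast hnpos
    obtain ⟨η, C0, hη, hpt⟩ := pairs_pt a ha K Cx hK hCx
    set κ : ℝ := min η (1 / (4 * n)) with hκ
    have hκpos : 0 < κ := lt_min hη (by positivity)
    have hκη : κ ≤ η := min_le_left _ _
    have hκn : κ ≤ 1 / (4 * n) := min_le_right _ _
    have hκ4 : κ ≤ 1 / 4 := hκn.trans (by
      apply one_div_le_one_div_of_le (by norm_num)
      linarith)
    have hsum := pairs_series n κ hκpos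
    set P : ℕ → ℝ := fun S => ((n * (S + 1) : ℕ) + 1 : ℝ) * (3 * lam n (S + 1) + 1) with hP
    have hlam : ∀ S, 0 ≤ lam n S := fun S => by
      unfold lam Bp
      positivity
    have hP1 : ∀ S, 3 * lam n (S + 1) + 1 ≤ P S := fun S => by
      have := hlam (S + 1)
      have h2 : (0 : ℝ) ≤ ((n * (S + 1) : ℕ) : ℝ) := Nat.cast_nonneg _
      rw [hP]
      simp only
      nlinarith
    have hP0 : ∀ S, 0 ≤ P S := fun S => by
      have := hP1 S
      have := hlam (S + 1)
      linarith
    have hPl : ∀ S, lam n (S + 1) ≤ P S := fun S => by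
      have := hP1 S
      have := hlam (S + 1)
      linarith
    set c1 : ℝ := K * (n + 1) + 2 ^ n * (K * K) + 2 ^ n * n * K with hc1
    have hc10 : 0 ≤ c1 := by positivity
    set D0 : ℝ := K * Real.exp (n * C0) * Bp n 2 ^ 2 with hD0
    have hD00 : 0 ≤ D0 := by
      have : 0 ≤ Bp n 2 := by
        unfold Bp
        positivity
      positivity
    set Sg : ℝ := ∑' S, P S * Real.exp (-κ * S) with hSg
    have hSg0 : 0 ≤ Sg := tsum_nonneg fun S => mul_nonneg (hP0 S) (Real.exp_pos _).le
    refine ⟨D0 + 2 * c1 * Sg + 1, by positivity, ?_⟩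
    intro L f hf Lev Fs hF
    have hT := hT0 L Lev Fs
    set T := TT Lev Fs with hTdef
    -- the remainder of type S
    set R : ℕ → (Fin m → ℤ) → (Fin m → ℤ) → Zs C L → ℝ := fun S w w' z =>
      ind (TyC a f (S + 1) (S / (4 * Fintype.card C)) w w' z) +
        ∑ A : Finset C, ind (TyA a f A (S + 1) (η * S - Real.log K) (tA a A w w') w w' z) +
        ∑ A : Finset C, ∑ c : C,
          ind (TyB a f A (S + 1) (S / 2) (lv a w' c - lv a w c) w w' z) with hR
    have hR0 : ∀ S w w' z, 0 ≤ R S w w' z := fun S w w' z => by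
      rw [hR]
      simp only
      refine add_nonneg (add_nonneg (pairs_ind_nonneg _)
        (Finset.sum_nonneg fun A _ => pairs_ind_nonneg _))
        (Finset.sum_nonneg fun A _ => Finset.sum_nonneg fun c _ => pairs_ind_nonneg _)
    have hPR : ∀ S, pairs_Phi f Lev Fs (R S) ≤ c1 * (P S * Real.exp (-κ * S)) * T := by
      intro S
      have hS0 : (0 : ℝ) ≤ S := Nat.cast_nonneg _
      set X := P S * Real.exp (-κ * S) with hX
      have hX0 : 0 ≤ X := mul_nonneg (hP0 S) (Real.exp_pos _).le
      have e1 : pairs_Phi f Lev Fs (R S) =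
          pairs_Phi f Lev Fs (fun w w' z =>
            ind (TyC a f (S + 1) (S / (4 * Fintype.card C)) w w' z)) +
          ∑ A : Finset C, pairs_Phi f Lev Fs (fun w w' z =>
            ind (TyA a f A (S + 1) (η * S - Real.log K) (tA a A w w') w w' z)) +
          ∑ A : Finset C, ∑ c : C, pairs_Phi f Lev Fs (fun w w' z =>
            ind (TyB a f A (S + 1) (S / 2) (lv a w' c - lv a w c) w w' z)) := by
        rw [hR]
        simp only
        rw [pairs_Phi_add, pairs_Phi_add, pairs_Phi_sum, pairs_Phi_sum]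
        congr 1
        exact Finset.sum_congr rfl fun A _ => pairs_Phi_sum _ _
      -- type C
      have bC : pairs_Phi f Lev Fs (fun w w' z =>
            ind (TyC a f (S + 1) (S / (4 * Fintype.card C)) w w' z)) ≤ K * (n + 1) * X * T := by
        have h := kindC hf hK0 hF (S + 1) (S / (4 * Fintype.card C))
        refine le_trans (le_of_eq ?_) (h.trans ?_)
        · rfl
        · refine mul_le_mul_of_nonneg_right ?_ hT
          have h1 : Real.exp (-(S / (4 * (n : ℝ)))) ≤ Real.exp (-κ * S) := by
            apply Real.exp_le_exp.mpr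
            have : κ * S ≤ 1 / (4 * n) * S := mul_le_mul_of_nonneg_right hκn hS0
            have e : (S : ℝ) / (4 * n) = 1 / (4 * n) * S := by ring
            rw [e]
            linarith
          have h2 : (n : ℝ) * lam n (S + 1) * Real.exp (-(S / (4 * (n : ℝ)))) ≤ n * X := by
            rw [hX, mul_assoc]
            refine mul_le_mul_of_nonneg_left ?_ (by positivity)
            exact mul_le_mul (hPl S) h1 (Real.exp_pos _).le (hP0 S)
          have h3 : Real.exp (-((n : ℝ) * ((S + 1 : ℕ) : ℝ)) - 1) ≤ X := by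
            have h4 : Real.exp (-((n : ℝ) * ((S + 1 : ℕ) : ℝ)) - 1) ≤ Real.exp (-κ * S) := by
              apply Real.exp_le_exp.mpr
              push_cast
              have : κ * S ≤ 1 / 4 * S := mul_le_mul_of_nonneg_right hκ4 hS0
              have : (S : ℝ) + 1 ≤ n * (S + 1) := by nlinarith
              linarith
            have h5 : 1 ≤ P S := by
              have := hP1 S
              have := hlam (S + 1)
              linarith
            rw [hX]
            have := Real.exp_pos (-κ * (S : ℝ))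
            nlinarith
          have h6 := mul_le_mul_of_nonneg_left (add_le_add h2 h3) hK0
          refine h6.trans (le_of_eq ?_)
          ring
      have bA : ∀ A : Finset C, pairs_Phi f Lev Fs (fun w w' z =>
            ind (TyA a f A (S + 1) (η * S - Real.log K) (tA a A w w') w w' z))
              ≤ K * K * X * T := by
        intro A
        have h := kindA hf hK0 hF A (S + 1) (η * S - Real.log K) (tA a A)
        refine le_trans (le_of_eq ?_) (h.trans ?_)
        · rfl
        · refine mul_le_mul_of_nonneg_right ?_ hT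
          have h1 : Real.exp (-(η * S - Real.log K)) ≤ K * Real.exp (-κ * S) := by
            have e : -(η * S - Real.log K) = Real.log K + -(η * S) := by ring
            rw [e, Real.exp_add, Real.exp_log (by linarith)]
            refine mul_le_mul_of_nonneg_left (Real.exp_le_exp.mpr ?_) hK0
            have : κ * S ≤ η * S := mul_le_mul_of_nonneg_right hκη hS0
            linarith
          have h2 : lam n (S + 1) + 1 ≤ P S := by
            have := hP1 S
            have := hlam (S + 1)
            linarith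
          calc K * Real.exp (-(η * S - Real.log K)) * (lam n (S + 1) + 1)
              ≤ K * (K * Real.exp (-κ * S)) * P S := by
                refine mul_le_mul (mul_le_mul_of_nonneg_left h1 hK0) h2 ?_ ?_
                · have := hlam (S + 1)
                  linarith
                · have := Real.exp_pos (-κ * (S : ℝ))
                  positivity
            _ = K * K * X := by
                rw [hX]
                ring
      have bB : ∀ (A : Finset C) (c : C), pairs_Phi f Lev Fs (fun w w' z =>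
            ind (TyB a f A (S + 1) (S / 2) (lv a w' c - lv a w c) w w' z)) ≤ K * X * T := by
        intro A c
        have h := kindB hf hK0 hF A (S + 1) (S / 2) (fun w w' => lv a w' c - lv a w c)
        refine le_trans (le_of_eq ?_) (h.trans ?_)
        · rfl
        · refine mul_le_mul_of_nonneg_right ?_ hT
          have h1 : Real.exp (-((S : ℝ) / 2)) ≤ Real.exp (-κ * S) := by
            apply Real.exp_le_exp.mpr
            have : κ * S ≤ 1 / 4 * S := mul_le_mul_of_nonneg_right hκ4 hS0
            linarith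
          calc K * Real.exp (-((S : ℝ) / 2)) * (((n * (S + 1) : ℕ) + 1) * (3 * lam n (S + 1) + 1))
              ≤ K * Real.exp (-κ * S) * P S := by
                refine mul_le_mul_of_nonneg_right (mul_le_mul_of_nonneg_left h1 hK0) (hP0 S)
            _ = K * X := by
                rw [hX]
                ring
      rw [e1]
      have sA : ∑ A : Finset C, pairs_Phi f Lev Fs (fun w w' z =>
            ind (TyA a f A (S + 1) (η * S - Real.log K) (tA a A w w') w w' z)) ≤
            2 ^ n * (K * K * X * T) := by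
        refine (Finset.sum_le_sum fun A _ => bA A).trans (le_of_eq ?_)
        rw [Finset.sum_const, Finset.card_univ, Fintype.card_finset, nsmul_eq_mul]
        push_cast
        rfl
      have sB : ∑ A : Finset C, ∑ c : C, pairs_Phi f Lev Fs (fun w w' z =>
            ind (TyB a f A (S + 1) (S / 2) (lv a w' c - lv a w c) w w' z)) ≤
            2 ^ n * (n * (K * X * T)) := by
        refine (Finset.sum_le_sum fun A _ => Finset.sum_le_sum fun c _ => bB A c).trans
          (le_of_eq ?_)
        rw [Finset.sum_const, Finset.sum_const, Finset.card_univ, Finset.card_univ,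
          Fintype.card_finset, nsmul_eq_mul, nsmul_eq_mul]
        push_cast
        rfl
      calc _ ≤ K * (n + 1) * X * T + 2 ^ n * (K * K * X * T) + 2 ^ n * (n * (K * X * T)) :=
            add_le_add (add_le_add bC sA) sB
        _ = c1 * X * T := by
            rw [hc1]
            ring
    -- a bound for all S which occur
    have hex : ∃ N : ℕ, ∀ w ∈ Lev, ∀ w' ∈ Lev, ∀ z ∈ Fs w ∩ Fs w',
        ind (∀ i, |XX a f (lv a w) i z - XX a f (lv a w') i z| ≤ Cx) ≤
          ind (∀ c, Vt f {c} (lv a w) (max (lv a w' c - lv a w c) 0) z ≤ C0) +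
            ∑ S ∈ Finset.range N, (R S w w' z + R S w' w z) := by
      have hpt1 : ∀ w ∈ Lev, ∀ w' ∈ Lev, ∀ z ∈ Fs w ∩ Fs w', ∃ S0 : ℕ,
          ind (∀ i, |XX a f (lv a w) i z - XX a f (lv a w') i z| ≤ Cx) ≤
          ind (∀ c, Vt f {c} (lv a w) (max (lv a w' c - lv a w c) 0) z ≤ C0) +
            (R S0 w w' z + R S0 w' w z) := by
        intro w hw w' hw' z hz
        rw [Finset.mem_inter] at hz
        by_cases hcl : ∀ i, |XX a f (lv a w) i z - XX a f (lv a w') i z| ≤ Cx
        · rw [pairs_ind_true hcl]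
          rcases hpt L f hf w w' z ⟨hF.low w hw z hz.1, hF.upp w hw z hz.1⟩
            ⟨hF.low w' hw' z hz.2, hF.upp w' hw' z hz.2⟩ hcl with h | ⟨S, -, w₁, w₂, hww, hty⟩
          · refine ⟨0, ?_⟩
            rw [pairs_ind_true h]
            have := hR0 0 w w' z
            have := hR0 0 w' w z
            linarith
          · refine ⟨S, ?_⟩
            have hR1 : 1 ≤ R S w₁ w₂ z := by
              rw [hR]
              simp only
              have p1 := pairs_ind_nonneg (TyC a f (S + 1) (S / (4 * Fintype.card C)) w₁ w₂ z)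
              have p2 : 0 ≤ ∑ A : Finset C, ind (TyA a f A (S + 1) (η * S - Real.log K)
                  (tA a A w₁ w₂) w₁ w₂ z) := Finset.sum_nonneg fun A _ => pairs_ind_nonneg _
              have p3 : 0 ≤ ∑ A : Finset C, ∑ c : C, ind (TyB a f A (S + 1) (S / 2)
                  (lv a w₂ c - lv a w₁ c) w₁ w₂ z) :=
                Finset.sum_nonneg fun A _ => Finset.sum_nonneg fun c _ => pairs_ind_nonneg _
              rcases hty with h | ⟨A, h⟩ | ⟨A, c, h⟩
              · rw [pairs_ind_true h]
                linarith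
              · have q : ind (TyA a f A (S + 1) (η * S - Real.log K) (tA a A w₁ w₂) w₁ w₂ z) ≤
                    ∑ A : Finset C, ind (TyA a f A (S + 1) (η * S - Real.log K)
                      (tA a A w₁ w₂) w₁ w₂ z) :=
                  Finset.single_le_sum (f := fun A : Finset C => ind (TyA a f A (S + 1)
                    (η * S - Real.log K) (tA a A w₁ w₂) w₁ w₂ z))
                    (fun A _ => pairs_ind_nonneg _) (Finset.mem_univ A)
                rw [pairs_ind_true h] at q
                linarith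
              · have q : ∑ c : C, ind (TyB a f A (S + 1) (S / 2)
                    (lv a w₂ c - lv a w₁ c) w₁ w₂ z) ≤
                    ∑ A : Finset C, ∑ c : C, ind (TyB a f A (S + 1) (S / 2)
                      (lv a w₂ c - lv a w₁ c) w₁ w₂ z) :=
                  Finset.single_le_sum (f := fun A : Finset C => ∑ c : C, ind (TyB a f A (S + 1)
                    (S / 2) (lv a w₂ c - lv a w₁ c) w₁ w₂ z))
                    (fun A _ => Finset.sum_nonneg fun c _ => pairs_ind_nonneg _)
                    (Finset.mem_univ A)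
                have q' : ind (TyB a f A (S + 1) (S / 2) (lv a w₂ c - lv a w₁ c) w₁ w₂ z) ≤
                    ∑ c : C, ind (TyB a f A (S + 1) (S / 2) (lv a w₂ c - lv a w₁ c) w₁ w₂ z) :=
                  Finset.single_le_sum (f := fun c : C => ind (TyB a f A (S + 1)
                    (S / 2) (lv a w₂ c - lv a w₁ c) w₁ w₂ z))
                    (fun c _ => pairs_ind_nonneg _) (Finset.mem_univ c)
                rw [pairs_ind_true h] at q'
                linarith
            have hi := pairs_ind_nonneg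
              (∀ c, Vt f {c} (lv a w) (max (lv a w' c - lv a w c) 0) z ≤ C0)
            rcases hww with ⟨rfl, rfl⟩ | ⟨rfl, rfl⟩
            · have := hR0 S w₂ w₁ z
              linarith
            · have := hR0 S w₂ w₁ z
              linarith
        · refine ⟨0, ?_⟩
          have e : ind (∀ i, |XX a f (lv a w) i z - XX a f (lv a w') i z| ≤ Cx) = 0 := if_neg hcl
          rw [e]
          have := hR0 0 w w' z
          have := hR0 0 w' w z
          have := pairs_ind_nonneg
              (∀ c, Vt f {c} (lv a w) (max (lv a w' c - lv a w c) 0) z ≤ C0)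
          linarith
      choose! S0 hS0 using hpt1
      refine ⟨(Lev.sup fun w => Lev.sup fun w' => (Fs w ∩ Fs w').sup fun z => S0 w w' z) + 1, ?_⟩
      intro w hw w' hw' z hz
      have hle : S0 w w' z ≤ Lev.sup fun w => Lev.sup fun w' =>
          (Fs w ∩ Fs w').sup fun z => S0 w w' z := by
        refine le_trans ?_ (Finset.le_sup (f := fun w => Lev.sup fun w' =>
          (Fs w ∩ Fs w').sup fun z => S0 w w' z) hw)
        refine le_trans ?_ (Finset.le_sup (f := fun w' =>
          (Fs w ∩ Fs w').sup fun z => S0 w w' z) hw')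
        exact Finset.le_sup (f := fun z => S0 w w' z) hz
      refine (hS0 w hw w' hw' z hz).trans ?_
      refine add_le_add le_rfl ?_
      exact Finset.single_le_sum (f := fun S => R S w w' z + R S w' w z)
        (fun S _ => add_nonneg (hR0 S w w' z) (hR0 S w' w z))
        (Finset.mem_range.mpr (Nat.lt_succ_of_le hle))
    obtain ⟨N, hN⟩ := hex
    have hmono := pairs_Phi_mono (f := f) (Lev := Lev) (Fs := Fs) hf
      (g := fun w w' z => ind (∀ i, |XX a f (lv a w) i z - XX a f (lv a w') i z| ≤ Cx))
      (h := fun w w' z =>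
        ind (∀ c, Vt f {c} (lv a w) (max (lv a w' c - lv a w c) 0) z ≤ C0) +
            ∑ S ∈ Finset.range N, (R S w w' z + R S w' w z)) hN
    rw [pairs_Phi_add, pairs_Phi_sum] at hmono
    have hD := kindD hf hK0 hF C0
    have hsumR : ∑ S ∈ Finset.range N, pairs_Phi f Lev Fs (fun w w' z => R S w w' z + R S w' w z)
        ≤ 2 * c1 * Sg * T := by
      have h1 : ∀ S ∈ Finset.range N,
          pairs_Phi f Lev Fs (fun w w' z => R S w w' z + R S w' w z) ≤
            2 * c1 * T * (P S * Real.exp (-κ * S)) := by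
        intro S _
        rw [pairs_Phi_add, pairs_Phi_swap (R S)]
        have := hPR S
        have e : pairs_Phi f Lev Fs (fun w w' z => R S w w' z) = pairs_Phi f Lev Fs (R S) := rfl
        rw [e]
        linarith
      refine (Finset.sum_le_sum h1).trans ?_
      rw [← Finset.mul_sum]
      have h2 : ∑ S ∈ Finset.range N, P S * Real.exp (-κ * S) ≤ Sg :=
        hsum.sum_le_tsum _ fun S _ => mul_nonneg (hP0 S) (Real.exp_pos _).le
      have h3 : 0 ≤ 2 * c1 * T := by positivity
      nlinarith [mul_le_mul_of_nonneg_left h2 h3]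
    have hgoal : pairs_Phi f Lev Fs
        (fun w w' z => ind (∀ i, |XX a f (lv a w) i z - XX a f (lv a w') i z| ≤ Cx)) ≤
        D0 * T + 2 * c1 * Sg * T := by
      refine hmono.trans (add_le_add ?_ hsumR)
      exact hD
    refine le_trans (le_of_eq rfl) (hgoal.trans ?_)
    nlinarith

end Zyg
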