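import Pool.Agent.Work.MP_93d592_an.A.Kind
import Pool.Agent.Work.MP_93d592_an.A.Delta

/-!
# Pairs_pt : the pointwise classification of close pairs (A9)
-/

open Finset
open scoped Classical

noncomputable section

namespace Zyg

variable {C : Type} [Fintype C] [LinearOrder C] {m : ℕ}

/-- the type events at the integer `S` for the pair `(w,w')` -/
def TyA {L : ℕ} (a : C → Fin m → ℕ) (f : Zs C L → ℝ) (A : Finset C) (S : ℕ) (u : ℝ) (t : ℤ)
    (w w' : Fin m → ℤ) (z : Zs C L) : Prop :=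
  (0 ≤ t ∧ (∀ c ∈ A, t ≤ lv a w' c - lv a w c) ∧ ∀ c ∉ A, lv a w' c - lv a w c ≤ t) ∧
    (∀ c ∉ A, Vt f {c} (lv a w) (max (lv a w' c - lv a w c) 0) z ≤ S) ∧
    V f A (lv a w) z - V f A (lv a w') z ≤ -u

def TyB {L : ℕ} (a : C → Fin m → ℕ) (f : Zs C L → ℝ) (A : Finset C) (S : ℕ) (u : ℝ) (t : ℤ)
    (w w' : Fin m → ℤ) (z : Zs C L) : Prop :=
  (0 ≤ t ∧ (∀ c ∈ A, t ≤ lv a w' c - lv a w c) ∧ ∀ c ∉ A, lv a w' c - lv a w c ≤ t) ∧
    (∀ c ∉ A, Vt f {c} (lv a w) (max (lv a w' c - lv a w c) 0) z ≤ S) ∧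
    (∀ c ∈ A, Vt f {c} (lv a w) t z ≤ S) ∧
    V f A (lv a w) z - Vt f A (lv a w) t z - V f A (lv a w') z ≤ -u

def TyC {L : ℕ} (a : C → Fin m → ℕ) (f : Zs C L → ℝ) (S : ℕ) (x : ℝ)
    (w w' : Fin m → ℤ) (z : Zs C L) : Prop :=
  (∀ c, Vt f {c} (lv a w) (max (lv a w' c - lv a w c) 0) z ≤ S) ∧
    ∃ c, ∃ t : ℤ, 0 ≤ t ∧ Vt f {c} (lv a w) t z ≤ -x

/-- smallest value of `lv a w' - lv a w` on `A` -/
def tA (a : C → Fin m → ℕ) (A : Finset C) (w w' : Fin m → ℤ) : ℤ :=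
  if h : A.Nonempty then A.inf' h fun c => lv a w' c - lv a w c else 0

omit [Fintype C] [LinearOrder C] in
theorem ppt_tA_le {a : C → Fin m → ℕ} {A : Finset C} {w w' : Fin m → ℤ} {c : C} (hc : c ∈ A) :
    tA a A w w' ≤ lv a w' c - lv a w c := by
  unfold tA
  rw [dif_pos ⟨c, hc⟩]
  exact Finset.inf'_le _ hc

omit [Fintype C] [LinearOrder C] in
theorem ppt_le_tA {a : C → Fin m → ℕ} {A : Finset C} {w w' : Fin m → ℤ} (hA : A.Nonempty) {k : ℤ}
    (h : ∀ c ∈ A, k ≤ lv a w' c - lv a w c) : k ≤ tA a A w w' := by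
  unfold tA
  rw [dif_pos hA]
  exact Finset.le_inf' _ _ h

omit [Fintype C] [LinearOrder C] in
theorem ppt_lv_sub (a : C → Fin m → ℕ) (w w' : Fin m → ℤ) (c : C) :
    lv a (w' - w) c = lv a w' c - lv a w c := by
  unfold lv
  rw [← Finset.sum_sub_distrib]
  refine Finset.sum_congr rfl fun i _ => ?_
  rw [Pi.sub_apply]
  ring

theorem ppt_exists_Y {L : ℕ} (f : Zs C L → ℝ) (l : C → ℤ) (σ : C → ℤ) (z : Zs C L) :
    ∃ Y : ℝ, 0 ≤ Y ∧ (∀ c c', σ c' ≤ σ c → 0 < σ c' → Vt f {c} l (σ c') z ≤ Y) ∧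
      (Y = 0 ∨ ∃ c₀ c₁, σ c₁ ≤ σ c₀ ∧ 0 < σ c₁ ∧ Y = Vt f {c₀} l (σ c₁) z) := by
  set P : Finset (C × C) := Finset.univ.filter (fun e => σ e.2 ≤ σ e.1 ∧ 0 < σ e.2) with hP
  by_cases hne : P.Nonempty
  · obtain ⟨e, he, hmax⟩ := Finset.exists_max_image P (fun e => Vt f {e.1} l (σ e.2) z) hne
    rw [hP, Finset.mem_filter] at he
    refine ⟨max 0 (Vt f {e.1} l (σ e.2) z), le_max_left _ _, ?_, ?_⟩
    · intro c c' h1 h2
      exact (hmax (c, c') (by rw [hP, Finset.mem_filter]; exact ⟨Finset.mem_univ _, h1, h2⟩)).trans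
        (le_max_right _ _)
    · rcases le_total (Vt f {e.1} l (σ e.2) z) 0 with h | h
      · exact Or.inl (max_eq_left h)
      · exact Or.inr ⟨e.1, e.2, he.2.1, he.2.2, max_eq_right h⟩
  · refine ⟨0, le_rfl, ?_, Or.inl rfl⟩
    intro c c' h1 h2
    exact absurd ⟨(c, c'), by rw [hP, Finset.mem_filter]; exact ⟨Finset.mem_univ _, h1, h2⟩⟩ hne

theorem ppt_oriented (a : C → Fin m → ℕ) (K Cx Cd η : ℝ) (hK : 1 ≤ K) (hCd : 0 < Cd)
    (hη : 0 < η) (hη2 : η * (8 * ((Fintype.card C : ℝ) + 1) * Cd) ≤ 1)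
    (hdelta : ∀ (Δ : Fin m → ℤ) (δ : C → ℝ) (u : ℝ), 0 ≤ u →
      (∀ i, |∑ c, (a c i : ℝ) * δ c| ≤ Cx) → |∑ c, δ c| ≤ Real.log K →
      (∀ A : Finset C, (∀ c ∈ A, ∀ c' ∉ A, lv a Δ c' ≤ lv a Δ c) → -u ≤ ∑ c ∈ A, δ c) →
      ∀ c, |δ c| ≤ Cd * (1 + u))
    {L : ℕ} (f : Zs C L → ℝ) (hf : ∀ z, 0 < f z) (w₁ w₂ : Fin m → ℤ) (z : Zs C L)
    (h1 : 1 < av (D (lv a w₁)) f z ∧ av (D (lv a w₁)) f z ≤ K)
    (h2 : 1 < av (D (lv a w₂)) f z ∧ av (D (lv a w₂)) f z ≤ K)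
    (hX : ∀ i, |XX a f (lv a w₁) i z - XX a f (lv a w₂) i z| ≤ Cx)
    (Y Y' : ℝ)
    (hY1 : ∀ c c', lv a w₂ c' - lv a w₁ c' ≤ lv a w₂ c - lv a w₁ c →
      0 < lv a w₂ c' - lv a w₁ c' → Vt f {c} (lv a w₁) (lv a w₂ c' - lv a w₁ c') z ≤ Y)
    (hY2 : Y = 0 ∨ ∃ c₀ c₁, lv a w₂ c₁ - lv a w₁ c₁ ≤ lv a w₂ c₀ - lv a w₁ c₀ ∧
      0 < lv a w₂ c₁ - lv a w₁ c₁ ∧ Y = Vt f {c₀} (lv a w₁) (lv a w₂ c₁ - lv a w₁ c₁) z)
    (hY'1 : ∀ c c', lv a w₁ c' - lv a w₂ c' ≤ lv a w₁ c - lv a w₂ c →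
      0 < lv a w₁ c' - lv a w₂ c' → Vt f {c} (lv a w₂) (lv a w₁ c' - lv a w₂ c') z ≤ Y')
    (hYY : Y' ≤ Y) (S : ℕ) (hSY : (S : ℝ) ≤ Y) (hYS : Y ≤ S + 1) (hS0 : 0 < S)
    (hS8 : 8 * ((Fintype.card C : ℝ) + 1) * Cd ≤ S) (hSη : Real.log K < η * S) :
    TyC a f (S + 1) (S / (4 * Fintype.card C)) w₁ w₂ z ∨
      (∃ A : Finset C, TyA a f A (S + 1) (η * S - Real.log K) (tA a A w₁ w₂) w₁ w₂ z) ∨
      (∃ A : Finset C, TyA a f A (S + 1) (η * S - Real.log K) (tA a A w₂ w₁) w₂ w₁ z) ∨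
      ∃ (A : Finset C) (c : C),
        TyB a f A (S + 1) (S / 2) (lv a w₂ c - lv a w₁ c) w₁ w₂ z := by
  set n : ℝ := (Fintype.card C : ℝ) with hn
  set l₁ := lv a w₁ with hl₁
  set l₂ := lv a w₂ with hl₂
  have hlogK : 0 ≤ Real.log K := Real.log_nonneg hK
  have hn0 : 0 ≤ n := by positivity
  have hS0' : (0 : ℝ) < S := by exact_mod_cast hS0
  have hY0 : 0 < Y := lt_of_lt_of_le hS0' hSY
  -- budgets
  have hbud : ∀ c, Vt f {c} l₁ (max (l₂ c - l₁ c) 0) z ≤ ((S + 1 : ℕ) : ℝ) := by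
    intro c
    push_cast
    rcases le_or_gt (l₂ c - l₁ c) 0 with h | h
    · rw [max_eq_right h, Vt_nonpos _ _ le_rfl]
      positivity
    · rw [max_eq_left h.le]
      exact (hY1 c c le_rfl h).trans hYS
  have hbud' : ∀ c, Vt f {c} l₂ (max (l₁ c - l₂ c) 0) z ≤ ((S + 1 : ℕ) : ℝ) := by
    intro c
    push_cast
    rcases le_or_gt (l₁ c - l₂ c) 0 with h | h
    · rw [max_eq_right h, Vt_nonpos _ _ le_rfl]
      positivity
    · rw [max_eq_left h.le]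
      exact ((hY'1 c c le_rfl h).trans hYY).trans hYS
  set δ : C → ℝ := fun c => V f {c} l₁ z - V f {c} l₂ z with hδ
  have hδsum : ∀ A : Finset C, ∑ c ∈ A, δ c = V f A l₁ z - V f A l₂ z := by
    intro A
    rw [V_sum A l₁, V_sum A l₂, ← Finset.sum_sub_distrib]
  have hlog : ∀ l : C → ℤ, Real.log (f z) = Real.log (av (D l) f z) + V f Finset.univ l z := by
    intro l
    have h := f_eq hf l z
    have h3 : 0 < av (D l) f z := av_pos hf z
    rw [h, Real.log_mul h3.ne' (Real.exp_pos _).ne', Real.log_exp]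
  have hδtot : |∑ c, δ c| ≤ Real.log K := by
    rw [hδsum]
    have e1 := hlog l₁
    have e2 := hlog l₂
    have b1 : 0 < Real.log (av (D l₁) f z) := Real.log_pos h1.1
    have b2 : 0 < Real.log (av (D l₂) f z) := Real.log_pos h2.1
    have b3 : Real.log (av (D l₁) f z) ≤ Real.log K :=
      Real.log_le_log (av_pos hf z) h1.2
    have b4 : Real.log (av (D l₂) f z) ≤ Real.log K :=
      Real.log_le_log (av_pos hf z) h2.2
    rw [abs_le]
    constructor <;> linarith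
  by_cases hA : ∃ c, ∃ t : ℤ, 0 ≤ t ∧ Vt f {c} l₁ t z ≤ -(S / (4 * Fintype.card C) : ℝ)
  · exact Or.inl ⟨hbud, hA⟩
  push Not at hA
  by_cases hB : ∃ A : Finset C, (∀ c ∈ A, ∀ c' ∉ A, l₂ c' - l₁ c' ≤ l₂ c - l₁ c) ∧
      ∑ c ∈ A, δ c ≤ -(η * S)
  · obtain ⟨A, hup, hAs⟩ := hB
    have hAne : A.Nonempty := by
      rw [Finset.nonempty_iff_ne_empty]
      rintro rfl
      rw [Finset.sum_empty] at hAs
      have : 0 < η * S := by positivity
      linarith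
    by_cases hpos : ∀ c ∈ A, 0 ≤ l₂ c - l₁ c
    · right; left
      refine ⟨A, ⟨ppt_le_tA hAne hpos, fun c hc => ppt_tA_le hc, ?_⟩, fun c _ => hbud c, ?_⟩
      · intro c' hc'
        exact ppt_le_tA hAne fun c hc => hup c hc c' hc'
      · rw [← hδsum]
        linarith
    · right; right; left
      push Not at hpos
      obtain ⟨c0, hc0, hc0'⟩ := hpos
      have hAc : (Aᶜ).Nonempty := by
        rw [Finset.nonempty_iff_ne_empty]
        intro h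
        rw [Finset.compl_eq_empty_iff] at h
        subst h
        rw [abs_le] at hδtot
        linarith [hδtot.1]
      refine ⟨Aᶜ, ⟨ppt_le_tA hAc ?_, fun c hc => ppt_tA_le hc, ?_⟩, fun c _ => hbud' c, ?_⟩
      · intro c' hc'
        have := hup c0 hc0 c' (Finset.mem_compl.mp hc')
        show 0 ≤ l₁ c' - l₂ c'
        omega
      · intro c hc
        have hcA : c ∈ A := by
          by_contra h
          exact hc (Finset.mem_compl.mpr h)
        refine ppt_le_tA hAc fun c' hc' => ?_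
        have := hup c hcA c' (Finset.mem_compl.mp hc')
        show l₁ c - l₂ c ≤ l₁ c' - l₂ c'
        omega
      · have e1 := V_compl (f := f) A l₁ z
        have e2 := V_compl (f := f) A l₂ z
        have e3 := hδsum Finset.univ
        rw [hδsum] at hAs
        rw [abs_le] at hδtot
        linarith [hδtot.1]
  · right; right; right
    push Not at hB
    have hd := hdelta (w₂ - w₁) δ (η * S) (by positivity) (by
      intro i
      have e : ∑ c, (a c i : ℝ) * δ c = XX a f l₁ i z - XX a f l₂ i z := by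
        unfold XX
        rw [← Finset.sum_sub_distrib]
        refine Finset.sum_congr rfl fun c _ => ?_
        rw [hδ]
        ring
      rw [e]
      exact hX i) hδtot (by
      intro A hAup
      refine (hB A ?_).le
      intro c hc c' hc'
      have := hAup c hc c' hc'
      rwa [ppt_lv_sub, ppt_lv_sub] at this)
    rcases hY2 with h0 | ⟨c₀, c₁, hc1, hc2, hc3⟩
    · exact absurd h0 hY0.ne'
    set t : ℤ := l₂ c₁ - l₁ c₁ with ht
    set A : Finset C := Finset.univ.filter (fun c => t ≤ l₂ c - l₁ c) with hAdef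
    have hmem : ∀ c, c ∈ A ↔ t ≤ l₂ c - l₁ c := by
      intro c
      rw [hAdef, Finset.mem_filter]
      simp
    have hδA : ∑ c ∈ A, δ c ≤ S / 4 := by
      have b1 : ∑ c ∈ A, δ c ≤ ∑ _c ∈ A, Cd * (1 + η * S) :=
        Finset.sum_le_sum fun c _ => (le_abs_self _).trans (hd c)
      rw [Finset.sum_const, nsmul_eq_mul] at b1
      have b2 : (A.card : ℝ) ≤ n := by
        rw [hn]
        exact_mod_cast Finset.card_le_univ _
      have b3 : 0 ≤ Cd * (1 + η * S) := by positivity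
      have b4 : (A.card : ℝ) * (Cd * (1 + η * S)) ≤ (n + 1) * (Cd * (1 + η * S)) :=
        mul_le_mul_of_nonneg_right (by linarith) b3
      have b5 : (n + 1) * Cd ≤ S / 8 := by linarith
      have b6 : (n + 1) * Cd * (η * S) ≤ S / 8 := by
        have : η * (8 * (n + 1) * Cd) * S ≤ 1 * S := mul_le_mul_of_nonneg_right hη2 hS0'.le
        linarith
      calc ∑ c ∈ A, δ c ≤ (n + 1) * (Cd * (1 + η * S)) := b1.trans b4
        _ = (n + 1) * Cd + (n + 1) * Cd * (η * S) := by ring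
        _ ≤ S / 8 + S / 8 := add_le_add b5 b6
        _ = S / 4 := by ring
    have hc0A : c₀ ∈ A := (hmem c₀).mpr hc1
    have hVt : (3 : ℝ) * S / 4 ≤ Vt f A l₁ t z := by
      rw [Vt_sum, ← Finset.add_sum_erase _ _ hc0A]
      have b1 : -((A.erase c₀).card : ℝ) * (S / (4 * n)) ≤
          ∑ c ∈ A.erase c₀, Vt f {c} l₁ t z := by
        have : ∑ _c ∈ A.erase c₀, (-(S / (4 * n)) : ℝ) ≤ ∑ c ∈ A.erase c₀, Vt f {c} l₁ t z :=
          Finset.sum_le_sum fun c _ => (hA c t hc2.le).le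
        rw [Finset.sum_const, nsmul_eq_mul] at this
        linarith
      have hnpos : 0 < n := by
        rw [hn]
        exact_mod_cast Fintype.card_pos_iff.mpr ⟨c₀⟩
      have b2 : ((A.erase c₀).card : ℝ) * (S / (4 * n)) ≤ S / 4 := by
        have b3 : ((A.erase c₀).card : ℝ) ≤ n := by
          rw [hn]
          exact_mod_cast Finset.card_le_univ _
        calc ((A.erase c₀).card : ℝ) * (S / (4 * n)) ≤ n * (S / (4 * n)) :=
              mul_le_mul_of_nonneg_right b3 (by positivity)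
          _ = S / 4 := by field_simp
      rw [← hc3]
      linarith
    refine ⟨A, c₁, ⟨hc2.le, fun c hc => (hmem c).mp hc, fun c hc => ?_⟩, fun c _ => hbud c, ?_, ?_⟩
    · have := mt (hmem c).mpr hc
      push Not at this
      exact this.le
    · intro c hc
      push_cast
      exact (hY1 c c₁ ((hmem c).mp hc) hc2).trans hYS
    · have e := hδsum A
      linarith

/-- pointwise classification -/
theorem pairs_pt (a : C → Fin m → ℕ) (ha : ∀ c, ∑ i, a c i = 2) (K Cx : ℝ) (hK : 1 ≤ K)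
    (hCx : 0 ≤ Cx) :
    ∃ (η : ℝ) (C0 : ℕ), 0 < η ∧ ∀ (L : ℕ) (f : Zs C L → ℝ), (∀ z, 0 < f z) →
      ∀ (w w' : Fin m → ℤ) (z : Zs C L),
      (1 < av (D (lv a w)) f z ∧ av (D (lv a w)) f z ≤ K) →
      (1 < av (D (lv a w')) f z ∧ av (D (lv a w')) f z ≤ K) →
      (∀ i, |XX a f (lv a w) i z - XX a f (lv a w') i z| ≤ Cx) →
      (∀ c, Vt f {c} (lv a w) (max (lv a w' c - lv a w c) 0) z ≤ C0) ∨
      ∃ S : ℕ, C0 ≤ S ∧ ∃ w₁ w₂ : Fin m → ℤ, ((w₁ = w ∧ w₂ = w') ∨ (w₁ = w' ∧ w₂ = w)) ∧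
        (TyC a f (S + 1) (S / (4 * Fintype.card C)) w₁ w₂ z ∨
          (∃ A : Finset C, TyA a f A (S + 1) (η * S - Real.log K) (tA a A w₁ w₂) w₁ w₂ z) ∨
          ∃ (A : Finset C) (c : C),
            TyB a f A (S + 1) (S / 2) (lv a w₂ c - lv a w₁ c) w₁ w₂ z) := by
  obtain ⟨Cd, hCd, hdelta⟩ := delta a Cx (Real.log K) hCx (Real.log_nonneg hK)
  set n : ℝ := (Fintype.card C : ℝ) with hn
  have hn0 : 0 ≤ n := by positivity
  have hden : 0 < 8 * (n + 1) * Cd := by positivity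
  set η : ℝ := 1 / (8 * (n + 1) * Cd) with hη
  have hη0 : 0 < η := by positivity
  have hη2 : η * (8 * (n + 1) * Cd) ≤ 1 := by
    rw [hη, one_div, inv_mul_cancel₀ hden.ne']
  obtain ⟨C1, hC1⟩ := exists_nat_ge (8 * (n + 1) * Cd)
  obtain ⟨C2, hC2⟩ := exists_nat_ge ((Real.log K + 1) / η)
  set C0 : ℕ := C1 + C2 + 1 with hC0
  refine ⟨η, C0, hη0, ?_⟩
  intro L f hf w w' z hw hw' hX
  obtain ⟨Y, hY0, hY1, hY2⟩ := ppt_exists_Y f (lv a w) (fun c => lv a w' c - lv a w c) z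
  obtain ⟨Y', hY'0, hY'1, hY'2⟩ := ppt_exists_Y f (lv a w') (fun c => lv a w c - lv a w' c) z
  have facts : ∀ S : ℕ, C0 ≤ S → 0 < S ∧ 8 * (n + 1) * Cd ≤ S ∧ Real.log K < η * S := by
    intro S hS
    have h1 : (C1 : ℝ) ≤ S := by exact_mod_cast (by omega : C1 ≤ S)
    have h2 : (C2 : ℝ) ≤ S := by exact_mod_cast (by omega : C2 ≤ S)
    refine ⟨by omega, hC1.trans h1, ?_⟩
    have h3 : (Real.log K + 1) / η ≤ S := hC2.trans h2
    rw [div_le_iff₀ hη0] at h3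
    linarith
  have hX' : ∀ i, |XX a f (lv a w') i z - XX a f (lv a w) i z| ≤ Cx := by
    intro i
    rw [abs_sub_comm]
    exact hX i
  by_cases hsmall : Y < C0
  · by_cases hsmall' : Y' < C0
    · left
      intro c
      rcases le_or_gt (lv a w' c - lv a w c) 0 with h | h
      · rw [max_eq_right h, Vt_nonpos _ _ le_rfl]
        positivity
      · rw [max_eq_left h.le]
        exact (hY1 c c le_rfl h).trans hsmall.le
    · right
      push Not at hsmall'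
      have hYY : Y ≤ Y' := hsmall.le.trans hsmall'
      refine ⟨⌊Y'⌋₊, Nat.le_floor hsmall', ?_⟩
      obtain ⟨f1, f2, f3⟩ := facts ⌊Y'⌋₊ (Nat.le_floor hsmall')
      rcases ppt_oriented a K Cx Cd η hK hCd hη0 hη2 hdelta f hf w' w z hw' hw hX' Y' Y hY'1 hY'2
        hY1 hYY ⌊Y'⌋₊ (Nat.floor_le hY'0) (Nat.lt_floor_add_one Y').le f1 f2 f3 with
        h | h | h | h
      · exact ⟨w', w, Or.inr ⟨rfl, rfl⟩, Or.inl h⟩
      · exact ⟨w', w, Or.inr ⟨rfl, rfl⟩, Or.inr (Or.inl h)⟩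
      · exact ⟨w, w', Or.inl ⟨rfl, rfl⟩, Or.inr (Or.inl h)⟩
      · exact ⟨w', w, Or.inr ⟨rfl, rfl⟩, Or.inr (Or.inr h)⟩
  · right
    push Not at hsmall
    rcases le_total Y' Y with hYY | hYY
    · refine ⟨⌊Y⌋₊, Nat.le_floor hsmall, ?_⟩
      obtain ⟨f1, f2, f3⟩ := facts ⌊Y⌋₊ (Nat.le_floor hsmall)
      rcases ppt_oriented a K Cx Cd η hK hCd hη0 hη2 hdelta f hf w w' z hw hw' hX Y Y' hY1 hY2
        hY'1 hYY ⌊Y⌋₊ (Nat.floor_le hY0) (Nat.lt_floor_add_one Y).le f1 f2 f3 with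
        h | h | h | h
      · exact ⟨w, w', Or.inl ⟨rfl, rfl⟩, Or.inl h⟩
      · exact ⟨w, w', Or.inl ⟨rfl, rfl⟩, Or.inr (Or.inl h)⟩
      · exact ⟨w', w, Or.inr ⟨rfl, rfl⟩, Or.inr (Or.inl h)⟩
      · exact ⟨w, w', Or.inl ⟨rfl, rfl⟩, Or.inr (Or.inr h)⟩
    · have hbig : (C0 : ℝ) ≤ Y' := hsmall.trans hYY
      refine ⟨⌊Y'⌋₊, Nat.le_floor hbig, ?_⟩
      obtain ⟨f1, f2, f3⟩ := facts ⌊Y'⌋₊ (Nat.le_floor hbig)
      rcases ppt_oriented a K Cx Cd η hK hCd hη0 hη2 hdelta f hf w' w z hw' hw hX' Y' Y hY'1 hY'2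
        hY1 hYY ⌊Y'⌋₊ (Nat.floor_le hY'0) (Nat.lt_floor_add_one Y').le f1 f2 f3 with
        h | h | h | h
      · exact ⟨w', w, Or.inr ⟨rfl, rfl⟩, Or.inl h⟩
      · exact ⟨w', w, Or.inr ⟨rfl, rfl⟩, Or.inr (Or.inl h)⟩
      · exact ⟨w, w', Or.inl ⟨rfl, rfl⟩, Or.inr (Or.inl h)⟩
      · exact ⟨w', w, Or.inr ⟨rfl, rfl⟩, Or.inr (Or.inr h)⟩

end Zyg
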