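import Pool.Agent.Work.MP_93d592_an.A.Seq

/-!
# QFacts : elementary facts on the conditional probabilities `q` and the sums `V`, `Vt`

HINTS. `cyl D z` is nonempty (contains `z`). `q_add_flip`: put `P = past l i`, `i ∉ P`;
`cyl P z` is the disjoint union of `cyl (insert i P) z` and `cyl (insert i P) (flip i z)`, which have
the same cardinality; `cyl P (flip i z) = cyl P z`.
`f_eq`: enumerate the digits of `U univ l 0` by increasing key; telescoping:
for a finset `E` of digits which is a lower set for `key l` and contains `D l`,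
`av E f z = av (D l) f z * ∏ i ∈ E \ D l, q f l i z` (induction on `E \ D l`, remove the largest key
`i`: then `E.erase i` is a lower set and equals `past l i`); `E = univ`: `cyl univ z = {z}`.
-/

open Finset
open scoped Classical

set_option linter.unusedSectionVars false

noncomputable section

namespace Zyg

section general
variable {I : Type} [Fintype I]

theorem mem_cyl {D : Finset I} {z z' : I → Bool} : z' ∈ cyl D z ↔ ∀ i ∈ D, z' i = z i := by
  simp [cyl]

theorem self_mem_cyl (D : Finset I) (z : I → Bool) : z ∈ cyl D z := mem_cyl.2 fun _ _ => rfl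

theorem cyl_card_pos (D : Finset I) (z : I → Bool) : 0 < (cyl D z).card :=
  Finset.card_pos.2 ⟨z, self_mem_cyl D z⟩

theorem av_pos {D : Finset I} {f : (I → Bool) → ℝ} (hf : ∀ z, 0 < f z) (z : I → Bool) :
    0 < av D f z := by
  unfold av
  refine div_pos (Finset.sum_pos (fun z' _ => hf z') ⟨z, self_mem_cyl D z⟩) ?_
  exact_mod_cast cyl_card_pos D z

theorem cyl_congr {D : Finset I} {z z' : I → Bool} (h : ∀ i ∈ D, z i = z' i) :
    cyl D z = cyl D z' := by
  ext y
  rw [mem_cyl, mem_cyl]
  constructor
  · intro hy i hi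
    rw [hy i hi, h i hi]
  · intro hy i hi
    rw [hy i hi, h i hi]

theorem av_dep (D : Finset I) (f : (I → Bool) → ℝ) : Dep D (av D f) := by
  intro z z' h
  unfold av
  rw [cyl_congr h]

theorem mem_cyl_comm {D : Finset I} {z z' : I → Bool} : z' ∈ cyl D z ↔ z ∈ cyl D z' := by
  rw [mem_cyl, mem_cyl]
  exact ⟨fun h i hi => (h i hi).symm, fun h i hi => (h i hi).symm⟩

/-- averaging preserves sums over sets which depend on `D` only -/
theorem sum_av (D : Finset I) (f : (I → Bool) → ℝ) (G : Finset (I → Bool))
    (hG : Dep D fun z => z ∈ G) : ∑ z ∈ G, av D f z = ∑ z ∈ G, f z := by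
  have e1 : ∀ z, av D f z = ∑ z', if z' ∈ cyl D z then f z' / ((cyl D z').card : ℝ) else 0 := by
    intro z
    unfold av
    rw [Finset.sum_div, Finset.sum_ite_mem, Finset.univ_inter]
    refine Finset.sum_congr rfl fun z' hz' => ?_
    rw [cyl_congr (z := z) (z' := z') (fun i hi => (mem_cyl.1 hz' i hi).symm)]
  simp_rw [e1]
  rw [Finset.sum_comm]
  have e2 : ∀ z', ∑ z ∈ G, (if z' ∈ cyl D z then f z' / ((cyl D z').card : ℝ) else 0) =
      if z' ∈ G then f z' else 0 := by
    intro z'
    rw [← Finset.sum_filter, Finset.sum_const, nsmul_eq_mul]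
    by_cases h : z' ∈ G
    · rw [if_pos h]
      have e3 : (G.filter fun z => z' ∈ cyl D z) = cyl D z' := by
        ext y
        rw [Finset.mem_filter]
        constructor
        · exact fun hy => mem_cyl_comm.1 hy.2
        · intro hy
          refine ⟨?_, mem_cyl_comm.1 hy⟩
          have := hG y z' (mem_cyl.1 hy)
          simp only [eq_iff_iff] at this
          exact this.2 h
      rw [e3]
      have := cyl_card_pos D z'
      have h0 : ((cyl D z').card : ℝ) ≠ 0 := by positivity
      field_simp
    · rw [if_neg h]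
      have e3 : (G.filter fun z => z' ∈ cyl D z) = ∅ := by
        refine Finset.filter_eq_empty_iff.2 fun y hy hy' => h ?_
        have := hG y z' (mem_cyl.1 (mem_cyl_comm.1 hy'))
        simp only [eq_iff_iff] at this
        exact this.1 hy
      rw [e3]
      simp
  simp_rw [e2]
  rw [Finset.sum_ite_mem, Finset.univ_inter]

theorem flip_self (i : I) (z : I → Bool) : flip i z i = !z i := by
  simp [flip]

theorem flip_of_ne {i j : I} (h : j ≠ i) (z : I → Bool) : flip i z j = z j := by
  unfold flip
  exact Function.update_of_ne h _ _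

theorem cyl_split [DecidableEq I] {P : Finset I} {i : I} (hi : i ∉ P) (z : I → Bool) :
    cyl P z = cyl (insert i P) z ∪ cyl (insert i P) (flip i z) := by
  ext y
  rw [Finset.mem_union, mem_cyl, mem_cyl, mem_cyl]
  have hflip : ∀ j ∈ P, flip i z j = z j := by
    intro j hj
    have hne : j ≠ i := fun e => hi (e ▸ hj)
    exact flip_of_ne hne z
  constructor
  · intro hy
    by_cases h : y i = z i
    · left
      intro j hj
      rcases Finset.mem_insert.1 hj with rfl | hj
      · exact h
      · exact hy j hj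
    · right
      intro j hj
      rcases Finset.mem_insert.1 hj with rfl | hj
      · have : y j = !z j := by
          cases h1 : y j <;> cases h2 : z j <;> simp_all
        rw [this, flip_self]
      · rw [hy j hj, hflip j hj]
  · rintro (hy | hy) j hj
    · exact hy j (Finset.mem_insert_of_mem hj)
    · rw [hy j (Finset.mem_insert_of_mem hj), hflip j hj]

theorem cyl_disj [DecidableEq I] (P : Finset I) (i : I) (z : I → Bool) :
    Disjoint (cyl (insert i P) z) (cyl (insert i P) (flip i z)) := by
  rw [Finset.disjoint_left]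
  intro y h1 h2
  have h3 := mem_cyl.1 h1 i (Finset.mem_insert_self _ _)
  have h4 := mem_cyl.1 h2 i (Finset.mem_insert_self _ _)
  rw [h3] at h4
  rw [flip_self] at h4
  exact Bool.self_ne_not (z i) h4

theorem cyl_card_flip [DecidableEq I] (P : Finset I) (i : I) (z : I → Bool) :
    (cyl (insert i P) (flip i z)).card = (cyl (insert i P) z).card := by
  refine Finset.card_bij (fun y _ => flip i y) ?_ ?_ ?_
  · intro y hy
    rw [mem_cyl] at hy ⊢
    intro j hj
    by_cases hji : j = i
    · subst hji
      rw [flip_self, hy j hj, flip_self]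
      simp
    · rw [flip_of_ne hji, hy j hj, flip_of_ne hji]
  · intro y _ y' _ h
    have := congrArg (flip i) h
    rwa [flip_flip, flip_flip] at this
  · intro y hy
    refine ⟨flip i y, ?_, flip_flip i y⟩
    rw [mem_cyl] at hy ⊢
    intro j hj
    by_cases hji : j = i
    · subst hji
      rw [flip_self, flip_self, hy j hj]
    · rw [flip_of_ne hji, flip_of_ne hji]
      exact hy j hj

theorem av_add_flip [DecidableEq I] {P : Finset I} {i : I} (hi : i ∉ P) (f : (I → Bool) → ℝ) (z : I → Bool) :
    av (insert i P) f z + av (insert i P) f (flip i z) = 2 * av P f z := by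
  unfold av
  rw [cyl_split hi z, Finset.sum_union (cyl_disj P i z), Finset.card_union_of_disjoint
    (cyl_disj P i z), cyl_card_flip]
  have := cyl_card_pos (insert i P) z
  have h0 : ((cyl (insert i P) z).card : ℝ) ≠ 0 := by positivity
  push_cast
  field_simp
  ring

end general

variable {C : Type} [Fintype C] [LinearOrder C] {L : ℕ} {f : Zs C L → ℝ}

theorem key_inj (l : C → ℤ) : Function.Injective (key (L := L) l) := by
  intro i j h
  simp only [key] at h
  have h' := congrArg ofLex h
  simp only [ofLex_toLex, Prod.mk.injEq] at h'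
  obtain ⟨h1, h2⟩ := h'
  refine Prod.ext h2 ?_
  unfold kl at h1
  rw [h2] at h1
  have : i.2.1 = j.2.1 := by omega
  exact Fin.ext this

theorem mem_past {l : C → ℤ} {i j : C × Fin L} : j ∈ past l i ↔ key l j < key l i := by
  simp [past]

theorem not_mem_past (l : C → ℤ) (i : C × Fin L) : i ∉ past l i := by
  rw [mem_past]
  exact lt_irrefl _

theorem q_pos (hf : ∀ z, 0 < f z) (l : C → ℤ) (i : C × Fin L) (z : Zs C L) : 0 < q f l i z :=
  div_pos (av_pos hf z) (av_pos hf z)

theorem q_dep (l : C → ℤ) (i : C × Fin L) : Dep (insert i (past l i)) (q f l i) := by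
  intro z z' h
  unfold q
  rw [av_dep (insert i (past l i)) f z z' h, av_dep (past l i) f z z' fun j hj =>
    h j (Finset.mem_insert_of_mem hj)]

theorem q_dep' (l : C → ℤ) (i : C × Fin L) :
    Dep (Finset.univ.filter fun j => key l j ≤ key l i) (q f l i) := by
  refine (q_dep l i).mono ?_
  intro j hj
  rw [Finset.mem_filter]
  refine ⟨Finset.mem_univ _, ?_⟩
  rcases Finset.mem_insert.1 hj with rfl | hj
  · exact le_refl _
  · exact (mem_past.1 hj).le

theorem q_add_flip (hf : ∀ z, 0 < f z) (l : C → ℤ) (i : C × Fin L) (z : Zs C L) :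
    q f l i z + q f l i (flip i z) = 2 := by
  unfold q
  have e1 : av (past l i) f (flip i z) = av (past l i) f z :=
    (av_dep (past l i) f).flip_eq (not_mem_past l i) z
  rw [e1, ← add_div, av_add_flip (not_mem_past l i) f z]
  have := av_pos (D := past l i) hf z
  field_simp

theorem av_univ_aux {I : Type} [Fintype I] (g : (I → Bool) → ℝ) (z : I → Bool) :
    av Finset.univ g z = g z := by
  have : cyl Finset.univ z = {z} := by
    ext y
    rw [mem_cyl, Finset.mem_singleton]
    constructor
    · intro h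
      funext i
      exact h i (Finset.mem_univ i)
    · rintro rfl i _
      rfl
  unfold av
  rw [this]
  simp

theorem mem_U {B : Finset C} {l : C → ℤ} {t : ℤ} {i : C × Fin L} :
    i ∈ U B l t ↔ i.1 ∈ B ∧ t ≤ kl l i := by
  simp [U]

theorem mem_W {B : Finset C} {l : C → ℤ} {t : ℤ} {i : C × Fin L} :
    i ∈ W B l t ↔ i.1 ∈ B ∧ 0 ≤ kl l i ∧ kl l i < t := by
  simp [W]

theorem mem_D {l : C → ℤ} {i : C × Fin L} : i ∈ D l ↔ kl l i < 0 := by
  simp [D]

theorem key_lt_of_kl {l : C → ℤ} {i j : C × Fin L} (h : kl l i < kl l j) :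
    key l i < key l j := by
  unfold key
  exact Prod.Lex.toLex_lt_toLex.2 (Or.inl h)

theorem kl_le_of_key {l : C → ℤ} {i j : C × Fin L} (h : key l i ≤ key l j) :
    kl l i ≤ kl l j := by
  by_contra hlt
  push Not at hlt
  exact absurd (key_lt_of_kl hlt) (not_lt.2 h)

theorem tele (hf : ∀ z, 0 < f z) (l : C → ℤ) (z : Zs C L) (G : Finset (C × Fin L)) :
    (∀ i ∈ G, past l i ⊆ D l ∪ G) → (∀ i ∈ G, i ∉ D l) →
      av (D l ∪ G) f z = av (D l) f z * ∏ i ∈ G, q f l i z := by
  refine Finset.induction_on_max_value (key l) G ?_ ?_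
  · intro _ _
    simp
  · intro i G' hi hmax ih hp hd
    have hpast : past l i = D l ∪ G' := by
      ext j
      constructor
      · intro hj
        have h1 := hp i (Finset.mem_insert_self _ _) hj
        rcases Finset.mem_union.1 h1 with h2 | h2
        · exact Finset.mem_union_left _ h2
        · rcases Finset.mem_insert.1 h2 with rfl | h2
          · exact absurd hj (not_mem_past l j)
          · exact Finset.mem_union_right _ h2
      · intro hj
        rw [mem_past]
        rcases Finset.mem_union.1 hj with h2 | h2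
        · have h3 : kl l j < 0 := mem_D.1 h2
          have h4 : ¬ kl l i < 0 := fun h => hd i (Finset.mem_insert_self _ _) (mem_D.2 h)
          exact key_lt_of_kl (by omega)
        · refine lt_of_le_of_ne (hmax j h2) fun h => hi ?_
          exact (key_inj l h) ▸ h2
    have e1 : D l ∪ insert i G' = insert i (past l i) := by
      rw [hpast, Finset.union_insert]
    rw [e1, Finset.prod_insert hi]
    have e2 : av (D l ∪ G') f z = av (D l) f z * ∏ i ∈ G', q f l i z := by
      refine ih ?_ fun j hj => hd j (Finset.mem_insert_of_mem hj)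
      intro j hj k hk
      have h1 := hp j (Finset.mem_insert_of_mem hj) hk
      rcases Finset.mem_union.1 h1 with h2 | h2
      · exact Finset.mem_union_left _ h2
      · rcases Finset.mem_insert.1 h2 with rfl | h2
        · exact absurd (mem_past.1 hk) (not_lt.2 (hmax j hj))
        · exact Finset.mem_union_right _ h2
    have e3 : av (insert i (past l i)) f z = q f l i z * av (past l i) f z := by
      unfold q
      have := av_pos (D := past l i) hf z
      field_simp
    rw [e3, hpast, e2]
    ring

theorem exp_V (hf : ∀ z, 0 < f z) (B : Finset C) (l : C → ℤ) (z : Zs C L) :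
    Real.exp (V f B l z) = ∏ i ∈ U B l 0, q f l i z := by
  unfold V
  rw [Real.exp_sum]
  exact Finset.prod_congr rfl fun i _ => Real.exp_log (q_pos hf l i z)

theorem exp_Vt (hf : ∀ z, 0 < f z) (B : Finset C) (l : C → ℤ) (t : ℤ) (z : Zs C L) :
    Real.exp (Vt f B l t z) = ∏ i ∈ W B l t, q f l i z := by
  unfold Vt
  rw [Real.exp_sum]
  exact Finset.prod_congr rfl fun i _ => Real.exp_log (q_pos hf l i z)

theorem f_eq (hf : ∀ z, 0 < f z) (l : C → ℤ) (z : Zs C L) :
    f z = av (D l) f z * Real.exp (V f Finset.univ l z) := by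
  have hU : D l ∪ U Finset.univ l 0 = (Finset.univ : Finset (C × Fin L)) := by
    ext i
    simp only [Finset.mem_union, mem_D, mem_U, Finset.mem_univ, true_and, iff_true]
    omega
  have := tele hf l z (U Finset.univ l 0) (by
    intro i _
    rw [hU]
    exact Finset.subset_univ _) (by
    intro i hi h
    have h1 := (mem_U.1 hi).2
    have h2 := mem_D.1 h
    omega)
  rw [hU, av_univ_aux] at this
  rw [exp_V hf]
  exact this

theorem V_sum (B : Finset C) (l : C → ℤ) (z : Zs C L) :
    V f B l z = ∑ c ∈ B, V f {c} l z := by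
  unfold V
  rw [← Finset.sum_fiberwise_of_maps_to (s := U B l 0) (t := B) (g := fun i => i.1)
    (fun i hi => (mem_U.1 hi).1)]
  refine Finset.sum_congr rfl fun c hc => ?_
  refine Finset.sum_congr ?_ fun _ _ => rfl
  ext i
  simp only [Finset.mem_filter, mem_U, Finset.mem_singleton]
  constructor
  · rintro ⟨⟨_, h1⟩, h2⟩
    exact ⟨h2, h1⟩
  · rintro ⟨h2, h1⟩
    exact ⟨⟨h2 ▸ hc, h1⟩, h2⟩

theorem Vt_sum (B : Finset C) (l : C → ℤ) (t : ℤ) (z : Zs C L) :
    Vt f B l t z = ∑ c ∈ B, Vt f {c} l t z := by
  unfold Vt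
  rw [← Finset.sum_fiberwise_of_maps_to (s := W B l t) (t := B) (g := fun i => i.1)
    (fun i hi => (mem_W.1 hi).1)]
  refine Finset.sum_congr rfl fun c hc => ?_
  refine Finset.sum_congr ?_ fun _ _ => rfl
  ext i
  simp only [Finset.mem_filter, mem_W, Finset.mem_singleton]
  constructor
  · rintro ⟨⟨_, h1⟩, h2⟩
    exact ⟨h2, h1⟩
  · rintro ⟨h2, h1⟩
    exact ⟨⟨h2 ▸ hc, h1⟩, h2⟩

theorem V_compl (B : Finset C) (l : C → ℤ) (z : Zs C L) :
    V f B l z + V f Bᶜ l z = V f Finset.univ l z := by
  rw [V_sum B, V_sum Bᶜ, V_sum Finset.univ]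
  exact Finset.sum_add_sum_compl B _

theorem Vt_compl (B : Finset C) (l : C → ℤ) (t : ℤ) (z : Zs C L) :
    Vt f B l t z + Vt f Bᶜ l t z = Vt f Finset.univ l t z := by
  rw [Vt_sum B, Vt_sum Bᶜ, Vt_sum Finset.univ]
  exact Finset.sum_add_sum_compl B _

theorem V_eq (B : Finset C) (l : C → ℤ) {t : ℤ} (ht : 0 ≤ t) (z : Zs C L) :
    V f B l z = Vt f B l t z + ∑ i ∈ U B l t, Real.log (q f l i z) := by
  unfold V Vt
  rw [← Finset.sum_union]
  · refine Finset.sum_congr ?_ fun _ _ => rfl
    ext i
    simp only [Finset.mem_union, mem_U, mem_W]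
    constructor
    · rintro ⟨h1, h2⟩
      by_cases h : kl l i < t
      · exact Or.inl ⟨h1, h2, h⟩
      · exact Or.inr ⟨h1, not_lt.1 h⟩
    · rintro (⟨h1, h2, _⟩ | ⟨h1, h2⟩)
      · exact ⟨h1, h2⟩
      · exact ⟨h1, ht.trans h2⟩
  · rw [Finset.disjoint_left]
    intro i h1 h2
    exact absurd (mem_W.1 h1).2.2 (not_lt.2 (mem_U.1 h2).2)

theorem Vt_nonpos (B : Finset C) (l : C → ℤ) {t : ℤ} (ht : t ≤ 0) (z : Zs C L) :
    Vt f B l t z = 0 := by
  unfold Vt
  refine Finset.sum_eq_zero fun i hi => ?_
  have := mem_W.1 hi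
  omega

/-- for large times nothing happens -/
theorem Vt_large (B : Finset C) (l : C → ℤ) {t : ℤ} (ht : ∀ c, (L : ℤ) - l c ≤ t) (z : Zs C L) :
    Vt f B l t z = V f B l z := by
  unfold Vt V
  refine Finset.sum_congr ?_ fun _ _ => rfl
  ext i
  rw [mem_W, mem_U]
  constructor
  · exact fun h => ⟨h.1, h.2.1⟩
  · refine fun h => ⟨h.1, h.2, ?_⟩
    have h1 := ht i.1
    have h2 := i.2.2
    unfold kl
    omega

theorem Vt_dep (B : Finset C) (l : C → ℤ) (t : ℤ) :
    Dep (Finset.univ.filter fun i : C × Fin L => kl l i < t) (Vt f B l t) := by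
  intro z z' h
  unfold Vt
  refine Finset.sum_congr rfl fun i hi => ?_
  have hi' := mem_W.1 hi
  rw [q_dep' l i z z' fun j hj => h j ?_]
  rw [Finset.mem_filter] at hj ⊢
  have := kl_le_of_key hj.2
  exact ⟨Finset.mem_univ _, by omega⟩

end Zyg
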