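import Pool.Agent.Work.MP_93d592_an.A.Base

/-!
# Seq : the sequential summation lemma

PROOF of `seq`. Induction on `G` (`Finset.induction_on_max_value key` or strong induction on the
cardinality): let `i` be the element of `G` with the largest key, `G = insert i G'`,
`h' z = h z * ∏ j ∈ G', g j z`. `h'` does not change under `flip i`: `i ∉ Gᶜ`, and for `j ∈ G'` the
function `g j` depends on digits with key `≤ key j < key i`. As `flip i` is an involution
(`Equiv.sum_comp`), `∑ h' g_i = 1/2 ∑ (h' z g_i z + h' (flip z) g_i (flip z)) = 1/2 ∑ h' z * 2`.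
-/

open Finset
open scoped Classical

set_option linter.unusedSectionVars false

noncomputable section

namespace Zyg

variable {I : Type} [Fintype I] {α : Type}

theorem flip_flip (i : I) (z : I → Bool) : flip i (flip i z) = z := by
  unfold flip
  ext j
  by_cases h : j = i
  · subst h; simp
  · simp [Function.update_of_ne h]

theorem Dep.mono {D D' : Finset I} {h : (I → Bool) → α} (hd : Dep D h) (hs : D ⊆ D') :
    Dep D' h := by
  intro z z' hz
  exact hd z z' fun i hi => hz i (hs hi)

theorem Dep.flip_eq {D : Finset I} {h : (I → Bool) → α} (hd : Dep D h) {i : I} (hi : i ∉ D)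
    (z : I → Bool) : h (flip i z) = h z := by
  refine hd _ _ fun j hj => ?_
  have hne : j ≠ i := fun e => hi (e ▸ hj)
  simp [flip, Function.update_of_ne hne]

/-- a sum over all points does not depend on the chosen `Fintype` instance -/
theorem sum_inst {β : Type} (i1 i2 : Fintype β) (F : β → ℝ) :
    Finset.sum (@Finset.univ β i1) F = Finset.sum (@Finset.univ β i2) F := by
  have e : i1 = i2 := Subsingleton.elim _ _
  subst e
  rfl

/-- unions, intersections, differences and complements do not depend on the chosen
decidability instance -/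
theorem union_inst {ι : Type} (d1 d2 : DecidableEq ι) (E F : Finset ι) :
    @Union.union (Finset ι) (@Finset.instUnion ι d1) E F =
      @Union.union (Finset ι) (@Finset.instUnion ι d2) E F := by
  have e : d1 = d2 := Subsingleton.elim _ _
  subst e
  rfl

theorem inter_inst {ι : Type} (d1 d2 : DecidableEq ι) (E F : Finset ι) :
    @Inter.inter (Finset ι) (@Finset.instInter ι d1) E F =
      @Inter.inter (Finset ι) (@Finset.instInter ι d2) E F := by
  have e : d1 = d2 := Subsingleton.elim _ _
  subst e
  rfl

theorem sdiff_inst {ι : Type} (d1 d2 : DecidableEq ι) (E F : Finset ι) :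
    @SDiff.sdiff (Finset ι) (@Finset.instSDiff ι d1) E F =
      @SDiff.sdiff (Finset ι) (@Finset.instSDiff ι d2) E F := by
  have e : d1 = d2 := Subsingleton.elim _ _
  subst e
  rfl

theorem dep_compl_inst (d1 d2 : DecidableEq I) (S : Finset I) (h : (I → Bool) → α)
    (hd : Dep (@compl (Finset I) (@BooleanAlgebra.toCompl _ (@Finset.booleanAlgebra I _ d1)) S) h) :
    Dep (@compl (Finset I) (@BooleanAlgebra.toCompl _ (@Finset.booleanAlgebra I _ d2)) S) h := by
  have e : d1 = d2 := Subsingleton.elim _ _
  subst e
  exact hd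

theorem seq_sum_flip (i : I) (h : (I → Bool) → ℝ) : ∑ z, h (flip i z) = ∑ z, h z := by
  let e : (I → Bool) ≃ (I → Bool) := ⟨flip i, flip i, flip_flip i, flip_flip i⟩
  exact Equiv.sum_comp e h

theorem seq {κ : Type} [LinearOrder κ] (key : I → κ) (hk : Function.Injective key) (G : Finset I)
    (g : I → (I → Bool) → ℝ) (h : (I → Bool) → ℝ)
    (hg : ∀ i ∈ G, Dep (Finset.univ.filter fun j => key j ≤ key i) (g i))
    (h1 : ∀ i ∈ G, ∀ z, g i z + g i (flip i z) = 2) (hh : Dep Gᶜ h) :
    ∑ z, h z * ∏ i ∈ G, g i z = ∑ z, h z := by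
  revert hg h1 hh
  refine Finset.induction_on_max_value key G ?_ ?_
  · intro _ _ _
    simp
  · intro i G' hi hmax ih hg h1 hh
    have hhG : Dep G'ᶜ h := hh.mono (by
      intro j hj
      simp only [Finset.mem_compl, Finset.mem_insert, not_or] at hj ⊢
      exact hj.2)
    have hi' : i ∉ (insert i G')ᶜ := by simp
    have key1 : ∀ z, (h (flip i z) * ∏ j ∈ G', g j (flip i z)) = h z * ∏ j ∈ G', g j z := by
      intro z
      congr 1
      · exact hh.flip_eq hi' z
      · refine Finset.prod_congr rfl fun j hj => ?_
        refine (hg j (Finset.mem_insert_of_mem hj)).flip_eq ?_ z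
        intro hmem
        have h2 : key i ≤ key j := (Finset.mem_filter.mp hmem).2
        have h3 := hmax j hj
        have h4 : key i = key j := le_antisymm h2 h3
        exact hi ((hk h4) ▸ hj)
    have e1 : ∑ z, h z * ∏ j ∈ insert i G', g j z =
        ∑ z, (h z * ∏ j ∈ G', g j z) * g i z := by
      refine Finset.sum_congr rfl fun z _ => ?_
      rw [Finset.prod_insert hi]
      ring
    have e2 : ∑ z, (h z * ∏ j ∈ G', g j z) * g i z =
        ∑ z, (h z * ∏ j ∈ G', g j z) * g i (flip i z) := by
      rw [← seq_sum_flip i (fun z => (h z * ∏ j ∈ G', g j z) * g i z)]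
      refine Finset.sum_congr rfl fun z _ => ?_
      rw [key1 z]
    have e3 : 2 * ∑ z, (h z * ∏ j ∈ G', g j z) * g i z =
        2 * ∑ z, h z * ∏ j ∈ G', g j z := by
      rw [two_mul]
      nth_rw 2 [e2]
      rw [← Finset.sum_add_distrib, Finset.mul_sum]
      refine Finset.sum_congr rfl fun z _ => ?_
      rw [← mul_add, h1 i (Finset.mem_insert_self _ _) z]
      ring
    rw [e1]
    have e4 := ih (fun j hj => hg j (Finset.mem_insert_of_mem hj))
      (fun j hj => h1 j (Finset.mem_insert_of_mem hj)) hhG
    linarith

end Zyg
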