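import Pool.Agent.Work.MP_93d592_an.A.Doob

/-!
# Strong : the strong maximal function

PROOF. Induction on a finset `B` of coordinates: there is `M ≥ 0` with
`av (univ.filter fun i => i.1 ∈ B → kl l i < 0) g z ≤ M z` for all `l, z` and
`∑ M^q ≤ (4p)^|B| ∑ g^q`. `B = ∅`: `M = g` (`av_univ`). `insert c B`: the set of digits is
`Ec c (l c) ∩ {i | i.1 ∈ B → kl l i < 0}` and the union of these two sets is everything, so by `av_av`
and `av_mono` the average is `≤ av (Ec c (l c)) M`; apply `doob` to `M`. Finally `B = univ`.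
-/

open Finset
open scoped Classical

noncomputable section

namespace Zyg

variable {C : Type} [Fintype C] [LinearOrder C] {L : ℕ}

theorem Strong_av_av {E F : Finset (C × Fin L)} (h : E ∪ F = Finset.univ) (g : Zs C L → ℝ)
    (z : Zs C L) : av E (av F g) z = av (E ∩ F) g z := by
  have h' : @Union.union (Finset (C × Fin L))
      (@Finset.instUnion (C × Fin L) fun a b => Classical.propDecidable (a = b)) E F =
      Finset.univ := (union_inst _ _ E F).trans h
  exact (av_av h' g z).trans (congrArg (fun S => av S g z) (inter_inst _ _ E F))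

theorem Strong_aux (g : Zs C L → ℝ) (hg : ∀ z, 0 ≤ g z) (p : ℕ) (hp : 2 ≤ p) (B : Finset C) :
    ∃ M : Zs C L → ℝ, (∀ z, 0 ≤ M z) ∧
      (∀ l : C → ℤ, ∀ z, av (Finset.univ.filter fun i : C × Fin L => i.1 ∈ B → kl l i < 0) g z
        ≤ M z) ∧
      ∑ z, M z ^ ((p : ℝ) / (p - 1)) ≤
        (4 * (p : ℝ)) ^ B.card * ∑ z, g z ^ ((p : ℝ) / (p - 1)) := by
  induction B using Finset.induction_on with
  | empty =>
    refine ⟨g, hg, ?_, ?_⟩
    · intro l z
      have h1 : (Finset.univ.filter fun i : C × Fin L => i.1 ∈ (∅ : Finset C) → kl l i < 0) =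
          Finset.univ := by
        ext i
        simp
      rw [h1, av_univ]
    · simp
  | insert c B hc ih =>
    obtain ⟨M, hM0, hM1, hM2⟩ := ih
    obtain ⟨M', h0, h1, h2⟩ := doob c M hM0 p hp
    refine ⟨M', h0, ?_, ?_⟩
    · intro l z
      have e1 : (Finset.univ.filter fun i : C × Fin L => i.1 ∈ insert c B → kl l i < 0) =
          Ec c (l c) ∩ (Finset.univ.filter fun i : C × Fin L => i.1 ∈ B → kl l i < 0) := by
        ext i
        unfold Ec kl
        simp only [Finset.mem_filter, Finset.mem_univ, true_and, Finset.mem_inter,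
          Finset.mem_insert]
        constructor
        · intro h
          refine ⟨?_, fun h3 => h (Or.inr h3)⟩
          intro h3
          have := h (Or.inl h3)
          rw [h3] at this
          linarith
        · rintro ⟨h3, h4⟩ (h5 | h5)
          · have := h3 h5
            rw [h5]
            linarith
          · exact h4 h5
      have e2 : Ec c (l c) ∪ (Finset.univ.filter fun i : C × Fin L => i.1 ∈ B → kl l i < 0) =
          Finset.univ := by
        ext i
        unfold Ec
        simp only [Finset.mem_filter, Finset.mem_univ, true_and, Finset.mem_union, iff_true]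
        by_cases h3 : i.1 = c
        · right
          intro h4
          rw [h3] at h4
          exact absurd h4 hc
        · left
          intro h4
          exact absurd h4 h3
      rw [e1, ← Strong_av_av e2]
      exact (av_mono (fun z => hM1 l z) z).trans (h1 (l c) z)
    · rw [Finset.card_insert_of_notMem hc, pow_succ]
      calc ∑ z, M' z ^ ((p : ℝ) / (p - 1)) ≤ 4 * p * ∑ z, M z ^ ((p : ℝ) / (p - 1)) := h2
        _ ≤ 4 * p * ((4 * (p : ℝ)) ^ B.card * ∑ z, g z ^ ((p : ℝ) / (p - 1))) :=
          mul_le_mul_of_nonneg_left hM2 (by positivity)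
        _ = (4 * (p : ℝ)) ^ B.card * (4 * p) * ∑ z, g z ^ ((p : ℝ) / (p - 1)) := by ring

theorem strong (g : Zs C L → ℝ) (hg : ∀ z, 0 ≤ g z) (p : ℕ) (hp : 2 ≤ p) :
    ∃ M : Zs C L → ℝ, (∀ z, 0 ≤ M z) ∧ (∀ l : C → ℤ, ∀ z, av (D l) g z ≤ M z) ∧
      ∑ z, M z ^ ((p : ℝ) / (p - 1)) ≤
        (4 * (p : ℝ)) ^ Fintype.card C * ∑ z, g z ^ ((p : ℝ) / (p - 1)) := by
  obtain ⟨M, h0, h1, h2⟩ := Strong_aux g hg p hp Finset.univ
  refine ⟨M, h0, ?_, h2⟩
  intro l z
  have e : D l = Finset.univ.filter fun i : C × Fin L => i.1 ∈ (Finset.univ : Finset C) →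
      kl l i < 0 := by
    unfold D
    ext i
    simp
  rw [e]
  exact h1 l z

end Zyg
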