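import Pool.Agent.Work.MP_93d592_an.A.EndA
import Pool.Agent.Work.MP_93d592_an.A.Greedy

/-!
# ThmA : THEOREM A, the weak type bound on the finite digit space

PROOF. `K = 4^n`. If `av ∅ f > 1`: the left side is at most the number of all points, which is less than
`∑ f`. Otherwise: for `z` in the set, with `w`, let `w_j = w - j (1,…,1)`: `lv a w_j = lv a w - 2 j`
(`ha`), `D (lv a w_j) = ∅` for large `j`; take the smallest `j` with `av (D (lv a w_j)) f z ≤ 1`; then
`j ≥ 1` and `1 < av (D (lv a w_{j-1})) f z ≤ 4^n av (D (lv a w_j)) f z ≤ K` (`av_step`: at most `2 n` new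
digits). `Lev` = finite set of these `w_{j-1}` (one for each `z`),
`Bs w = {z | 1 < av (D (lv a w)) f z ≤ K}` (`av_dep`); `greedy` and `endA` with this `K`.
-/

open Finset
open scoped Classical

noncomputable section

namespace Zyg

theorem av_step {I : Type} [Fintype I] {D D' : Finset I} (hs : D ⊆ D') {f : (I → Bool) → ℝ}
    (hf : ∀ z, 0 < f z) (z : I → Bool) : av D' f z ≤ 2 ^ (D' \ D).card * av D f z := by
  have key : ∀ E : Finset I, Disjoint E D → av (E ∪ D) f z ≤ 2 ^ E.card * av D f z := by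
    intro E
    induction E using Finset.induction_on with
    | empty => intro _; simp
    | insert i E hi ih =>
      intro hd
      rw [Finset.disjoint_insert_left] at hd
      have h1 := ih hd.2
      have h2 : i ∉ E ∪ D := by
        rw [Finset.mem_union, not_or]
        exact ⟨hi, hd.1⟩
      have h3 := av_add_flip h2 f z
      have h4 := av_pos (D := insert i (E ∪ D)) hf (flip i z)
      rw [Finset.insert_union, Finset.card_insert_of_notMem hi, pow_succ]
      nlinarith
  have h := key (D' \ D) Finset.sdiff_disjoint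
  rwa [Finset.sdiff_union_of_subset hs] at h

variable {C : Type} [Fintype C] [LinearOrder C] {m : ℕ}

theorem thmA_card {L : ℕ} (l l' : C → ℤ) (h : ∀ c, l' c = l c + 2) :
    ((D l' : Finset (C × Fin L)) \ D l).card ≤ 2 * Fintype.card C := by
  have h1 : ((D l' : Finset (C × Fin L)) \ D l).card ≤
      ((univ : Finset C) ×ˢ ({0, 1} : Finset ℤ)).card := by
    refine Finset.card_le_card_of_injOn (fun i => (i.1, kl l i)) ?_ ?_
    · intro i hi
      simp only [Finset.coe_sdiff, Set.mem_sdiff, Finset.mem_coe, mem_D, not_lt] at hi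
      simp only [Finset.coe_product, Set.mem_prod, Finset.mem_coe, mem_univ, true_and,
        mem_insert, mem_singleton]
      have h2 := h i.1
      unfold kl at hi ⊢
      omega
    · intro i _ j _ hij
      simp only [Prod.mk.injEq] at hij
      obtain ⟨h1, h2⟩ := hij
      unfold kl at h2
      rw [h1] at h2
      refine Prod.ext h1 (Fin.ext ?_)
      omega
  refine h1.trans (le_of_eq ?_)
  rw [Finset.card_product, Finset.card_univ]
  have : ({0, 1} : Finset ℤ).card = 2 := by decide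
  rw [this]
  ring

theorem stop (a : C → Fin (m + 1) → ℕ) (ha : ∀ c, ∑ i, a c i = 2) {L : ℕ} {f : Zs C L → ℝ}
    (hf : ∀ z, 0 < f z) (h1 : ∀ z, av ∅ f z ≤ 1) (z : Zs C L)
    (hz : ∃ w : Fin (m + 1) → ℤ, 1 < av (D (lv a w)) f z) :
    ∃ w : Fin (m + 1) → ℤ, 1 < av (D (lv a w)) f z ∧
      av (D (lv a w)) f z ≤ 4 ^ Fintype.card C := by
  obtain ⟨w, hw⟩ := hz
  set ws : ℕ → Fin (m + 1) → ℤ := fun j i => w i - j with hws
  have hlv : ∀ j c, lv a (ws j) c = lv a w c - 2 * j := by
    intro j c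
    simp only [lv, hws, mul_sub, Finset.sum_sub_distrib]
    congr 1
    rw [← Finset.sum_mul]
    have : (∑ i, (a c i : ℤ)) = 2 := by exact_mod_cast ha c
    rw [this]
  have hex : ∃ j, av (D (lv a (ws j))) f z ≤ 1 := by
    refine ⟨(∑ c, |lv a w c|).toNat, ?_⟩
    have hD : (D (lv a (ws (∑ c, |lv a w c|).toNat)) : Finset (C × Fin L)) = ∅ := by
      rw [Finset.eq_empty_iff_forall_notMem]
      intro i hi
      rw [mem_D] at hi
      unfold kl at hi
      rw [hlv] at hi
      have h2 : |lv a w i.1| ≤ ∑ c, |lv a w c| :=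
        Finset.single_le_sum (f := fun c => |lv a w c|) (fun c _ => abs_nonneg _) (mem_univ i.1)
      have h3 : lv a w i.1 ≤ |lv a w i.1| := le_abs_self _
      have h4 : 0 ≤ |lv a w i.1| := abs_nonneg _
      rw [Int.toNat_of_nonneg (by omega)] at hi
      omega
    rw [hD]
    exact h1 z
  set j := Nat.find hex with hj
  have hj1 : av (D (lv a (ws j))) f z ≤ 1 := Nat.find_spec hex
  have hj0 : j ≠ 0 := by
    intro h0
    rw [h0] at hj1
    have : ws 0 = w := by
      funext i
      simp [hws]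
    rw [this] at hj1
    linarith
  obtain ⟨k, hk⟩ := Nat.exists_eq_succ_of_ne_zero hj0
  have hk1 : ¬ av (D (lv a (ws k))) f z ≤ 1 := Nat.find_min hex (by omega)
  rw [not_le] at hk1
  refine ⟨ws k, hk1, ?_⟩
  have hlk : ∀ c, lv a (ws k) c = lv a (ws j) c + 2 := by
    intro c
    rw [hlv, hlv, hk]
    push_cast
    ring
  have hsub : (D (lv a (ws j)) : Finset (C × Fin L)) ⊆ D (lv a (ws k)) := by
    intro i hi
    rw [mem_D] at hi ⊢
    have := hlk i.1
    unfold kl at hi ⊢
    omega
  have h2 : av (D (lv a (ws k))) f z ≤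
      2 ^ ((D (lv a (ws k)) : Finset (C × Fin L)) \ D (lv a (ws j))).card *
        av (D (lv a (ws j))) f z := by
    refine (av_step hsub hf z).trans_eq ?_
    exact congrArg (fun S : Finset (C × Fin L) => (2 : ℝ) ^ S.card * av (D (lv a (ws j))) f z)
      (sdiff_inst _ _ _ _)
  have h3 := thmA_card (L := L) _ _ hlk
  have h4 : (0 : ℝ) < av (D (lv a (ws j))) f z := av_pos hf z
  calc av (D (lv a (ws k))) f z
      ≤ 2 ^ ((D (lv a (ws k)) : Finset (C × Fin L)) \ D (lv a (ws j))).card *
        av (D (lv a (ws j))) f z := h2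
    _ ≤ 2 ^ (2 * Fintype.card C) * 1 :=
        mul_le_mul (pow_le_pow_right₀ (by norm_num) h3) hj1 h4.le (by positivity)
    _ = 4 ^ Fintype.card C := by
        rw [mul_one, pow_mul]
        norm_num

theorem thmA (a : C → Fin (m + 1) → ℕ) (ha : ∀ c, ∑ i, a c i = 2) :
    ∃ Cm : ℝ, 0 < Cm ∧ ∀ (L : ℕ) (f : Zs C L → ℝ), (∀ z, 0 < f z) →
      ((Finset.univ.filter fun z => ∃ w : Fin (m + 1) → ℤ, 1 < av (D (lv a w)) f z).card : ℝ) ≤
        Cm * ∑ z, f z * (1 + max (Real.log (f z)) 0) ^ m := by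
  obtain ⟨Ce, hCe, hE⟩ := endA a ha (4 ^ Fintype.card C) (one_le_pow₀ (by norm_num))
  refine ⟨(1 + 4 * 8 ^ Fintype.card C) * Ce + 1, by positivity, fun L f hf => ?_⟩
  set R : ℝ := ∑ z, f z * (1 + max (Real.log (f z)) 0) ^ m with hR
  have hpt : ∀ z, f z ≤ f z * (1 + max (Real.log (f z)) 0) ^ m := by
    intro z
    have h1 : (1 : ℝ) ≤ (1 + max (Real.log (f z)) 0) ^ m :=
      one_le_pow₀ (by linarith [le_max_right (Real.log (f z)) 0])
    have := hf z
    nlinarith
  have hR0 : 0 ≤ R := Finset.sum_nonneg fun z _ => (hf z).le.trans (hpt z)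
  have hfR : ∑ z, f z ≤ R := Finset.sum_le_sum fun z _ => hpt z
  set Z : Finset (Zs C L) :=
    Finset.univ.filter fun z => ∃ w : Fin (m + 1) → ℤ, 1 < av (D (lv a w)) f z with hZ
  by_cases h1 : ∀ z, av ∅ f z ≤ 1
  · have hst : ∀ z : Zs C L, ∃ w : Fin (m + 1) → ℤ, z ∈ Z → 1 < av (D (lv a w)) f z ∧
        av (D (lv a w)) f z ≤ 4 ^ Fintype.card C := by
      intro z
      by_cases hz : z ∈ Z
      · obtain ⟨w, hw⟩ := stop a ha hf h1 z (mem_filter.1 hz).2
        exact ⟨w, fun _ => hw⟩
      · exact ⟨0, fun h => absurd h hz⟩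
    choose wz hwz using hst
    set Lev : Finset (Fin (m + 1) → ℤ) := Z.image wz with hLev
    set Bs : (Fin (m + 1) → ℤ) → Finset (Zs C L) := fun w =>
      Finset.univ.filter fun z => 1 < av (D (lv a w)) f z ∧
        av (D (lv a w)) f z ≤ 4 ^ Fintype.card C with hBs
    obtain ⟨Fs, hFam, hcard⟩ := greedy a f (4 ^ Fintype.card C) Lev Bs (by
      intro w _ z z' hzz
      simp only [hBs, mem_filter, mem_univ, true_and]
      rw [av_dep _ f z z' hzz]) (by
      intro w _ z hz
      exact (mem_filter.1 hz).2.1) (by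
      intro w _ z hz
      exact (mem_filter.1 hz).2.2)
    have hT := hE L f hf Lev Fs hFam
    have hsub : Z ⊆ Lev.biUnion Bs := by
      intro z hz
      rw [Finset.mem_biUnion]
      exact ⟨wz z, mem_image_of_mem _ hz, mem_filter.2 ⟨mem_univ _, hwz z hz⟩⟩
    have h2 : (Z.card : ℝ) ≤ ((Lev.biUnion Bs).card : ℝ) := by
      exact_mod_cast Finset.card_le_card hsub
    have h3 : (0 : ℝ) ≤ 1 + 4 * 8 ^ Fintype.card C := by positivity
    calc (Z.card : ℝ) ≤ (1 + 4 * 8 ^ Fintype.card C) * TT Lev Fs := h2.trans hcard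
      _ ≤ (1 + 4 * 8 ^ Fintype.card C) * (Ce * R) := mul_le_mul_of_nonneg_left hT h3
      _ ≤ ((1 + 4 * 8 ^ Fintype.card C) * Ce + 1) * R := by nlinarith
  · push Not at h1
    obtain ⟨z0, hz0⟩ := h1
    have h2 : ((Finset.univ : Finset (Zs C L)).card : ℝ) ≤ ∑ z, f z := by
      have e1 : cyl ∅ z0 = (Finset.univ : Finset (Zs C L)) := by
        ext y
        rw [mem_cyl]
        simp
      unfold av at hz0
      rw [e1] at hz0
      have hc : (0 : ℝ) < ((Finset.univ : Finset (Zs C L)).card : ℝ) := by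
        exact_mod_cast Finset.card_pos.2 ⟨z0, mem_univ _⟩
      rw [lt_div_iff₀ hc] at hz0
      linarith
    have h3 : (Z.card : ℝ) ≤ ((Finset.univ : Finset (Zs C L)).card : ℝ) := by
      exact_mod_cast Finset.card_le_card (Finset.subset_univ _)
    have h4 : 0 ≤ (1 + 4 * 8 ^ Fintype.card C) * Ce := by positivity
    nlinarith

end Zyg
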