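import Pool.Agent.Work.MP_93d592_an.A.QFacts

/-!
# Tup : moments of the number of boxes with small budgets (A2)

PROOF. Expand the power: `NA^p = ∑ τ : Fin p → Lev, ∏ j [z ∈ Fs (τ j), budgets of τ j]`
(`Finset.card_pow`/`Fintype.piFinset`, or: `(NA z)^p` = number of functions `τ : Fin p → (Fin m → ℤ)`
in `Fintype.piFinset fun _ => filter`), and exchange the sums. For a fixed `τ`: `r c =` maximum over
`j` of `max (lv a (τ j) c - l c) 0` (`0` if `p = 0`). If all budgets hold at `z` then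
`Vt f {c} l (r c) z ≤ S` for `c ∉ A` (the maximum is attained; if `p = 0`: `Vt_nonpos`, `0 ≤ S`), so
`exp (V f Aᶜ l z) ≤ exp (n S) * ∏ i ∈ G, q f l i z`, `G = {i | i.1 ∉ A, r i.1 ≤ kl l i}`. Drop the
budgets, apply `seq` (`key l`, `G`, `q f l`) with `h z = [z ∈ Fs w] * ∏ j [z ∈ Fs (τ j)]`: by
`dep`, `z ∈ Fs (τ j)` depends on digits `i` with `kl (lv a (τ j)) i < 0`, i.e.
`kl l i < lv a (τ j) i.1 - l i.1 ≤ r i.1`. Sum over `τ`: `∑ z ∈ Fs w, NN^p`.
-/

open Finset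
open scoped Classical

noncomputable section

namespace Zyg

variable {C : Type} [Fintype C] [LinearOrder C] {L m : ℕ} {f : Zs C L → ℝ}
  {a : C → Fin m → ℕ} {Lev : Finset (Fin m → ℤ)} {Fs : (Fin m → ℤ) → Finset (Zs C L)}

theorem tup_mem_compl {α : Type} [Fintype α] (dec : DecidableEq α) {G : Finset α} {i : α}
    (h : i ∉ G) : i ∈ Gᶜ := Finset.mem_compl.mpr h

/-- the sequential summation lemma for digit spaces, with the usual instances -/
theorem tup_seq {κ : Type} [LinearOrder κ] (key : C × Fin L → κ) (hk : Function.Injective key)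
    (G : Finset (C × Fin L)) (g : C × Fin L → (C × Fin L → Bool) → ℝ)
    (h : (C × Fin L → Bool) → ℝ)
    (hg : ∀ i ∈ G, Dep (Finset.univ.filter fun j => key j ≤ key i) (g i))
    (h1 : ∀ i ∈ G, ∀ z, g i z + g i (flip i z) = 2)
    (hh : ∀ z z', (∀ i, i ∉ G → z i = z' i) → h z = h z') :
    ∑ z, h z * ∏ i ∈ G, g i z = ∑ z, h z := by
  have := seq key hk G g h hg h1 (fun z z' hz => hh z z' fun i hi => hz i (tup_mem_compl _ hi))
  exact (sum_inst _ _ _).trans (this.trans (sum_inst _ _ _))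

theorem tup_exists_r {p : ℕ} (g : Fin p → ℤ) :
    ∃ r : ℤ, 0 ≤ r ∧ (∀ j, g j ≤ r) ∧ (r = 0 ∨ ∃ j, r = max (g j) 0) := by
  rcases Nat.eq_zero_or_pos p with h | h
  · subst h
    exact ⟨0, le_rfl, fun j => j.elim0, Or.inl rfl⟩
  · have : Nonempty (Fin p) := ⟨⟨0, h⟩⟩
    obtain ⟨j0, hj0⟩ := Finite.exists_max g
    exact ⟨max (g j0) 0, le_max_right _ _, fun j => (hj0 j).trans (le_max_left _ _),
      Or.inr ⟨j0, rfl⟩⟩

theorem tup_card_pow {α : Type} (s : Finset α) (P : α → Prop) [DecidablePred P] (p : ℕ) :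
    ((s.filter P).card : ℝ) ^ p =
      ∑ τ ∈ Fintype.piFinset (fun _ : Fin p => s), ind (∀ j, P (τ j)) := by
  have h1 : (((s.filter P).card : ℝ)) ^ p =
      ((Fintype.piFinset (fun _ : Fin p => s.filter P)).card : ℝ) := by
    rw [Fintype.card_piFinset]
    simp
  have h2 : (Fintype.piFinset (fun _ : Fin p => s.filter P)) =
      (Fintype.piFinset (fun _ : Fin p => s)).filter (fun τ => ∀ j, P (τ j)) := by
    ext τ
    simp only [Fintype.mem_piFinset, Finset.mem_filter]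
    exact ⟨fun h => ⟨fun j => (h j).1, fun j => (h j).2⟩, fun h j => ⟨h.1 j, h.2 j⟩⟩
  rw [h1, h2, Finset.card_eq_sum_ones, Finset.sum_filter]
  push_cast
  refine Finset.sum_congr rfl fun τ _ => ?_
  unfold ind
  by_cases h : ∀ j, P (τ j)
  · rw [if_pos h, if_pos h]
  · rw [if_neg h, if_neg h]

theorem tup_V_split (l r : C → ℤ) (hr : ∀ c, 0 ≤ r c) (A : Finset C) (z : Zs C L) :
    V f Aᶜ l z = ∑ c ∈ Aᶜ, Vt f {c} l (r c) z +
      ∑ i ∈ Finset.univ.filter (fun i : C × Fin L => i.1 ∉ A ∧ r i.1 ≤ kl l i),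
        Real.log (q f l i z) := by
  have h1 : ∀ c ∈ Aᶜ, V f {c} l z = Vt f {c} l (r c) z +
      ∑ i ∈ U {c} l (r c), Real.log (q f l i z) := fun c _ => V_eq {c} l (hr c) z
  rw [V_sum, Finset.sum_congr rfl h1, Finset.sum_add_distrib]
  congr 1
  have h2 : Finset.univ.filter (fun i : C × Fin L => i.1 ∉ A ∧ r i.1 ≤ kl l i) =
      (Aᶜ).biUnion (fun c => U {c} l (r c)) := by
    ext i
    simp only [Finset.mem_filter, Finset.mem_univ, true_and, Finset.mem_biUnion,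
      Finset.mem_compl, mem_U, Finset.mem_singleton]
    constructor
    · rintro ⟨h1, h2⟩
      exact ⟨i.1, h1, rfl, h2⟩
    · rintro ⟨c, h1, h2, h3⟩
      subst h2
      exact ⟨h1, h3⟩
  rw [h2, Finset.sum_biUnion]
  intro c _ c' _ hcc
  rw [Function.onFun, Finset.disjoint_left]
  intro i hi hi'
  rw [mem_U, Finset.mem_singleton] at hi hi'
  exact hcc (hi.1.symm.trans hi'.1)

theorem tup_ind_nonneg (P : Prop) : 0 ≤ ind P := by
  unfold ind
  split_ifs <;> norm_num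

theorem tup_ind_true {P : Prop} (h : P) : ind P = 1 := by
  unfold ind
  rw [if_pos h]

theorem tup_ind_false {P : Prop} (h : ¬P) : ind P = 0 := by
  unfold ind
  rw [if_neg h]

theorem tup_one (hf : ∀ z, 0 < f z) (hdep : ∀ w ∈ Lev, Dep (D (lv a w)) fun z => z ∈ Fs w)
    (A : Finset C) {S : ℝ} (hS : 0 ≤ S) (p : ℕ) {w : Fin m → ℤ} (hw : w ∈ Lev)
    (τ : Fin p → (Fin m → ℤ)) (hτ : ∀ j, τ j ∈ Lev) :
    ∑ z ∈ Fs w, Real.exp (V f Aᶜ (lv a w) z) * ind (∀ j, z ∈ Fs (τ j) ∧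
        ∀ c ∉ A, Vt f {c} (lv a w) (max (lv a (τ j) c - lv a w c) 0) z ≤ S) ≤
      Real.exp (Fintype.card C * S) * ∑ z ∈ Fs w, ind (∀ j, z ∈ Fs (τ j)) := by
  set l := lv a w with hl
  choose r hr0 hr1 hr2 using fun c => tup_exists_r (fun j => lv a (τ j) c - l c)
  set G : Finset (C × Fin L) :=
    Finset.univ.filter (fun i : C × Fin L => i.1 ∉ A ∧ r i.1 ≤ kl l i) with hG
  have h1 : ∀ z ∈ Fs w, Real.exp (V f Aᶜ l z) * ind (∀ j, z ∈ Fs (τ j) ∧
        ∀ c ∉ A, Vt f {c} l (max (lv a (τ j) c - l c) 0) z ≤ S) ≤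
      Real.exp (Fintype.card C * S) * (ind (z ∈ Fs w ∧ ∀ j, z ∈ Fs (τ j)) *
        ∏ i ∈ G, q f l i z) := by
    intro z hz
    have hpr : 0 < ∏ i ∈ G, q f l i z := Finset.prod_pos fun i _ => q_pos hf l i z
    by_cases hall : ∀ j, z ∈ Fs (τ j) ∧
        ∀ c ∉ A, Vt f {c} l (max (lv a (τ j) c - l c) 0) z ≤ S
    · rw [tup_ind_true hall, tup_ind_true (show z ∈ Fs w ∧ ∀ j, z ∈ Fs (τ j) from
        ⟨hz, fun j => (hall j).1⟩), mul_one, one_mul, tup_V_split l r hr0 A z, Real.exp_add]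
      have h2 : ∑ c ∈ Aᶜ, Vt f {c} l (r c) z ≤ Fintype.card C * S := by
        calc ∑ c ∈ Aᶜ, Vt f {c} l (r c) z ≤ ∑ _c ∈ Aᶜ, S := by
              refine Finset.sum_le_sum fun c hc => ?_
              rcases hr2 c with h0 | ⟨j, hj⟩
              · rw [h0, Vt_nonpos _ _ le_rfl]
                exact hS
              · rw [hj]
                exact (hall j).2 c (Finset.mem_compl.mp hc)
          _ = (Aᶜ.card : ℝ) * S := by rw [Finset.sum_const, nsmul_eq_mul]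
          _ ≤ _ := by
              apply mul_le_mul_of_nonneg_right _ hS
              exact_mod_cast Finset.card_le_univ _
      have h3 : Real.exp (∑ i ∈ G, Real.log (q f l i z)) = ∏ i ∈ G, q f l i z := by
        rw [Real.exp_sum]
        exact Finset.prod_congr rfl fun i _ => Real.exp_log (q_pos hf l i z)
      rw [h3]
      exact mul_le_mul_of_nonneg_right (Real.exp_le_exp.mpr h2) hpr.le
    · rw [tup_ind_false hall, mul_zero]
      have := tup_ind_nonneg (z ∈ Fs w ∧ ∀ j, z ∈ Fs (τ j))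
      positivity
  refine (Finset.sum_le_sum h1).trans ?_
  rw [← Finset.mul_sum]
  apply mul_le_mul_of_nonneg_left _ (Real.exp_pos _).le
  have h4 : ∑ z ∈ Fs w, ind (z ∈ Fs w ∧ ∀ j, z ∈ Fs (τ j)) * ∏ i ∈ G, q f l i z ≤
      ∑ z, ind (z ∈ Fs w ∧ ∀ j, z ∈ Fs (τ j)) * ∏ i ∈ G, q f l i z := by
    apply Finset.sum_le_sum_of_subset_of_nonneg (Finset.subset_univ _)
    intro z _ _
    have := tup_ind_nonneg (z ∈ Fs w ∧ ∀ j, z ∈ Fs (τ j))
    have hpr : 0 < ∏ i ∈ G, q f l i z := Finset.prod_pos fun i _ => q_pos hf l i z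
    positivity
  refine h4.trans ?_
  have h5 := tup_seq (key l) (key_inj l) G (fun i => q f l i)
    (fun z => ind (z ∈ Fs w ∧ ∀ j, z ∈ Fs (τ j))) (fun i _ => q_dep' l i)
    (fun i _ z => q_add_flip hf l i z) (by
      intro z z' hzz
      have e1 : (z ∈ Fs w) = (z' ∈ Fs w) := by
        refine hdep w hw z z' fun i hi => hzz i ?_
        rw [mem_D] at hi
        rw [hG, Finset.mem_filter]
        rintro ⟨-, -, h⟩
        have := hr0 i.1
        rw [← hl] at hi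
        omega
      have e2 : ∀ j, (z ∈ Fs (τ j)) = (z' ∈ Fs (τ j)) := by
        intro j
        refine hdep (τ j) (hτ j) z z' fun i hi => hzz i ?_
        rw [mem_D] at hi
        rw [hG, Finset.mem_filter]
        rintro ⟨-, -, h⟩
        have h6 := hr1 i.1 j
        unfold kl at hi h
        omega
      simp only [e1, e2])
  refine (le_of_eq h5).trans ?_
  have h7 : ∀ z, ind (z ∈ Fs w ∧ ∀ j, z ∈ Fs (τ j)) =
      if z ∈ Fs w then ind (∀ j, z ∈ Fs (τ j)) else 0 := by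
    intro z
    by_cases h : z ∈ Fs w
    · rw [if_pos h]
      unfold ind
      simp [h]
    · rw [if_neg h]
      exact tup_ind_false fun h' => h h'.1
  rw [Finset.sum_congr rfl fun z _ => h7 z, ← Finset.sum_filter]
  apply le_of_eq
  congr 1
  ext z
  simp

theorem tup (hf : ∀ z, 0 < f z) (hdep : ∀ w ∈ Lev, Dep (D (lv a w)) fun z => z ∈ Fs w)
    (A : Finset C) {S : ℝ} (hS : 0 ≤ S) (p : ℕ) {w : Fin m → ℤ} (hw : w ∈ Lev) :
    ∑ z ∈ Fs w, Real.exp (V f Aᶜ (lv a w) z) * (NA a f Lev Fs A S (lv a w) z : ℝ) ^ p ≤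
      Real.exp (Fintype.card C * S) * ∑ z ∈ Fs w, (NN Lev Fs z : ℝ) ^ p := by
  have h1 : ∀ z ∈ Fs w, Real.exp (V f Aᶜ (lv a w) z) * (NA a f Lev Fs A S (lv a w) z : ℝ) ^ p =
      ∑ τ ∈ Fintype.piFinset (fun _ : Fin p => Lev), Real.exp (V f Aᶜ (lv a w) z) *
        ind (∀ j, z ∈ Fs (τ j) ∧
          ∀ c ∉ A, Vt f {c} (lv a w) (max (lv a (τ j) c - lv a w c) 0) z ≤ S) := by
    intro z _
    unfold NA
    rw [tup_card_pow Lev (fun w' => z ∈ Fs w' ∧ ∀ c ∉ A,
      Vt f {c} (lv a w) (max (lv a w' c - lv a w c) 0) z ≤ S), Finset.mul_sum]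
  have h2 : ∀ z ∈ Fs w, (NN Lev Fs z : ℝ) ^ p =
      ∑ τ ∈ Fintype.piFinset (fun _ : Fin p => Lev), ind (∀ j, z ∈ Fs (τ j)) := by
    intro z _
    unfold NN
    rw [tup_card_pow Lev (fun w' => z ∈ Fs w')]
  rw [Finset.sum_congr rfl h1, Finset.sum_congr rfl h2, Finset.sum_comm, Finset.sum_comm (s := Fs w),
    Finset.mul_sum]
  refine Finset.sum_le_sum fun τ hτ => ?_
  rw [Fintype.mem_piFinset] at hτ
  exact tup_one hf hdep A hS p hw τ hτ

end Zyg
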